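import Pool.Agent.Helper72.NS.Nat

/-! Chains of moduli: the inequality for residue classes and for intervals. -/

namespace Pool.Agent.Helper72.NS

open Finset
open scoped Pointwise

/-- the progression 0, d, .., (n-1) d -/
def ap (d n : ℕ) : Finset ℤ := (Finset.range n).image (fun i : ℕ => ((d * i : ℕ) : ℤ))

lemma card_ap (d n : ℕ) (hd : 0 < d) : (ap d n).card = n := by
  unfold ap
  rw [Finset.card_image_of_injective, Finset.card_range]
  intro a b h
  have h0 : ((d * a : ℕ) : ℤ) = ((d * b : ℕ) : ℤ) := h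
  have h1 : d * a = d * b := by exact_mod_cast h0
  exact Nat.eq_of_mul_eq_mul_left hd h1

lemma mem_ap {d n : ℕ} {z : ℤ} : z ∈ ap d n ↔ ∃ i < n, ((d * i : ℕ) : ℤ) = z := by
  unfold ap
  simp

lemma ap_add (d a b : ℕ) (ha : 0 < a) : ap d (a * b) = ap (d * a) b + ap d a := by
  ext z
  rw [Finset.mem_add]
  constructor
  · intro h
    obtain ⟨i, hi, rfl⟩ := mem_ap.1 h
    refine ⟨_, mem_ap.2 ⟨i / a, ?_, rfl⟩, _, mem_ap.2 ⟨i % a, Nat.mod_lt _ ha, rfl⟩, ?_⟩
    · exact Nat.div_lt_of_lt_mul hi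
    · have := Nat.div_add_mod i a
      have h2 : d * a * (i / a) + d * (i % a) = d * i := by
        calc d * a * (i / a) + d * (i % a) = d * (a * (i / a) + i % a) := by ring
          _ = d * i := by rw [this]
      exact_mod_cast h2
  · rintro ⟨x, hx, y, hy, rfl⟩
    obtain ⟨i, hi, rfl⟩ := mem_ap.1 hx
    obtain ⟨u, hu, rfl⟩ := mem_ap.1 hy
    refine mem_ap.2 ⟨a * i + u, ?_, ?_⟩
    · calc a * i + u < a * i + a := by omega
        _ = a * (i + 1) := by ring
        _ ≤ a * b := Nat.mul_le_mul_left _ hi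
    · have : d * (a * i + u) = d * a * i + d * u := by ring
      exact_mod_cast this

/-- divisibility chain with ratios at least two -/
structure Chain (m : ℕ → ℕ) : Prop where
  one : m 0 = 1
  dvd : ∀ j, m j ∣ m (j + 1)
  two : ∀ j, 2 * m j ≤ m (j + 1)

variable {m : ℕ → ℕ}

lemma Chain.pos (hm : Chain m) : ∀ j, 0 < m j := by
  intro j
  induction j with
  | zero => rw [hm.one]; norm_num
  | succ j ih => have := hm.two j; omega

lemma Chain.dvd' (hm : Chain m) {i j : ℕ} (hij : i ≤ j) : m i ∣ m j := by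
  induction hij with
  | refl => exact dvd_rfl
  | step _ ih => exact ih.trans (hm.dvd _)

lemma Chain.tilesLow (hm : Chain m) (J : ℕ) :
    Tiles (fun k => ap (m (J - k)) (m J / m (J - k)))
      (fun k => ap (m (J - (k + 1))) (m (J - k) / m (J - (k + 1)))) J := by
  have key : ∀ k < J, m J / m (J - (k + 1)) = m (J - k) / m (J - (k + 1)) * (m J / m (J - k)) := by
    intro k hk
    have h1 : m (J - (k + 1)) ∣ m (J - k) := hm.dvd' (by omega)
    have h2 : m (J - k) ∣ m J := hm.dvd' (by omega)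
    have h3 := hm.pos (J - (k + 1))
    have h4 := hm.pos (J - k)
    obtain ⟨a, ha⟩ := h1
    obtain ⟨b, hb⟩ := h2
    rw [hb, Nat.mul_div_cancel_left _ h4]
    rw [ha]
    rw [Nat.mul_div_cancel_left _ h3, mul_assoc, Nat.mul_div_cancel_left _ h3]
  have hpos : ∀ k < J, 2 ≤ m (J - k) / m (J - (k + 1)) := by
    intro k hk
    have h3 := hm.pos (J - (k + 1))
    rw [Nat.le_div_iff_mul_le h3]
    have := hm.two (J - (k + 1))
    have h5 : J - (k + 1) + 1 = J - k := by omega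
    rwa [h5] at this
  refine ⟨?_, ?_, ?_, ?_⟩
  · have h := Nat.div_self (hm.pos J)
    simp only [Nat.sub_zero, h]
    unfold ap
    simp
  · intro k hk
    rw [key k hk, ap_add _ _ _ (by have := hpos k hk; omega)]
    congr 2
    have h1 : m (J - (k + 1)) ∣ m (J - k) := hm.dvd' (by omega)
    exact Nat.mul_div_cancel' h1
  · intro k hk
    rw [card_ap _ _ (hm.pos _), card_ap _ _ (hm.pos _), card_ap _ _ (hm.pos _), key k hk, mul_comm]
  · intro k hk
    rw [card_ap _ _ (hm.pos _)]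
    exact hpos k hk

lemma Chain.tilesHigh (hm : Chain m) (J : ℕ) :
    Tiles (fun k => ap 1 (m J / m (J - k)))
      (fun k => ap (m J / m (J - k)) (m (J - k) / m (J - (k + 1)))) J := by
  have key : ∀ k < J, m J / m (J - (k + 1)) = m J / m (J - k) * (m (J - k) / m (J - (k + 1))) := by
    intro k hk
    have h1 : m (J - (k + 1)) ∣ m (J - k) := hm.dvd' (by omega)
    have h2 : m (J - k) ∣ m J := hm.dvd' (by omega)
    have h3 := hm.pos (J - (k + 1))
    have h4 := hm.pos (J - k)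
    obtain ⟨a, ha⟩ := h1
    obtain ⟨b, hb⟩ := h2
    rw [hb, Nat.mul_div_cancel_left _ h4]
    rw [ha]
    rw [Nat.mul_div_cancel_left _ h3, mul_assoc, Nat.mul_div_cancel_left _ h3, mul_comm]
  have hpos : ∀ k < J, 2 ≤ m (J - k) / m (J - (k + 1)) := by
    intro k hk
    have h3 := hm.pos (J - (k + 1))
    rw [Nat.le_div_iff_mul_le h3]
    have := hm.two (J - (k + 1))
    have h5 : J - (k + 1) + 1 = J - k := by omega
    rwa [h5] at this
  have hy : ∀ k ≤ J, 0 < m J / m (J - k) := by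
    intro k hk
    exact Nat.div_pos (Nat.le_of_dvd (hm.pos _) (hm.dvd' (by omega))) (hm.pos _)
  refine ⟨?_, ?_, ?_, ?_⟩
  · have h := Nat.div_self (hm.pos J)
    simp only [Nat.sub_zero, h]
    unfold ap
    simp
  · intro k hk
    rw [key k hk, ap_add _ _ _ (hy k hk.le), one_mul, add_comm]
  · intro k hk
    rw [card_ap _ _ one_pos, card_ap _ _ one_pos, card_ap _ _ (hy k hk.le), key k hk]
  · intro k hk
    rw [card_ap _ _ (hy k hk.le)]
    exact hpos k hk

/-- number of residue classes -/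
def dl (m : ℕ → ℕ) (S : Finset ℕ) (j : ℕ) : ℕ := (S.image (fun a => a % m j)).card

/-- number of intervals -/
def dh (m : ℕ → ℕ) (S : Finset ℕ) (J j : ℕ) : ℕ := (S.image (fun a => a / (m J / m j))).card

lemma card_low (S : Finset ℕ) (d q : ℕ) (hS : ∀ a ∈ S, a < d * q) :
    (zs S + (ap d q - ap d q)).card ≤ 3 * q * (S.image (fun a => a % d)).card := by
  have hsub : zs S + (ap d q - ap d q)
      ⊆ Finset.image₂ (fun (r : ℕ) (t : ℤ) => (r : ℤ) + d * t) (S.image (fun a => a % d))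
        (Finset.Ico (-(q : ℤ)) (2 * q)) := by
    intro z hz
    obtain ⟨x, hx, w, hw, rfl⟩ := Finset.mem_add.1 hz
    obtain ⟨y, hy, y', hy', rfl⟩ := Finset.mem_sub.1 hw
    obtain ⟨a, ha, rfl⟩ := mem_zs.1 hx
    obtain ⟨i, hi, rfl⟩ := mem_ap.1 hy
    obtain ⟨i', hi', rfl⟩ := mem_ap.1 hy'
    rw [Finset.mem_image₂]
    refine ⟨a % d, Finset.mem_image_of_mem _ ha, (a / d : ℕ) + (i : ℤ) - i', ?_, ?_⟩
    · have h1 : a / d < q := Nat.div_lt_of_lt_mul (hS a ha)
      rw [Finset.mem_Ico]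
      generalize a / d = g at h1 ⊢
      constructor <;> omega
    · have h2 := Nat.div_add_mod a d
      have h3 : (a : ℤ) = d * (a / d : ℕ) + (a % d : ℕ) := by exact_mod_cast h2.symm
      push_cast
      push_cast at h3
      linear_combination -h3
  have h1 := (Finset.card_le_card hsub).trans (Finset.card_image₂_le _ _ _)
  rw [Int.card_Ico] at h1
  have h2 : ((2 * (q : ℤ) - -(q : ℤ)).toNat) = 3 * q := by omega
  rw [h2] at h1
  linarith

lemma card_high (S : Finset ℕ) (y : ℕ) (hy : 0 < y) :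
    (zs S + (ap 1 y - ap 1 y)).card ≤ 3 * y * (S.image (fun a => a / y)).card := by
  have hsub : zs S + (ap 1 y - ap 1 y)
      ⊆ Finset.image₂ (fun (r : ℕ) (t : ℤ) => (y : ℤ) * r + t) (S.image (fun a => a / y))
        (Finset.Ico (-(y : ℤ)) (2 * y)) := by
    intro z hz
    obtain ⟨x, hx, w, hw, rfl⟩ := Finset.mem_add.1 hz
    obtain ⟨v, hv, v', hv', rfl⟩ := Finset.mem_sub.1 hw
    obtain ⟨a, ha, rfl⟩ := mem_zs.1 hx
    obtain ⟨i, hi, rfl⟩ := mem_ap.1 hv
    obtain ⟨i', hi', rfl⟩ := mem_ap.1 hv'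
    rw [Finset.mem_image₂]
    refine ⟨a / y, Finset.mem_image_of_mem _ ha, (a % y : ℕ) + (i : ℤ) - i', ?_, ?_⟩
    · have h1 : a % y < y := Nat.mod_lt _ hy
      rw [Finset.mem_Ico]
      generalize a % y = g at h1 ⊢
      constructor <;> omega
    · have h2 := Nat.div_add_mod a y
      have h3 : (a : ℤ) = y * (a / y : ℕ) + (a % y : ℕ) := by exact_mod_cast h2.symm
      push_cast
      push_cast at h3
      linear_combination -h3
  have h1 := (Finset.card_le_card hsub).trans (Finset.card_image₂_le _ _ _)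
  rw [Int.card_Ico] at h1
  have h2 : ((2 * (y : ℤ) - -(y : ℤ)).toNat) = 3 * y := by omega
  rw [h2] at h1
  linarith

lemma reindex (hm : Chain m) (J : ℕ) (D : ℕ → ℕ) :
    ∑ k ∈ Finset.range J, 1 / (((m J / m (J - k) : ℕ) : ℝ) * (D (J - k) : ℝ) ^ 2)
      = (m J : ℝ)⁻¹ * ∑ j ∈ Finset.Icc 1 J, (m j : ℝ) / (D j : ℝ) ^ 2 := by
  rw [Finset.mul_sum]
  refine Finset.sum_bij' (fun k _ => J - k) (fun j _ => J - j) ?_ ?_ ?_ ?_ ?_
  · intro k hk
    rw [Finset.mem_range] at hk
    rw [Finset.mem_Icc]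
    omega
  · intro j hj
    rw [Finset.mem_Icc] at hj
    rw [Finset.mem_range]
    omega
  · intro k hk
    rw [Finset.mem_range] at hk
    show J - (J - k) = k
    omega
  · intro j hj
    rw [Finset.mem_Icc] at hj
    show J - (J - j) = j
    omega
  · intro k hk
    have h1 : m (J - k) ∣ m J := hm.dvd' (by omega)
    have h2 : (0 : ℝ) < m (J - k) := by exact_mod_cast hm.pos _
    have h3 : (0 : ℝ) < m J := by exact_mod_cast hm.pos _
    rw [Nat.cast_div h1 h2.ne']
    show 1 / ((m J : ℝ) / (m (J - k) : ℝ) * (D (J - k) : ℝ) ^ 2)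
      = (m J : ℝ)⁻¹ * ((m (J - k) : ℝ) / (D (J - k) : ℝ) ^ 2)
    rw [one_div, mul_inv, inv_div, div_eq_mul_inv, div_eq_mul_inv]
    ring

/-- residue classes -/
theorem low_ineq (hm : Chain m) (J : ℕ) (S : Finset ℕ) (hS : ∀ a ∈ S, a < m J) :
    (S.card : ℝ) ^ 4 * ∑ j ∈ Finset.Icc 1 J, (m j : ℝ) / (dl m S j : ℝ) ^ 2
      ≤ 486 * m J * ∑ n ∈ Finset.range (2 * m J), (rpN S n : ℝ) ^ 2 := by
  have hMr : (0 : ℝ) < m J := by exact_mod_cast hm.pos J
  rcases S.eq_empty_or_nonempty with rfl | hne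
  · simp only [Finset.card_empty, Nat.cast_zero, ne_eq, OfNat.ofNat_ne_zero, not_false_eq_true,
      zero_pow, zero_mul]
    positivity
  have h := tile_nat (hm.tilesLow J) S hne (m J) hS (by
    simp only [Nat.sub_self]
    rw [card_ap _ _ (hm.pos 0), hm.one, Nat.div_one]) (fun k => dl m S (J - k)) (by
    intro k hk
    have := card_low S (m (J - k)) (m J / m (J - k)) (by
      intro a ha
      rw [Nat.mul_div_cancel' (hm.dvd' (by omega))]
      exact hS a ha)
    rw [card_ap _ _ (hm.pos _)]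
    exact this)
  simp only [card_ap _ _ (hm.pos _)] at h
  rw [reindex hm J (fun j => dl m S j)] at h
  have h2 := mul_le_mul_of_nonneg_left h hMr.le
  calc (S.card : ℝ) ^ 4 * ∑ j ∈ Finset.Icc 1 J, (m j : ℝ) / (dl m S j : ℝ) ^ 2
      = (m J : ℝ) * ((S.card : ℝ) ^ 4 * ((m J : ℝ)⁻¹ * ∑ j ∈ Finset.Icc 1 J, (m j : ℝ) / (dl m S j : ℝ) ^ 2)) := by
        field_simp
    _ ≤ _ := h2
    _ = _ := by ring

/-- intervals -/
theorem high_ineq (hm : Chain m) (J : ℕ) (S : Finset ℕ) (hS : ∀ a ∈ S, a < m J) :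
    (S.card : ℝ) ^ 4 * ∑ j ∈ Finset.Icc 1 J, (m j : ℝ) / (dh m S J j : ℝ) ^ 2
      ≤ 486 * m J * ∑ n ∈ Finset.range (2 * m J), (rpN S n : ℝ) ^ 2 := by
  have hMr : (0 : ℝ) < m J := by exact_mod_cast hm.pos J
  rcases S.eq_empty_or_nonempty with rfl | hne
  · simp only [Finset.card_empty, Nat.cast_zero, ne_eq, OfNat.ofNat_ne_zero, not_false_eq_true,
      zero_pow, zero_mul]
    positivity
  have hy : ∀ k, 0 < m J / m (J - k) := by
    intro k
    exact Nat.div_pos (Nat.le_of_dvd (hm.pos _) (hm.dvd' (by omega))) (hm.pos _)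
  have h := tile_nat (hm.tilesHigh J) S hne (m J) hS (by
    simp only [Nat.sub_self]
    rw [card_ap _ _ one_pos, hm.one, Nat.div_one]) (fun k => dh m S J (J - k)) (by
    intro k hk
    have := card_high S (m J / m (J - k)) (hy k)
    rw [card_ap _ _ one_pos]
    exact this)
  simp only [card_ap _ _ one_pos] at h
  rw [reindex hm J (fun j => dh m S J j)] at h
  have h2 := mul_le_mul_of_nonneg_left h hMr.le
  calc (S.card : ℝ) ^ 4 * ∑ j ∈ Finset.Icc 1 J, (m j : ℝ) / (dh m S J j : ℝ) ^ 2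
      = (m J : ℝ) * ((S.card : ℝ) ^ 4 * ((m J : ℝ)⁻¹ * ∑ j ∈ Finset.Icc 1 J, (m j : ℝ) / (dh m S J j : ℝ) ^ 2)) := by
        field_simp
    _ ≤ _ := h2
    _ = _ := by ring

end Pool.Agent.Helper72.NS
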