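import Pool.Agent.Helper72.NS.Chains

/-! Nested sets of natural numbers. -/

namespace Pool.Agent.Helper72.NS

open Finset

/-- number of ordered representations `n = a + b` with `a, b` in `A` -/
noncomputable def rep (A : Set ℕ) (n : ℕ) : ℕ :=
  {q : ℕ × ℕ | q.1 ∈ A ∧ q.2 ∈ A ∧ q.1 + q.2 = n}.ncard

/-- number of elements of `A` below `x` -/
noncomputable def num (A : Set ℕ) (x : ℕ) : ℕ := (A ∩ Set.Iio x).ncard

/-- number of residue classes modulo `m j` which contain an element of `A` below `m J` -/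
noncomputable def boxMod (A : Set ℕ) (m : ℕ → ℕ) (J j : ℕ) : ℕ :=
  ((fun a => a % m j) '' (A ∩ Set.Iio (m J))).ncard

/-- number of intervals `[i * (m J / m j), (i + 1) * (m J / m j))` which contain an element of `A`
below `m J` -/
noncomputable def boxInt (A : Set ℕ) (m : ℕ → ℕ) (J j : ℕ) : ℕ :=
  ((fun a => a / (m J / m j)) '' (A ∩ Set.Iio (m J))).ncard

/-- nested along the chain `m` with constant `C` -/
def Nested (A : Set ℕ) (m : ℕ → ℕ) (C : ℕ) : Prop :=
  ∀ J, (∀ j ≤ J, boxMod A m J j ≤ C * num A (C * m j)) ∨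
    (∀ j ≤ J, boxInt A m J j ≤ C * num A (C * m j))

variable {A : Set ℕ} {m : ℕ → ℕ} {C : ℕ}

/-- the elements of A below x -/
noncomputable def sec (A : Set ℕ) (x : ℕ) : Finset ℕ := by
  classical exact (Finset.range x).filter (fun a => a ∈ A)

lemma mem_sec {A : Set ℕ} {x a : ℕ} : a ∈ sec A x ↔ a < x ∧ a ∈ A := by
  unfold sec
  simp

lemma card_sec (A : Set ℕ) (x : ℕ) : (sec A x).card = num A x := by
  unfold num
  rw [← Set.ncard_coe_finset]
  congr 1
  ext a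
  rw [Finset.mem_coe, mem_sec, Set.mem_inter_iff, Set.mem_Iio]
  exact And.comm

lemma num_mono {x y : ℕ} (h : x ≤ y) : num A x ≤ num A y := by
  rw [← card_sec, ← card_sec]
  refine Finset.card_le_card fun a ha => ?_
  rw [mem_sec] at ha ⊢
  exact ⟨ha.1.trans_le h, ha.2⟩

lemma num_le (A : Set ℕ) (x : ℕ) : num A x ≤ x := by
  rw [← card_sec]
  have h : sec A x ⊆ Finset.range x := fun a ha => Finset.mem_range.2 (mem_sec.1 ha).1
  simpa using Finset.card_le_card h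

lemma rep_fin (A : Set ℕ) (n : ℕ) : {q : ℕ × ℕ | q.1 ∈ A ∧ q.2 ∈ A ∧ q.1 + q.2 = n}.Finite := by
  refine (Finset.finite_toSet (Finset.HasAntidiagonal.antidiagonal n)).subset ?_
  rintro ⟨a, b⟩ h
  rw [Finset.mem_coe, Finset.HasAntidiagonal.mem_antidiagonal]
  exact h.2.2

lemma rpN_le_rep (A : Set ℕ) (x n : ℕ) : rpN (sec A x) n ≤ rep A n := by
  unfold rpN rep
  rw [← Set.ncard_coe_finset]
  refine Set.ncard_le_ncard ?_ (rep_fin A n)
  rintro ⟨a, b⟩ h
  simp only [Finset.coe_filter, Finset.mem_product, Set.mem_ofPred_eq] at h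
  exact ⟨(mem_sec.1 h.1.1).2, (mem_sec.1 h.1.2).2, h.2⟩

lemma rep_le (A : Set ℕ) (n : ℕ) : rep A n ≤ n + 1 := by
  unfold rep
  have h : {q : ℕ × ℕ | q.1 ∈ A ∧ q.2 ∈ A ∧ q.1 + q.2 = n} ⊆
      (Finset.HasAntidiagonal.antidiagonal n : Finset (ℕ × ℕ)) := by
    rintro ⟨a, b⟩ h
    rw [Finset.mem_coe, Finset.HasAntidiagonal.mem_antidiagonal]
    exact h.2.2
  have := Set.ncard_le_ncard h (Finset.finite_toSet _)
  rwa [Set.ncard_coe_finset, Finset.Nat.card_antidiagonal] at this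

/-- the trivial upper bound -/
lemma num_sq_le (A : Set ℕ) (x : ℕ) (R : ℝ) (hR : ∀ n < 2 * x, (rep A n : ℝ) ≤ R) :
    (num A x : ℝ) ^ 2 ≤ 2 * x * R := by
  have h1 := sum_rpN (sec A x) x (fun a ha => (mem_sec.1 ha).1)
  rw [card_sec] at h1
  have h2 : ((num A x : ℝ)) ^ 2 = ∑ n ∈ Finset.range (2 * x), (rpN (sec A x) n : ℝ) := by
    exact_mod_cast h1.symm
  rw [h2]
  calc ∑ n ∈ Finset.range (2 * x), (rpN (sec A x) n : ℝ) ≤ ∑ n ∈ Finset.range (2 * x), R := by
        refine Finset.sum_le_sum fun n hn => ?_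
        have h3 : (rpN (sec A x) n : ℝ) ≤ rep A n := by exact_mod_cast rpN_le_rep A x n
        exact h3.trans (hR n (Finset.mem_range.1 hn))
    _ = 2 * x * R := by
        rw [Finset.sum_const, Finset.card_range, nsmul_eq_mul]
        push_cast
        ring

lemma sum_sq_le (A : Set ℕ) (x : ℕ) (R : ℝ) (hR : ∀ n < 2 * x, (rep A n : ℝ) ≤ R) :
    ∑ n ∈ Finset.range (2 * x), (rpN (sec A x) n : ℝ) ^ 2 ≤ R * (num A x : ℝ) ^ 2 := by
  have h1 := sum_rpN (sec A x) x (fun a ha => (mem_sec.1 ha).1)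
  rw [card_sec] at h1
  have h2 : ((num A x : ℝ)) ^ 2 = ∑ n ∈ Finset.range (2 * x), (rpN (sec A x) n : ℝ) := by
    exact_mod_cast h1.symm
  rw [h2, Finset.mul_sum]
  refine Finset.sum_le_sum fun n hn => ?_
  have h3 : (rpN (sec A x) n : ℝ) ≤ rep A n := by exact_mod_cast rpN_le_rep A x n
  have h4 := h3.trans (hR n (Finset.mem_range.1 hn))
  rw [sq]
  gcongr

lemma coe_sec (A : Set ℕ) (x : ℕ) : ((sec A x : Finset ℕ) : Set ℕ) = A ∩ Set.Iio x := by
  ext a
  rw [Finset.mem_coe, mem_sec, Set.mem_inter_iff, Set.mem_Iio]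
  exact And.comm

lemma dl_eq (A : Set ℕ) (m : ℕ → ℕ) (J j : ℕ) : dl m (sec A (m J)) j = boxMod A m J j := by
  unfold dl boxMod
  rw [← coe_sec, ← Finset.coe_image, Set.ncard_coe_finset]

lemma dh_eq (A : Set ℕ) (m : ℕ → ℕ) (J j : ℕ) : dh m (sec A (m J)) J j = boxInt A m J j := by
  unfold dh boxInt
  rw [← coe_sec, ← Finset.coe_image, Set.ncard_coe_finset]

/-- the profile inequality -/
theorem profile (hm : Chain m) (hC : 1 ≤ C) (hN : Nested A m C) (J : ℕ) (R : ℝ)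
    (hR : ∀ n < 2 * m J, (rep A n : ℝ) ≤ R) :
    (num A (m J) : ℝ) ^ 2 * ∑ j ∈ Finset.Icc 1 J, (m j : ℝ) / (num A (C * m j) : ℝ) ^ 2
      ≤ 486 * C ^ 2 * m J * R := by
  have hR0 : 0 ≤ R := by
    have := hR 0 (by have := hm.pos J; omega)
    have h2 : (0 : ℝ) ≤ rep A 0 := by positivity
    linarith
  have hMr : (0 : ℝ) < m J := by exact_mod_cast hm.pos J
  rcases Nat.eq_zero_or_pos (num A (m J)) with h0 | h0
  · rw [h0]
    simp only [Nat.cast_zero, ne_eq, OfNat.ofNat_ne_zero, not_false_eq_true, zero_pow, zero_mul]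
    positivity
  have hne : (sec A (m J)).Nonempty := by
    rw [← Finset.card_pos, card_sec]; exact h0
  have hS : ∀ a ∈ sec A (m J), a < m J := fun a ha => (mem_sec.1 ha).1
  have hN0 : (0 : ℝ) < num A (m J) := by exact_mod_cast h0
  have hCr : (0 : ℝ) < C := by exact_mod_cast (by omega : 0 < C)
  have main : (num A (m J) : ℝ) ^ 4 * ∑ j ∈ Finset.Icc 1 J, (m j : ℝ) / ((C : ℝ) * num A (C * m j)) ^ 2
      ≤ 486 * m J * ∑ n ∈ Finset.range (2 * m J), (rpN (sec A (m J)) n : ℝ) ^ 2 := by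
    rcases hN J with hN | hN
    · have h1 := low_ineq hm J (sec A (m J)) hS
      rw [card_sec] at h1
      refine le_trans ?_ h1
      refine mul_le_mul_of_nonneg_left (Finset.sum_le_sum fun j hj => ?_) (by positivity)
      have h2 : (dl m (sec A (m J)) j : ℝ) ≤ C * num A (C * m j) := by
        rw [dl_eq]
        exact_mod_cast hN j (Finset.mem_Icc.1 hj).2
      have h3 : (0 : ℝ) < dl m (sec A (m J)) j := by
        have : 0 < dl m (sec A (m J)) j := Finset.card_pos.2 (hne.image _)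
        exact_mod_cast this
      gcongr
    · have h1 := high_ineq hm J (sec A (m J)) hS
      rw [card_sec] at h1
      refine le_trans ?_ h1
      refine mul_le_mul_of_nonneg_left (Finset.sum_le_sum fun j hj => ?_) (by positivity)
      have h2 : (dh m (sec A (m J)) J j : ℝ) ≤ C * num A (C * m j) := by
        rw [dh_eq]
        exact_mod_cast hN j (Finset.mem_Icc.1 hj).2
      have h3 : (0 : ℝ) < dh m (sec A (m J)) J j := by
        have : 0 < dh m (sec A (m J)) J j := Finset.card_pos.2 (hne.image _)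
        exact_mod_cast this
      gcongr
  have hpull : ∑ j ∈ Finset.Icc 1 J, (m j : ℝ) / ((C : ℝ) * num A (C * m j)) ^ 2
      = ((C : ℝ) ^ 2)⁻¹ * ∑ j ∈ Finset.Icc 1 J, (m j : ℝ) / (num A (C * m j) : ℝ) ^ 2 := by
    rw [Finset.mul_sum]
    refine Finset.sum_congr rfl fun j _ => ?_
    rw [mul_pow, div_eq_mul_inv, div_eq_mul_inv, mul_inv]
    ring
  rw [hpull] at main
  have h4 := sum_sq_le A (m J) R hR
  have h5 : (num A (m J) : ℝ) ^ 2 * ((num A (m J) : ℝ) ^ 2
      * ∑ j ∈ Finset.Icc 1 J, (m j : ℝ) / (num A (C * m j) : ℝ) ^ 2)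
      ≤ (num A (m J) : ℝ) ^ 2 * (486 * C ^ 2 * m J * R) := by
    calc (num A (m J) : ℝ) ^ 2 * ((num A (m J) : ℝ) ^ 2
          * ∑ j ∈ Finset.Icc 1 J, (m j : ℝ) / (num A (C * m j) : ℝ) ^ 2)
        = (C : ℝ) ^ 2 * ((num A (m J) : ℝ) ^ 4 * (((C : ℝ) ^ 2)⁻¹
            * ∑ j ∈ Finset.Icc 1 J, (m j : ℝ) / (num A (C * m j) : ℝ) ^ 2)) := by
          field_simp
      _ ≤ (C : ℝ) ^ 2 * (486 * m J * ∑ n ∈ Finset.range (2 * m J), (rpN (sec A (m J)) n : ℝ) ^ 2) :=
          mul_le_mul_of_nonneg_left main (by positivity)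
      _ ≤ (C : ℝ) ^ 2 * (486 * m J * (R * (num A (m J) : ℝ) ^ 2)) := by gcongr
      _ = _ := by ring
  exact le_of_mul_le_mul_left h5 (by positivity)

end Pool.Agent.Helper72.NS
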