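import Mathlib

/-! Energy increments in a commutative algebra with an involution and a positive trace. -/

namespace Pool.Agent.Helper72.NS

open Finset

section Abs

variable {A : Type*} [CommRing A] [Algebra ℝ A] (σ : A →ₐ[ℝ] A) (τ : A →ₗ[ℝ] ℝ)

/-- positive trace with involution -/
structure Pos : Prop where
  inv : ∀ a, σ (σ a) = a
  tr : ∀ a, τ (σ a) = τ a
  pos : ∀ a, 0 ≤ τ (a * σ a)

/-- contractive elements -/
def Contr (v : A) : Prop := ∀ w, τ (v * σ v * (w * σ w)) ≤ τ (w * σ w)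

variable {σ τ}

lemma Pos.cs (h : Pos σ τ) (a b : A) : τ (a * σ b) ^ 2 ≤ τ (a * σ a) * τ (b * σ b) := by
  have hs : τ (b * σ a) = τ (a * σ b) := by
    have e : σ (a * σ b) = b * σ a := by rw [map_mul, h.inv, mul_comm]
    rw [← e, h.tr]
  have key : ∀ t : ℝ, 0 ≤ τ (b * σ b) * (t * t) + (2 * τ (a * σ b)) * t + τ (a * σ a) := by
    intro t
    have h1 := h.pos (a + t • b)
    have h2 : (a + t • b) * σ (a + t • b)
        = a * σ a + t • (a * σ b) + t • (b * σ a) + (t * t) • (b * σ b) := by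
      rw [map_add, map_smul]
      simp only [Algebra.smul_def, map_mul]
      ring
    rw [h2, map_add, map_add, map_add, map_smul, map_smul, map_smul, hs] at h1
    simp only [smul_eq_mul] at h1
    linarith
  have := discrim_le_zero key
  unfold discrim at this
  nlinarith [this]

lemma Pos.two (h : Pos σ τ) (a b : A) : 2 * τ (a * σ b) ≤ τ (a * σ a) + τ (b * σ b) := by
  have hs : τ (b * σ a) = τ (a * σ b) := by
    have e : σ (a * σ b) = b * σ a := by rw [map_mul, h.inv, mul_comm]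
    rw [← e, h.tr]
  have h1 := h.pos (a - b)
  have h2 : (a - b) * σ (a - b) = a * σ a - a * σ b - b * σ a + b * σ b := by
    rw [map_sub]
    ring
  rw [h2, map_add, map_sub, map_sub, hs] at h1
  linarith

/-- the basic increment -/
lemma Pos.step (h : Pos σ τ) (F V K : A) (hK : σ K = K) (hV : Contr σ τ V) :
    (τ (K ^ 2 * (F * σ F)) - τ ((V * σ V * K) ^ 2 * (F * σ F))) ^ 2
      ≤ 4 * τ (K ^ 2) * (τ (K ^ 2 * (F * σ F) ^ 2) - τ ((V * σ V * K) ^ 2 * (F * σ F) ^ 2)) ∧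
    τ ((V * σ V * K) ^ 2 * (F * σ F)) ≤ τ (K ^ 2 * (F * σ F)) := by
  set U := V * σ V with hU
  set P := F * σ F with hP
  have hσU : σ U = U := by rw [hU, map_mul, h.inv, mul_comm]
  have hσP : σ P = P := by rw [hP, map_mul, h.inv, mul_comm]
  -- monotonicity
  have hmon : τ ((U * K) ^ 2 * P) ≤ τ (K ^ 2 * P) := by
    have e1 := hV (V * K * F)
    have e2 := hV (K * F)
    have r1 : V * σ V * (V * K * F * σ (V * K * F)) = (U * K) ^ 2 * P := by
      rw [map_mul, map_mul, hK, hU, hP]; ring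
    have r2 : V * K * F * σ (V * K * F) = V * σ V * (K * F * σ (K * F)) := by
      rw [map_mul, map_mul, map_mul, hK]; ring
    have r3 : K * F * σ (K * F) = K ^ 2 * P := by
      rw [map_mul, hK, hP]; ring
    rw [r1] at e1
    rw [r2] at e1
    rw [r3] at e2 e1
    exact e1.trans e2
  refine ⟨?_, hmon⟩
  -- the energy side
  have hE : τ (((1 - U) * K * P) * σ ((1 - U) * K * P)) ≤ τ (K ^ 2 * P ^ 2) - τ ((U * K) ^ 2 * P ^ 2) := by
    have e1 := hV (V * K * P)
    have r1 : V * σ V * (V * K * P * σ (V * K * P)) = U ^ 2 * K ^ 2 * P ^ 2 := by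
      rw [map_mul, map_mul, hK, hσP, hU]; ring
    have r2 : V * K * P * σ (V * K * P) = U * K ^ 2 * P ^ 2 := by
      rw [map_mul, map_mul, hK, hσP, hU]; ring
    rw [r1, r2] at e1
    have r3 : ((1 - U) * K * P) * σ ((1 - U) * K * P)
        = K ^ 2 * P ^ 2 - (U * K) ^ 2 * P ^ 2 - (U * K ^ 2 * P ^ 2 - U ^ 2 * K ^ 2 * P ^ 2)
          - (U * K ^ 2 * P ^ 2 - U ^ 2 * K ^ 2 * P ^ 2) := by
      rw [map_mul, map_mul, map_sub, map_one, hσU, hK, hσP]; ring
    rw [r3, map_sub, map_sub, map_sub, map_sub]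
    linarith
  -- the second moment side
  have hA : τ (K ^ 2 * P) - τ ((U * K) ^ 2 * P) ≤ 2 * τ (K * σ ((1 - U) * K * P)) := by
    have e1 := h.pos ((1 - U) * K * F)
    have r1 : (1 - U) * K * F * σ ((1 - U) * K * F)
        = (K ^ 2 * P - U * K ^ 2 * P) + (K ^ 2 * P - U * K ^ 2 * P) - (K ^ 2 * P - (U * K) ^ 2 * P) := by
      rw [map_mul, map_mul, map_sub, map_one, hσU, hK, hP]; ring
    have r2 : K * σ ((1 - U) * K * P) = K ^ 2 * P - U * K ^ 2 * P := by
      rw [map_mul, map_mul, map_sub, map_one, hσU, hK, hσP]; ring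
    rw [r1, map_sub, map_add, map_sub, map_sub] at e1
    rw [r2, map_sub]
    linarith
  have hcs := h.cs K ((1 - U) * K * P)
  have r4 : K * σ K = K ^ 2 := by rw [hK]; ring
  rw [r4] at hcs
  have hK2 : 0 ≤ τ (K ^ 2) := by rw [← r4]; exact h.pos K
  have h0 : 0 ≤ τ (K ^ 2 * P) - τ ((U * K) ^ 2 * P) := by linarith
  calc (τ (K ^ 2 * P) - τ ((U * K) ^ 2 * P)) ^ 2
      ≤ (2 * τ (K * σ ((1 - U) * K * P))) ^ 2 := by gcongr
    _ = 4 * τ (K * σ ((1 - U) * K * P)) ^ 2 := by ring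
    _ ≤ 4 * (τ (K ^ 2) * τ ((1 - U) * K * P * σ ((1 - U) * K * P))) := by gcongr
    _ ≤ 4 * (τ (K ^ 2) * (τ (K ^ 2 * P ^ 2) - τ ((U * K) ^ 2 * P ^ 2))) := by gcongr
    _ = 4 * τ (K ^ 2) * (τ (K ^ 2 * P ^ 2) - τ ((U * K) ^ 2 * P ^ 2)) := by ring

end Abs

end Pool.Agent.Helper72.NS
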