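import Pool.Agent.Helper72.NS.Causal

/-! MP_12a1af_nt: the Erdos-Turan problem for nested sets. -/

namespace Pool.Agent.Helper72.NS

open Finset Filter

/-- Bases whose representations can be chosen digit by digit, and sets which are nested along a
chain of bounded ratios, have representation numbers of order `log n` infinitely often; a nested
set with few representations; arbitrary chains; finite unions; the box count inequality for every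
set. -/
theorem cand :
    ((∀ q h t : ℕ, 2 ≤ q → ∃ E : ℝ, 0 < E ∧ ∀ (A : Set ℕ) (f : ℕ → ℕ),
      (∀ n ≥ t, f n ≤ n ∧ f n ∈ A ∧ n - f n ∈ A) →
      (∀ j, ∀ n ≥ t, ∀ n' ≥ t, n % q ^ (j + h) = n' % q ^ (j + h) →
        f n % q ^ j = f n' % q ^ j) →
      ∃ᶠ n : ℕ in atTop, Real.log n / E ≤ rep A n) ∧
    (∀ (q t : ℕ) (A : Set ℕ) (f h : ℕ → ℕ), 2 ≤ q →
      (∀ n ≥ t, f n ≤ n ∧ f n ∈ A ∧ n - f n ∈ A) →
      (∀ j, ∀ n ≥ t, ∀ n' ≥ t, n % q ^ (j + h j) = n' % q ^ (j + h j) →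
        f n % q ^ j = f n' % q ^ j) →
      (¬ Summable fun j => 1 / (q : ℝ) ^ h j) → ∀ g : ℕ, ∃ n, g < rep A n)) ∧
    (∀ Q C : ℕ, 2 ≤ Q → 1 ≤ C → ∃ E : ℝ, 0 < E ∧
      ∀ (A : Set ℕ) (m : ℕ → ℕ), Chain m → (∀ j, m (j + 1) ≤ Q * m j) → Nested A m C →
        (∀ (B : ℕ) (c : ℝ), 0 < c → (∀ᶠ x : ℕ in atTop, c * √x / Real.log x ^ B ≤ num A x) →
          ∃ᶠ n : ℕ in atTop, Real.log n / (E * (B + 1)) ≤ rep A n) ∧
        (∀ g : ℕ, 1 ≤ g → (∀ n, rep A n ≤ g) → ∀ x : ℕ, 1 ≤ x →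
          (num A x : ℝ) ≤ E * g * (x : ℝ) ^ (1 / 2 - 1 / (E * g)))) ∧
    (∀ (A : Set ℕ) (m : ℕ → ℕ) (C : ℕ), 1 ≤ C →
      (∀ j, ∀ a ∈ A, ∃ b ∈ A, b < C * m j ∧ b % m j = a % m j) → Nested A m C) ∧
    (∃ (A : Set ℕ) (C : ℝ), 0 < C ∧ (∀ a ∈ A, ∀ j : ℕ, a % 4 ^ j ∈ A) ∧
      (∀ x : ℕ, 1 ≤ x → √(x : ℝ) / 2 ≤ (num A x : ℝ)) ∧
      ∀ n : ℕ, 2 ≤ n → (rep A n : ℝ) ≤ C * Real.log n ^ 2) ∧
    (∀ (A : Set ℕ) (m : ℕ → ℕ) (C : ℕ) (c : ℝ), 1 ≤ C → 0 < c → Chain m → Nested A m C →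
      (∃ᶠ J : ℕ in atTop, c * √(m J) ≤ num A (m J)) → ∀ g : ℕ, ∃ n, g < rep A n) ∧
    (∀ (k Q C : ℕ) (c : ℝ), 2 ≤ Q → 1 ≤ C → 0 < c → ∃ δ : ℝ, 0 < δ ∧
      ∀ (D : Fin k → Set ℕ) (m : Fin k → ℕ → ℕ),
        (∀ i, Chain (m i) ∧ (∀ j, m i (j + 1) ≤ Q * m i j) ∧ Nested (D i) (m i) C) →
        ∀ x : ℕ, 1 ≤ x → c * √x ≤ num (⋃ i, D i) x →
          ∃ n < 2 * C * Q * x, δ * √(Real.log x) ≤ rep (⋃ i, D i) n) ∧
    ∀ (A : Set ℕ) (m : ℕ → ℕ) (J : ℕ) (R : ℝ), Chain m → (∀ n < 2 * m J, (rep A n : ℝ) ≤ R) →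
      (num A (m J) : ℝ) ^ 2 * ∑ j ∈ Finset.Icc 1 J, (m j : ℝ) / (boxMod A m J j : ℝ) ^ 2
        ≤ 486 * R * m J ∧
      (num A (m J) : ℝ) ^ 2 * ∑ j ∈ Finset.Icc 1 J, (m j : ℝ) / (boxInt A m J j : ℝ) ^ 2
        ≤ 486 * R * m J := by
  refine ⟨⟨?_, ?_⟩, ?_, ?_, ?_, ?_, ?_, ?_⟩
  · intro q h t hq
    exact causal q h t hq
  · intro q t A f h hq hf hL hs g
    exact osgood_choice q t hq A f h hf hL hs g
  · intro Q C hQ hC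
    obtain ⟨E, hE, h⟩ := main_nested hQ hC
    refine ⟨E, hE, fun A m hm hq hN => ?_⟩
    obtain ⟨-, h2, h3⟩ := h A m hm hq hN
    exact ⟨h2, h3⟩
  · intro A m C hC h
    exact nested_low hC h
  · exact Pool.Agent.Helper41.NS.nested_sharp
  · intro A m C c hC hc hm hN h g
    exact chain_case hC hm hN c hc h g
  · intro k Q C c hQ hC hc
    exact union_case k hQ hC c hc
  · intro A m J R hm hR
    exact every_set hm A J R hR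

end Pool.Agent.Helper72.NS
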