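import Pool.Agent.Helper72.NS.Few

/-! MP_12a1af_nt: the Erdos-Turan problem and the choice of representations. -/

namespace Pool.Agent.Helper72.NS

open Finset Filter

/-- number of pairs of elements of `A` below `x` with the same label `φ` -/
noncomputable def same (A : Set ℕ) (x : ℕ) (φ : ℕ → ℕ) : ℕ :=
  {p : ℕ × ℕ | p.1 ∈ A ∧ p.2 ∈ A ∧ p.1 < x ∧ p.2 < x ∧ φ p.1 = φ p.2}.ncard

lemma same_eq (A : Set ℕ) (x : ℕ) (φ : ℕ → ℕ) : same A x φ = coll (sec A x) φ := by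
  unfold same coll
  rw [← Set.ncard_coe_finset]
  congr 1
  ext ⟨a, b⟩
  simp only [Set.mem_ofPred_eq, Finset.coe_filter, Finset.mem_product, mem_sec]
  tauto

/-- Collisions, mean squares of the number of representations and choices of
representations. -/
theorem candX :
    (∀ (A : Set ℕ) (m : ℕ → ℕ) (J : ℕ), Chain m →
      ∑ j ∈ Finset.Icc 1 J, (m j : ℝ) * (same A (m J) fun a => a % m j) ^ 2
        ≤ 486 * m J * ∑ n ∈ Finset.range (2 * m J), (rep A n : ℝ) ^ 2 ∧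
      ∑ j ∈ Finset.Icc 1 J, (m j : ℝ) * (same A (m J) fun a => a / (m J / m j)) ^ 2
        ≤ 486 * m J * ∑ n ∈ Finset.range (2 * m J), (rep A n : ℝ) ^ 2 ∧
      ∀ (D : Finset ℕ) (f : ℕ → ℕ),
        (∀ n ∈ D, n < m J ∧ f n ≤ n ∧ f n ∈ A ∧ n - f n ∈ A) → ∀ j ≤ J,
          agree D f (fun a => a % m j) ≤ (same A (m J) fun a => a % m j) ^ 2 ∧
          agree D f (fun a => a / (m J / m j)) ≤
            2 * (same A (m J) fun a => a / (m J / m j)) ^ 2) ∧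
    (∀ (A D : Set ℕ) (m : ℕ → ℕ) (f : ℕ → ℕ → ℕ), Chain m →
      (∀ j, ∀ n ∈ D, f j n ≤ n ∧ f j n ∈ A ∧ n - f j n ∈ A) →
      (∀ J, (num D (m J) : ℝ) ^ 2 * ∑ j ∈ Finset.Icc 1 J,
          (m j : ℝ) / (((fun n => (n % m j, f j n % m j)) '' D).ncard : ℝ)
        ≤ 486 * m J * ∑ n ∈ Finset.range (2 * m J), (rep A n : ℝ) ^ 2) ∧
      ∀ δ : ℝ, 0 < δ → (∃ᶠ J : ℕ in atTop, δ * m J ≤ num D (m J)) →
        (¬ Summable fun j =>
          (m j : ℝ) / (((fun n => (n % m j, f j n % m j)) '' D).ncard : ℝ)) →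
        ∀ g : ℕ, ∃ n, g < rep A n) ∧
    (∀ q h t : ℕ, 2 ≤ q → ∃ E : ℝ, 0 < E ∧ ∀ (A : Set ℕ) (f : ℕ → ℕ),
      (∀ n ≥ t, f n ≤ n ∧ f n ∈ A ∧ n - f n ∈ A) →
      (∀ j, ∀ n ≥ t, ∀ n' ≥ t, n % q ^ (j + h) = n' % q ^ (j + h) →
        f n % q ^ j = f n' % q ^ j) →
      (∀ᶠ x : ℕ in atTop, x * Real.log x / E ≤ ∑ n ∈ Finset.range x, (rep A n : ℝ) ^ 2) ∧
      ∃ᶠ n : ℕ in atTop, Real.log n / E ≤ rep A n) := by
  refine ⟨fun A m J hm => ⟨?_, ?_, fun D f hf j hj => ⟨?_, ?_⟩⟩, ?_, ?_⟩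
  · simp only [same_eq]
    refine (coll_low hm J (sec A (m J)) fun a ha => (mem_sec.1 ha).1).trans ?_
    have := sum_rep_sq A (m J)
    gcongr
  · simp only [same_eq]
    refine (coll_high hm J (sec A (m J)) fun a ha => (mem_sec.1 ha).1).trans ?_
    have := sum_rep_sq A (m J)
    gcongr
  · rw [same_eq]
    exact agree_mod _ D f (m j) fun n hn => by
      obtain ⟨a1, a2, a3, a4⟩ := hf n hn
      exact mem_sec_of a1 a2 a3 a4
  · rw [same_eq]
    have hY : 0 < m J / m j :=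
      Nat.div_pos (Nat.le_of_dvd (hm.pos _) (hm.dvd' hj)) (hm.pos _)
    exact agree_div _ D f _ hY fun n hn => by
      obtain ⟨a1, a2, a3, a4⟩ := hf n hn
      exact mem_sec_of a1 a2 a3 a4
  · intro A D m f hm hf
    exact ⟨fun J => few_square hm A D f hf J,
      fun δ hδ hD hs g => few_unbounded hm A D f δ hδ hf hD hs g⟩
  · intro q h t hq
    exact look_log q h t hq

end Pool.Agent.Helper72.NS
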