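import Pool.Agent.Helper72.NS.Sets

/-! The box count inequality for an arbitrary set. -/

namespace Pool.Agent.Helper72.NS

open Finset

variable {m : ℕ → ℕ}

/-- The box counts of every set with few representations, along every chain. -/
theorem every_set (hm : Chain m) (A : Set ℕ) (J : ℕ) (R : ℝ)
    (hR : ∀ n < 2 * m J, (rep A n : ℝ) ≤ R) :
    (num A (m J) : ℝ) ^ 2 * ∑ j ∈ Finset.Icc 1 J, (m j : ℝ) / (boxMod A m J j : ℝ) ^ 2
        ≤ 486 * R * m J ∧
      (num A (m J) : ℝ) ^ 2 * ∑ j ∈ Finset.Icc 1 J, (m j : ℝ) / (boxInt A m J j : ℝ) ^ 2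
        ≤ 486 * R * m J := by
  have hR0 : 0 ≤ R := by
    have := hR 0 (by have := hm.pos J; omega)
    have h2 : (0 : ℝ) ≤ rep A 0 := by positivity
    linarith
  rcases Nat.eq_zero_or_pos (num A (m J)) with h0 | h0
  · rw [h0]
    simp only [Nat.cast_zero, ne_eq, OfNat.ofNat_ne_zero, not_false_eq_true, zero_pow, zero_mul]
    exact ⟨by positivity, by positivity⟩
  have hS : ∀ a ∈ sec A (m J), a < m J := fun a ha => (mem_sec.1 ha).1
  have hN0 : (0 : ℝ) < num A (m J) := by exact_mod_cast h0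
  have h4 := sum_sq_le A (m J) R hR
  have key : ∀ T : ℝ, (num A (m J) : ℝ) ^ 4 * T
      ≤ 486 * m J * ∑ n ∈ Finset.range (2 * m J), (rpN (sec A (m J)) n : ℝ) ^ 2 →
      (num A (m J) : ℝ) ^ 2 * T ≤ 486 * R * m J := by
    intro T hT
    have h5 : (num A (m J) : ℝ) ^ 2 * ((num A (m J) : ℝ) ^ 2 * T)
        ≤ (num A (m J) : ℝ) ^ 2 * (486 * R * m J) := by
      calc (num A (m J) : ℝ) ^ 2 * ((num A (m J) : ℝ) ^ 2 * T)
          = (num A (m J) : ℝ) ^ 4 * T := by ring
        _ ≤ 486 * m J * ∑ n ∈ Finset.range (2 * m J), (rpN (sec A (m J)) n : ℝ) ^ 2 := hT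
        _ ≤ 486 * m J * (R * (num A (m J) : ℝ) ^ 2) := by gcongr
        _ = _ := by ring
    exact le_of_mul_le_mul_left h5 (by positivity)
  constructor
  · refine key _ ?_
    have h1 := low_ineq hm J (sec A (m J)) hS
    rw [card_sec] at h1
    simpa only [dl_eq] using h1
  · refine key _ ?_
    have h1 := high_ineq hm J (sec A (m J)) hS
    rw [card_sec] at h1
    simpa only [dh_eq] using h1

end Pool.Agent.Helper72.NS
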