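import Pool.Agent.Helper72.NS.Final
import Pool.Agent.Helper72.NS.Every

/-! Bases with a choice of the representation which is continuous in the `q`-adic sense; the
scale at which all classes have appeared. -/

namespace Pool.Agent.Helper72.NS

open Finset Filter

/-- the set of the summands of the chosen representations -/
def chosen (f : ℕ → ℕ) (n₀ : ℕ) : Set ℕ := {a | ∃ n ≥ n₀, a = f n ∨ a = n - f n}

lemma chosen_class {q n₀ j k : ℕ} (hq : 2 ≤ q) {f : ℕ → ℕ} {A : Set ℕ}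
    (hf : ∀ n ≥ n₀, f n ≤ n ∧ f n ∈ A ∧ n - f n ∈ A)
    (hL : ∀ n ≥ n₀, ∀ n' ≥ n₀, n % q ^ (j + k) = n' % q ^ (j + k) → f n % q ^ j = f n' % q ^ j)
    {a : ℕ} (ha : a ∈ chosen f n₀) :
    ∃ b ∈ chosen f n₀, b < (n₀ + 1) * q ^ (j + k) ∧ b % q ^ j = a % q ^ j := by
  obtain ⟨n, hn0, hn⟩ := ha
  have hpos : 0 < q ^ (j + k) := Nat.pow_pos (by omega)
  set n' := n₀ + (n - n₀) % q ^ (j + k) with hn'
  have h0 : n₀ ≤ n' := Nat.le_add_right _ _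
  have h1 : n' < (n₀ + 1) * q ^ (j + k) := by
    have := Nat.mod_lt (n - n₀) hpos
    have h2 : n₀ ≤ n₀ * q ^ (j + k) := Nat.le_mul_of_pos_right _ hpos
    rw [add_mul, one_mul]
    omega
  have h2 : n' % q ^ (j + k) = n % q ^ (j + k) := by
    have e : n = n₀ + (n - n₀) := by omega
    conv_rhs => rw [e]
    rw [hn', Nat.add_mod n₀ ((n - n₀) % q ^ (j + k)), Nat.mod_mod, ← Nat.add_mod]
  have h3 : f n' % q ^ j = f n % q ^ j := hL n' h0 n hn0 h2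
  have h4 : n' % q ^ j = n % q ^ j := by
    have hdvd : q ^ j ∣ q ^ (j + k) := pow_dvd_pow q (Nat.le_add_right j k)
    rw [← Nat.mod_mod_of_dvd n' hdvd, h2, Nat.mod_mod_of_dvd n hdvd]
  rcases hn with rfl | rfl
  · exact ⟨f n', ⟨n', h0, Or.inl rfl⟩, lt_of_le_of_lt (hf n' h0).1 h1, h3⟩
  · refine ⟨n' - f n', ⟨n', h0, Or.inr rfl⟩, lt_of_le_of_lt (Nat.sub_le _ _) h1, ?_⟩
    have h5 : (n' - f n') + f n' ≡ (n - f n) + f n' [MOD q ^ j] := by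
      rw [Nat.sub_add_cancel (hf n' h0).1]
      have h6 : (n - f n) + f n' ≡ (n - f n) + f n [MOD q ^ j] := Nat.ModEq.add_left _ h3
      rw [Nat.sub_add_cancel (hf n hn0).1] at h6
      exact Nat.ModEq.trans h4 h6.symm
    exact Nat.ModEq.add_right_cancel' _ h5

lemma chosen_sub {n₀ : ℕ} {f : ℕ → ℕ} {A : Set ℕ}
    (hf : ∀ n ≥ n₀, f n ≤ n ∧ f n ∈ A ∧ n - f n ∈ A) : chosen f n₀ ⊆ A := by
  rintro a ⟨n, hn, rfl | rfl⟩
  · exact (hf n hn).2.1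
  · exact (hf n hn).2.2

/-- online choice of the representation -/
theorem causal (q h n₀ : ℕ) (hq : 2 ≤ q) : ∃ E : ℝ, 0 < E ∧ ∀ (A : Set ℕ) (f : ℕ → ℕ),
    (∀ n ≥ n₀, f n ≤ n ∧ f n ∈ A ∧ n - f n ∈ A) →
    (∀ j, ∀ n ≥ n₀, ∀ n' ≥ n₀, n % q ^ (j + h) = n' % q ^ (j + h) →
      f n % q ^ j = f n' % q ^ j) →
    ∃ᶠ n : ℕ in atTop, Real.log n / E ≤ rep A n := by
  have hC : 1 ≤ (n₀ + 1) * q ^ h := Nat.mul_pos (by omega) (Nat.pow_pos (by omega))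
  obtain ⟨E, hE, hmain⟩ := main_nested (Q := q) (C := (n₀ + 1) * q ^ h) hq hC
  refine ⟨E, hE, fun A f hf hL => ?_⟩
  have hnest : Nested (chosen f n₀) (fun j => q ^ j) ((n₀ + 1) * q ^ h) := by
    refine nested_low hC fun j a ha => ?_
    obtain ⟨b, hb, hb2, hb3⟩ := chosen_class hq hf (hL j) ha
    refine ⟨b, hb, ?_, hb3⟩
    rw [mul_assoc, ← pow_add, add_comm h j]
    exact hb2
  obtain ⟨-, h2, -⟩ := hmain (chosen f n₀) (fun j => q ^ j) (chain_pow q hq) (fun j => by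
    show q ^ (j + 1) ≤ q * q ^ j
    rw [pow_succ, mul_comm]) hnest
  have hb : ∃ N : ℕ, ∀ n : ℕ, N ≤ n → ∃ a ∈ chosen f n₀, ∃ b ∈ chosen f n₀, a + b = n :=
    ⟨n₀, fun n hn => ⟨f n, ⟨n, hn, Or.inl rfl⟩, n - f n, ⟨n, hn, Or.inr rfl⟩,
      Nat.add_sub_cancel' (hf n hn).1⟩⟩
  have h3 := h2 0 (1 / 2) (by norm_num) (thick_of_basis hb)
  refine h3.mono fun n hn => ?_
  have e : E * (((0 : ℕ) : ℝ) + 1) = E := by simp
  rw [e] at hn
  exact hn.trans (by exact_mod_cast rep_mono (chosen_sub hf) n)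

/-- the scales at which all the classes have appeared -/
theorem osgood {m : ℕ → ℕ} (hm : Chain m) (A : Set ℕ) (M : ℕ → ℕ) (J : ℕ) (R : ℝ)
    (hM : ∀ j ≤ J, m j ≤ M j ∧ ∀ a ∈ A, ∃ b ∈ A, b < M j ∧ b % m j = a % m j)
    (hR : ∀ n, (rep A n : ℝ) ≤ R) :
    (num A (m J) : ℝ) ^ 2 * ∑ j ∈ Finset.Icc 1 J, (m j : ℝ) / M j ≤ 972 * R ^ 2 * m J := by
  have hR0 : 0 ≤ R := le_trans (by positivity) (hR 0)
  rcases Nat.eq_zero_or_pos (num A (m J)) with h0 | h0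
  · rw [h0]
    simp only [Nat.cast_zero, ne_eq, OfNat.ofNat_ne_zero, not_false_eq_true, zero_pow, zero_mul]
    positivity
  have h1 := (every_set hm A J R fun n _ => hR n).1
  have hN0 : (0 : ℝ) < num A (m J) := by exact_mod_cast h0
  have hne : (A ∩ Set.Iio (m J)).Nonempty := by
    unfold num at h0
    exact (Set.ncard_pos (fin_cut A _)).1 h0
  have h2 : ∑ j ∈ Finset.Icc 1 J, (m j : ℝ) / M j
      ≤ 2 * R * ∑ j ∈ Finset.Icc 1 J, (m j : ℝ) / (boxMod A m J j : ℝ) ^ 2 := by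
    rw [Finset.mul_sum]
    refine Finset.sum_le_sum fun j hj => ?_
    obtain ⟨hmM, hcl⟩ := hM j (Finset.mem_Icc.1 hj).2
    have hmj : (0 : ℝ) < m j := by exact_mod_cast hm.pos j
    have hMj : (0 : ℝ) < M j := lt_of_lt_of_le hmj (by exact_mod_cast hmM)
    have h3 : boxMod A m J j ≤ num A (M j) := by
      unfold boxMod num
      refine le_trans (Set.ncard_le_ncard (t := (fun a => a % m j) '' (A ∩ Set.Iio (M j))) ?_
        ((fin_cut A _).image _)) (Set.ncard_image_le (fin_cut A _))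
      rintro _ ⟨a, ⟨ha, _⟩, rfl⟩
      obtain ⟨b, hb, hb2, hb3⟩ := hcl a ha
      exact ⟨b, ⟨hb, hb2⟩, hb3⟩
    have h4 : (0 : ℝ) < boxMod A m J j := by
      have : 0 < boxMod A m J j := by
        unfold boxMod
        exact (Set.ncard_pos ((fin_cut A _).image _)).2 (hne.image _)
      exact_mod_cast this
    have h5 : (boxMod A m J j : ℝ) ^ 2 ≤ 2 * M j * R := by
      have h6 := num_sq_le A (M j) R fun n _ => hR n
      have h7 : (boxMod A m J j : ℝ) ≤ num A (M j) := by exact_mod_cast h3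
      calc (boxMod A m J j : ℝ) ^ 2 ≤ (num A (M j) : ℝ) ^ 2 := by gcongr
        _ ≤ _ := h6
    rw [div_le_iff₀ hMj]
    calc (m j : ℝ) = (m j : ℝ) / (boxMod A m J j : ℝ) ^ 2 * (boxMod A m J j : ℝ) ^ 2 := by
          field_simp
      _ ≤ (m j : ℝ) / (boxMod A m J j : ℝ) ^ 2 * (2 * M j * R) := by gcongr
      _ = _ := by ring
  calc (num A (m J) : ℝ) ^ 2 * ∑ j ∈ Finset.Icc 1 J, (m j : ℝ) / M j
      ≤ (num A (m J) : ℝ) ^ 2 * (2 * R * ∑ j ∈ Finset.Icc 1 J,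
          (m j : ℝ) / (boxMod A m J j : ℝ) ^ 2) := by gcongr
    _ = 2 * R * ((num A (m J) : ℝ) ^ 2 * ∑ j ∈ Finset.Icc 1 J,
          (m j : ℝ) / (boxMod A m J j : ℝ) ^ 2) := by ring
    _ ≤ 2 * R * (486 * R * m J) := by gcongr
    _ = _ := by ring

/-- a basis whose representations are chosen with a modulus of continuity -/
theorem osgood_choice (q n₀ : ℕ) (hq : 2 ≤ q) (A : Set ℕ) (f h : ℕ → ℕ)
    (hf : ∀ n ≥ n₀, f n ≤ n ∧ f n ∈ A ∧ n - f n ∈ A)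
    (hL : ∀ j, ∀ n ≥ n₀, ∀ n' ≥ n₀, n % q ^ (j + h j) = n' % q ^ (j + h j) →
      f n % q ^ j = f n' % q ^ j)
    (hsum : ¬ Summable fun j => 1 / (q : ℝ) ^ h j) (g : ℕ) : ∃ n, g < rep A n := by
  by_contra hcon
  push Not at hcon
  refine hsum ?_
  have hqr : (0 : ℝ) < q := by exact_mod_cast (by omega : 0 < q)
  set R : ℝ := (g : ℝ) with hRdef
  set A' := chosen f n₀ with hA'
  have hR' : ∀ n, (rep A' n : ℝ) ≤ R := fun n => by
    have h1 : rep A' n ≤ g := (rep_mono (chosen_sub hf) n).trans (hcon n)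
    rw [hRdef]
    exact_mod_cast h1
  have key : ∀ J : ℕ, 2 * n₀ ≤ q ^ J →
      ∑ j ∈ Finset.Icc 1 J, 1 / (q : ℝ) ^ h j ≤ 1944 * (n₀ + 1) * R ^ 2 := by
    intro J hJ
    have hM : ∀ j ≤ J, q ^ j ≤ (n₀ + 1) * q ^ (j + h j) ∧ ∀ a ∈ A', ∃ b ∈ A',
        b < (n₀ + 1) * q ^ (j + h j) ∧ b % q ^ j = a % q ^ j := by
      intro j _
      refine ⟨?_, fun a ha => chosen_class hq hf (hL j) ha⟩
      have h1 : q ^ j ≤ q ^ (j + h j) := Nat.pow_le_pow_right (by omega) (Nat.le_add_right _ _)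
      exact h1.trans (Nat.le_mul_of_pos_left _ (by omega))
    have h1 := osgood (chain_pow q hq) A' (fun j => (n₀ + 1) * q ^ (j + h j)) J R hM hR'
    have h2 : ∑ j ∈ Finset.Icc 1 J, (((q ^ j : ℕ) : ℝ)) / (((n₀ + 1) * q ^ (j + h j) : ℕ) : ℝ) =
        (n₀ + 1 : ℝ)⁻¹ * ∑ j ∈ Finset.Icc 1 J, 1 / (q : ℝ) ^ h j := by
      rw [Finset.mul_sum]
      refine Finset.sum_congr rfl fun j _ => ?_
      push_cast
      rw [pow_add]
      field_simp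
    have h3 : ((q ^ J : ℕ) : ℝ) ≤ 2 * (num A' (q ^ J) : ℝ) ^ 2 := by
      have h4 : Finset.Ico n₀ (q ^ J) ⊆ ((sec A' (q ^ J)) ×ˢ (sec A' (q ^ J))).image
          (fun p => p.1 + p.2) := by
        intro n hn
        rw [Finset.mem_Ico] at hn
        refine Finset.mem_image.2 ⟨(f n, n - f n), ?_, Nat.add_sub_cancel' (hf n hn.1).1⟩
        rw [Finset.mem_product]
        exact ⟨mem_sec.2 ⟨lt_of_le_of_lt (hf n hn.1).1 hn.2, n, hn.1, Or.inl rfl⟩,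
          mem_sec.2 ⟨lt_of_le_of_lt (Nat.sub_le _ _) hn.2, n, hn.1, Or.inr rfl⟩⟩
      have h5 := (Finset.card_le_card h4).trans Finset.card_image_le
      rw [Nat.card_Ico, Finset.card_product, card_sec] at h5
      have h6 : q ^ J ≤ 2 * (num A' (q ^ J) * num A' (q ^ J)) := by omega
      have h7 : ((q ^ J : ℕ) : ℝ) ≤ ((2 * (num A' (q ^ J) * num A' (q ^ J)) : ℕ) : ℝ) := by
        exact_mod_cast h6
      rw [sq]
      exact_mod_cast h7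
    have h4 : (0 : ℝ) < ((q ^ J : ℕ) : ℝ) := by exact_mod_cast Nat.pow_pos (by omega : 0 < q)
    have h5 : 0 ≤ ∑ j ∈ Finset.Icc 1 J, 1 / (q : ℝ) ^ h j :=
      Finset.sum_nonneg fun j _ => by positivity
    have h1' : (num A' (q ^ J) : ℝ) ^ 2 * ((n₀ + 1 : ℝ)⁻¹ *
        ∑ j ∈ Finset.Icc 1 J, 1 / (q : ℝ) ^ h j) ≤ 972 * R ^ 2 * ((q ^ J : ℕ) : ℝ) := by
      rw [← h2]
      exact h1
    have h6 : ((q ^ J : ℕ) : ℝ) * ∑ j ∈ Finset.Icc 1 J, 1 / (q : ℝ) ^ h j ≤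
        ((q ^ J : ℕ) : ℝ) * (1944 * (n₀ + 1) * R ^ 2) := by
      calc ((q ^ J : ℕ) : ℝ) * ∑ j ∈ Finset.Icc 1 J, 1 / (q : ℝ) ^ h j
          ≤ 2 * (num A' (q ^ J) : ℝ) ^ 2 * ∑ j ∈ Finset.Icc 1 J, 1 / (q : ℝ) ^ h j := by gcongr
        _ = 2 * (n₀ + 1) * ((num A' (q ^ J) : ℝ) ^ 2 * ((n₀ + 1 : ℝ)⁻¹ *
            ∑ j ∈ Finset.Icc 1 J, 1 / (q : ℝ) ^ h j)) := by field_simp
        _ ≤ 2 * (n₀ + 1) * (972 * R ^ 2 * ((q ^ J : ℕ) : ℝ)) := by gcongr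
        _ = _ := by ring
    exact le_of_mul_le_mul_left h6 h4
  have key2 : ∀ J : ℕ, ∑ j ∈ Finset.Icc 1 J, 1 / (q : ℝ) ^ h j ≤ 1944 * (n₀ + 1) * R ^ 2 := by
    intro J
    have h1 : 2 * n₀ ≤ q ^ (J + 2 * n₀) := by
      have h2 : J + 2 * n₀ < q ^ (J + 2 * n₀) := Nat.lt_pow_self (by omega)
      omega
    refine le_trans ?_ (key (J + 2 * n₀) h1)
    exact Finset.sum_le_sum_of_subset_of_nonneg
      (Finset.Icc_subset_Icc_right (Nat.le_add_right _ _)) fun j _ _ => by positivity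
  refine summable_of_sum_range_le (c := 1 / (q : ℝ) ^ h 0 + 1944 * (n₀ + 1) * R ^ 2)
    (fun j => by positivity) fun N => ?_
  rcases N with _ | N
  · rw [Finset.range_zero, Finset.sum_empty]
    positivity
  · rw [Finset.sum_range_succ']
    have h1 : ∑ k ∈ Finset.range N, 1 / (q : ℝ) ^ h (k + 1) =
        ∑ j ∈ Finset.Icc 1 N, 1 / (q : ℝ) ^ h j := by
      rw [Finset.range_eq_Ico, Finset.sum_Ico_add' (fun j => 1 / (q : ℝ) ^ h j) 0 N 1]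
      rfl
    rw [h1]
    have := key2 N
    linarith

end Pool.Agent.Helper72.NS
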