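import Pool.Agent.Helper72.NS.Chains

/-! Collisions modulo the members of a chain and the additive energy. -/

namespace Pool.Agent.Helper72.NS

open Finset
open scoped Pointwise

lemma sq_mass_le (a : ZA) (W : Finset ℤ) (hW : a.coeff.support ⊆ W) :
    mass a ^ 2 ≤ W.card * tr (a * sg a) := by
  have h1 : ∑ n ∈ W, a.coeff n = mass a := by
    rw [mass_eq]
    symm
    refine Finset.sum_subset hW fun n _ hn => ?_
    by_contra h
    exact hn (Finsupp.mem_support_iff.2 h)
  have h2 : tr (a * sg a) = ∑ n ∈ W, a.coeff n ^ 2 := by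
    rw [tr_sq]
    refine Finset.sum_subset hW fun n _ hn => ?_
    have : a.coeff n = 0 := by
      by_contra h
      exact hn (Finsupp.mem_support_iff.2 h)
    rw [this]
    ring
  have h3 := sq_sum_le_card_mul_sum_sq (s := W) (f := fun n => a.coeff n)
  rw [h1] at h3
  rw [h2]
  exact h3

/-- nonnegative coefficients -/
def NN (a : ZA) : Prop := ∀ n, 0 ≤ a.coeff n

lemma NN.mul {a b : ZA} (ha : NN a) (hb : NN b) : NN (a * b) := by
  intro n
  rw [AddMonoidAlgebra.coeff_mul, Finsupp.sum]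
  refine Finset.sum_nonneg fun i _ => ?_
  rw [Finsupp.sum]
  refine Finset.sum_nonneg fun j _ => ?_
  split_ifs
  · exact mul_nonneg (ha i) (hb j)
  · exact le_rfl

lemma NN.sg {a : ZA} (ha : NN a) : NN (sg a) := fun n => by
  rw [sg_coeff]
  exact ha _

lemma NN_single (n : ℤ) {x : ℝ} (hx : 0 ≤ x) : NN (AddMonoidAlgebra.single n x) := by
  intro k
  rw [AddMonoidAlgebra.coeff_single, Finsupp.single_apply]
  split_ifs
  · exact hx
  · exact le_rfl

lemma NN_sum {ι : Type*} (s : Finset ι) (a : ι → ZA) (ha : ∀ i ∈ s, NN (a i)) :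
    NN (∑ i ∈ s, a i) := by
  intro n
  rw [AddMonoidAlgebra.coeff_sum, Finsupp.finsetSum_apply]
  exact Finset.sum_nonneg fun i hi => ha i hi n

lemma NN_un (T : Finset ℤ) : NN (un T) := by
  unfold un
  exact NN_sum _ _ fun t _ => NN_single t (by positivity)

lemma NN_ker (P : ℕ → Finset ℤ) (k : ℕ) : NN (ker P k) := by
  unfold ker
  exact (NN_un _).mul (NN_un _).sg

/-- the second moment of a sum of nonnegative elements -/
lemma sum_tr_le {ι : Type*} (s : Finset ι) (a : ι → ZA) (ha : ∀ i ∈ s, NN (a i)) :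
    ∑ i ∈ s, tr (a i * sg (a i)) ≤ tr ((∑ i ∈ s, a i) * sg (∑ i ∈ s, a i)) := by
  rw [map_sum, Finset.sum_mul_sum, map_sum]
  refine Finset.sum_le_sum fun i hi => ?_
  rw [map_sum]
  refine Finset.single_le_sum (f := fun j => tr (a i * sg (a j))) (fun j hj => ?_) hi
  rw [tr_mul_sg]
  exact Finset.sum_nonneg fun n _ => mul_nonneg (ha i hi n) (ha j hj n)

variable {P U : ℕ → Finset ℤ} {K : ℕ}

/-- the smoothed second moment is at least the normalised number of collisions -/
lemma Tiles.am_coll (h : Tiles P U K) (S : Finset ℕ) (hS : S.Nonempty) (k : ℕ) (hk : k ≤ K)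
    (φ : ℕ → ℕ)
    (hφ : ∀ S' ⊆ S, (zs S' + (P k - P k)).card ≤ 3 * (P k).card * (S'.image φ).card) :
    (∑ r ∈ S.image φ, ((S.filter fun t => φ t = r).card : ℝ) ^ 2) ≤
      3 * (P k).card * (S.card : ℝ) ^ 2 * am P (un (zs S)) k := by
  have hc : (0 : ℝ) < S.card := by exact_mod_cast Finset.card_pos.2 hS
  have hp : (0 : ℝ) < (P k).card := by
    exact_mod_cast Finset.card_pos.2 (h.nonempty k hk)
  set part : ℕ → ZA := fun r =>
    ∑ t ∈ S.filter (fun t => φ t = r), AddMonoidAlgebra.single (t : ℤ) ((S.card : ℝ)⁻¹) with hpart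
  have hun : un (zs S) = ∑ r ∈ S.image φ, part r := by
    unfold un zs
    rw [Finset.sum_map, Finset.card_map]
    rw [hpart]
    rw [Finset.sum_fiberwise_of_maps_to (fun t ht => Finset.mem_image_of_mem φ ht)]
    rfl
  have h1 : am P (un (zs S)) k = tr ((ker P k * un (zs S)) * sg (ker P k * un (zs S))) := by
    have e : (ker P k * un (zs S)) * sg (ker P k * un (zs S)) =
        ker P k ^ 2 * (un (zs S) * sg (un (zs S))) := by
      rw [map_mul sg, sg_ker]; ring
    rw [e]
    rfl
  have hNN : ∀ r ∈ S.image φ, NN (ker P k * part r) := fun r _ =>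
    (NN_ker P k).mul (NN_sum _ _ fun t _ => NN_single _ (by positivity))
  have h2 := sum_tr_le (S.image φ) (fun r => ker P k * part r) hNN
  rw [← Finset.mul_sum, ← hun, ← h1] at h2
  have hmass : ∀ r, mass (ker P k * part r) =
      ((S.filter fun t => φ t = r).card : ℝ) * (S.card : ℝ)⁻¹ := by
    intro r
    rw [map_mul]
    have e1 : mass (ker P k) = 1 := by
      unfold ker
      rw [map_mul, mass_un (h.nonempty k hk), mass_sg_un (h.nonempty k hk), one_mul]
    rw [e1, one_mul, hpart]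
    simp only
    rw [map_sum, Finset.sum_congr rfl fun t _ => mass_single _ _, Finset.sum_const, nsmul_eq_mul]
  have hsupp : ∀ r, (ker P k * part r).coeff.support ⊆
      zs (S.filter fun t => φ t = r) + (P k - P k) := by
    intro r
    refine (supp_mul _ _).trans ?_
    rw [add_comm (zs _)]
    refine Finset.add_subset_add ?_ ?_
    · unfold ker
      rw [sub_eq_add_neg]
      refine (supp_mul _ _).trans (Finset.add_subset_add (supp_un _) ?_)
      exact (supp_sg _).trans (Finset.neg_subset_neg (supp_un _))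
    · intro n hn
      rw [Finsupp.mem_support_iff, hpart] at hn
      simp only at hn
      rw [AddMonoidAlgebra.coeff_sum, Finsupp.finsetSum_apply] at hn
      obtain ⟨t, ht, ht2⟩ := Finset.exists_ne_zero_of_sum_ne_zero hn
      rw [AddMonoidAlgebra.coeff_single, Finsupp.single_apply] at ht2
      have h3 : (t : ℤ) = n := by
        by_contra h4
        rw [if_neg h4] at ht2
        exact ht2 rfl
      exact mem_zs.2 ⟨t, ht, h3⟩
  have h3 : ∀ r ∈ S.image φ, ((S.filter fun t => φ t = r).card : ℝ) ^ 2 ≤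
      3 * (P k).card * (S.card : ℝ) ^ 2 * tr (ker P k * part r * sg (ker P k * part r)) := by
    intro r _
    have e1 := sq_mass_le _ _ (hsupp r)
    rw [hmass] at e1
    have e2 : (zs (S.filter fun t => φ t = r) + (P k - P k)).card ≤ 3 * (P k).card := by
      refine (hφ _ (Finset.filter_subset _ _)).trans ?_
      have e3 : ((S.filter fun t => φ t = r).image φ).card ≤ 1 := by
        rw [Finset.card_le_one]
        intro x hx y hy
        obtain ⟨s, hs, rfl⟩ := Finset.mem_image.1 hx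
        obtain ⟨s', hs', rfl⟩ := Finset.mem_image.1 hy
        rw [(Finset.mem_filter.1 hs).2, (Finset.mem_filter.1 hs').2]
      calc 3 * (P k).card * ((S.filter fun t => φ t = r).image φ).card
          ≤ 3 * (P k).card * 1 := Nat.mul_le_mul_left _ e3
        _ = _ := mul_one _
    have e4 : ((zs (S.filter fun t => φ t = r) + (P k - P k)).card : ℝ) ≤ 3 * (P k).card := by
      exact_mod_cast e2
    have e5 : 0 ≤ tr (ker P k * part r * sg (ker P k * part r)) := pos_ZA.pos _
    have e6 := e1.trans (mul_le_mul_of_nonneg_right e4 e5)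
    calc ((S.filter fun t => φ t = r).card : ℝ) ^ 2
        = (((S.filter fun t => φ t = r).card : ℝ) * (S.card : ℝ)⁻¹) ^ 2 * (S.card : ℝ) ^ 2 := by
          field_simp
      _ ≤ (3 * (P k).card * tr (ker P k * part r * sg (ker P k * part r))) * (S.card : ℝ) ^ 2 := by
          gcongr
      _ = _ := by ring
  calc (∑ r ∈ S.image φ, ((S.filter fun t => φ t = r).card : ℝ) ^ 2)
      ≤ ∑ r ∈ S.image φ, 3 * (P k).card * (S.card : ℝ) ^ 2 *
          tr (ker P k * part r * sg (ker P k * part r)) := Finset.sum_le_sum h3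
    _ = 3 * (P k).card * (S.card : ℝ) ^ 2 *
          ∑ r ∈ S.image φ, tr (ker P k * part r * sg (ker P k * part r)) := by
        rw [Finset.mul_sum]
    _ ≤ _ := by gcongr

/-- the energy inequality with collisions -/
theorem coll_nat (h : Tiles P U K) (S : Finset ℕ) (M : ℕ) (hM : ∀ a ∈ S, a < M)
    (hPK : (P K).card = M) (φ : ℕ → ℕ → ℕ)
    (hφ : ∀ k < K, ∀ S' ⊆ S,
      (zs S' + (P k - P k)).card ≤ 3 * (P k).card * (S'.image (φ k)).card) :
    ∑ k ∈ Finset.range K,
      (∑ r ∈ S.image (φ k), ((S.filter fun t => φ k t = r).card : ℝ) ^ 2) ^ 2 / (P k).card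
      ≤ 486 * ∑ n ∈ Finset.range (2 * M), (rpN S n : ℝ) ^ 2 := by
  rcases S.eq_empty_or_nonempty with rfl | hS
  · simp only [Finset.image_empty, Finset.sum_empty, ne_eq, OfNat.ofNat_ne_zero, not_false_eq_true,
      zero_pow, zero_div, Finset.sum_const_zero]
    positivity
  have hM0 : 0 < M := by
    obtain ⟨a, ha⟩ := hS
    have := hM a ha
    omega
  have hc : (0 : ℝ) < S.card := by exact_mod_cast Finset.card_pos.2 hS
  have hzs : (zs S).Nonempty := by
    rw [← Finset.card_pos, card_zs]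
    exact Finset.card_pos.2 hS
  have hW : zs S + zs S ⊆ (Finset.range (2 * M)).map Nat.castEmbedding := by
    intro z hz
    obtain ⟨x, hx, y, hy, rfl⟩ := Finset.mem_add.1 hz
    obtain ⟨a, ha, rfl⟩ := mem_zs.1 hx
    obtain ⟨b, hb, rfl⟩ := mem_zs.1 hy
    have h1 := hM a ha
    have h2 := hM b hb
    simp only [Finset.mem_map, Finset.mem_range]
    exact ⟨a + b, by omega, by simp⟩
  have hpK : (0 : ℝ) < (P K).card := by
    exact_mod_cast Finset.card_pos.2 (h.nonempty K le_rfl)
  have h1 := h.sum_le (un (zs S)) K le_rfl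
  have h2 := em_nonneg (P := P) (un (zs S)) K
  have h3 : ((P K).card : ℝ) * am P (un (zs S)) K ^ 2 ≤ ((P K).card : ℝ)⁻¹ := by
    have h4 := h.am_upper (zs S) K le_rfl
    have h5 := am_nonneg (P := P) (un (zs S)) K
    calc ((P K).card : ℝ) * am P (un (zs S)) K ^ 2
        ≤ (P K).card * (((P K).card : ℝ)⁻¹) ^ 2 := by gcongr
      _ = ((P K).card : ℝ)⁻¹ := by field_simp
  have h6 : ∑ k ∈ Finset.range K,
      (∑ r ∈ S.image (φ k), ((S.filter fun t => φ k t = r).card : ℝ) ^ 2) ^ 2 / (P k).card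
      ≤ ∑ i ∈ Finset.range K, 9 * (S.card : ℝ) ^ 4 * (((P i).card : ℝ) * am P (un (zs S)) i ^ 2) := by
    refine Finset.sum_le_sum fun i hi => ?_
    have hi' := Finset.mem_range.1 hi
    have e1 := h.am_coll S hS i hi'.le (φ i) (hφ i hi')
    have hp : (0 : ℝ) < (P i).card := by
      exact_mod_cast Finset.card_pos.2 (h.nonempty i hi'.le)
    rw [div_le_iff₀ hp]
    calc (∑ r ∈ S.image (φ i), ((S.filter fun t => φ i t = r).card : ℝ) ^ 2) ^ 2
        ≤ (3 * (P i).card * (S.card : ℝ) ^ 2 * am P (un (zs S)) i) ^ 2 := by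
          have h0 : 0 ≤ ∑ r ∈ S.image (φ i), ((S.filter fun t => φ i t = r).card : ℝ) ^ 2 :=
            Finset.sum_nonneg fun r _ => sq_nonneg _
          gcongr
      _ = _ := by ring
  rw [← Finset.mul_sum] at h6
  have h7 : ∑ i ∈ Finset.range K, ((P i).card : ℝ) * am P (un (zs S)) i ^ 2
      ≤ 48 * em P (un (zs S)) 0 + 3 * ((P K).card : ℝ)⁻¹ := by linarith
  rw [em_zero h (zs S) _ hW, Finset.sum_map] at h7
  simp only [Nat.castEmbedding_apply, rp_zs, card_zs, hPK] at h7
  have hcs := cs_rpN S M hM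
  have hMr : (0 : ℝ) < M := by exact_mod_cast hM0
  have h8 : (S.card : ℝ) ^ 4 * (3 * (M : ℝ)⁻¹) ≤
      6 * ∑ n ∈ Finset.range (2 * M), (rpN S n : ℝ) ^ 2 := by
    have : (S.card : ℝ) ^ 4 * (3 * (M : ℝ)⁻¹) = 3 * (S.card : ℝ) ^ 4 / M := by
      field_simp
    rw [this, div_le_iff₀ hMr]
    linarith
  have h9 : (S.card : ℝ) ^ 4 * ((∑ n ∈ Finset.range (2 * M), (rpN S n : ℝ) ^ 2) *
      ((S.card : ℝ)⁻¹) ^ 4) = ∑ n ∈ Finset.range (2 * M), (rpN S n : ℝ) ^ 2 := by
    field_simp
  have h10 : (S.card : ℝ) ^ 4 * ∑ i ∈ Finset.range K, ((P i).card : ℝ) * am P (un (zs S)) i ^ 2 ≤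
      54 * ∑ n ∈ Finset.range (2 * M), (rpN S n : ℝ) ^ 2 := by
    have := mul_le_mul_of_nonneg_left h7 (by positivity : (0 : ℝ) ≤ (S.card : ℝ) ^ 4)
    rw [mul_add] at this
    linarith
  linarith

end Pool.Agent.Helper72.NS
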