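import Pool.Agent.Helper72.NS.Coll
import Pool.Agent.Helper72.NS.Sets

/-! Collisions modulo the members of a chain: the inequality for residue classes and for
intervals. -/

namespace Pool.Agent.Helper72.NS

open Finset
open scoped Pointwise

variable {m : ℕ → ℕ}

/-- number of pairs of `S` which agree under `φ` -/
def coll (S : Finset ℕ) (φ : ℕ → ℕ) : ℕ := ((S ×ˢ S).filter fun p => φ p.1 = φ p.2).card

lemma coll_eq (S : Finset ℕ) (φ : ℕ → ℕ) :
    (coll S φ : ℝ) = ∑ r ∈ S.image φ, ((S.filter fun t => φ t = r).card : ℝ) ^ 2 := by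
  have h1 : coll S φ = ∑ r ∈ S.image φ, (S.filter fun t => φ t = r).card ^ 2 := by
    unfold coll
    rw [Finset.card_eq_sum_card_fiberwise (f := fun p : ℕ × ℕ => φ p.1) (t := S.image φ)]
    · refine Finset.sum_congr rfl fun r _ => ?_
      rw [sq, ← Finset.card_product]
      congr 1
      ext ⟨a, b⟩
      simp only [Finset.mem_filter, Finset.mem_product]
      constructor
      · rintro ⟨⟨⟨h1, h2⟩, h3⟩, h4⟩
        exact ⟨⟨h1, h4⟩, h2, h3 ▸ h4⟩
      · rintro ⟨⟨h1, h2⟩, h3, h4⟩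
        exact ⟨⟨⟨h1, h3⟩, h2.trans h4.symm⟩, h2⟩
    · rintro ⟨a, b⟩ h
      simp only [Finset.coe_filter, Finset.mem_product, Set.mem_ofPred_eq] at h
      exact Finset.mem_coe.2 (Finset.mem_image_of_mem φ h.1.1)
  rw [h1]
  push_cast
  rfl

lemma reindex' (hm : Chain m) (J : ℕ) (X : ℕ → ℝ) :
    ∑ k ∈ Finset.range J, X (J - k) / ((m J / m (J - k) : ℕ) : ℝ)
      = (m J : ℝ)⁻¹ * ∑ j ∈ Finset.Icc 1 J, (m j : ℝ) * X j := by
  rw [Finset.mul_sum]
  refine Finset.sum_bij' (fun k _ => J - k) (fun j _ => J - j) ?_ ?_ ?_ ?_ ?_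
  · intro k hk
    rw [Finset.mem_range] at hk
    rw [Finset.mem_Icc]
    omega
  · intro j hj
    rw [Finset.mem_Icc] at hj
    rw [Finset.mem_range]
    omega
  · intro k hk
    rw [Finset.mem_range] at hk
    show J - (J - k) = k
    omega
  · intro j hj
    rw [Finset.mem_Icc] at hj
    show J - (J - j) = j
    omega
  · intro k hk
    have h1 : m (J - k) ∣ m J := hm.dvd' (by omega)
    have h2 : (0 : ℝ) < m (J - k) := by exact_mod_cast hm.pos _
    have h3 : (0 : ℝ) < m J := by exact_mod_cast hm.pos _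
    rw [Nat.cast_div h1 h2.ne']
    show X (J - k) / ((m J : ℝ) / (m (J - k) : ℝ)) = (m J : ℝ)⁻¹ * ((m (J - k) : ℝ) * X (J - k))
    field_simp

/-- residue classes -/
theorem coll_low (hm : Chain m) (J : ℕ) (S : Finset ℕ) (hS : ∀ a ∈ S, a < m J) :
    ∑ j ∈ Finset.Icc 1 J, (m j : ℝ) * (coll S fun a => a % m j) ^ 2
      ≤ 486 * m J * ∑ n ∈ Finset.range (2 * m J), (rpN S n : ℝ) ^ 2 := by
  have hMr : (0 : ℝ) < m J := by exact_mod_cast hm.pos J
  have h := coll_nat (hm.tilesLow J) S (m J) hS (by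
    simp only [Nat.sub_self]
    rw [card_ap _ _ (hm.pos 0), hm.one, Nat.div_one]) (fun k a => a % m (J - k)) (by
    intro k hk S' hS'
    have := card_low S' (m (J - k)) (m J / m (J - k)) (by
      intro a ha
      rw [Nat.mul_div_cancel' (hm.dvd' (by omega))]
      exact hS a (hS' ha))
    rw [card_ap _ _ (hm.pos _)]
    exact this)
  simp only [card_ap _ _ (hm.pos _), ← coll_eq] at h
  rw [reindex' hm J (fun j => (coll S fun a => a % m j : ℝ) ^ 2)] at h
  have h2 := mul_le_mul_of_nonneg_left h hMr.le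
  calc ∑ j ∈ Finset.Icc 1 J, (m j : ℝ) * (coll S fun a => a % m j) ^ 2
      = (m J : ℝ) * ((m J : ℝ)⁻¹ * ∑ j ∈ Finset.Icc 1 J, (m j : ℝ) * (coll S fun a => a % m j) ^ 2) := by
        field_simp
    _ ≤ _ := h2
    _ = _ := by ring

/-- intervals -/
theorem coll_high (hm : Chain m) (J : ℕ) (S : Finset ℕ) (hS : ∀ a ∈ S, a < m J) :
    ∑ j ∈ Finset.Icc 1 J, (m j : ℝ) * (coll S fun a => a / (m J / m j)) ^ 2
      ≤ 486 * m J * ∑ n ∈ Finset.range (2 * m J), (rpN S n : ℝ) ^ 2 := by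
  have hMr : (0 : ℝ) < m J := by exact_mod_cast hm.pos J
  have hy : ∀ k, 0 < m J / m (J - k) := by
    intro k
    exact Nat.div_pos (Nat.le_of_dvd (hm.pos _) (hm.dvd' (by omega))) (hm.pos _)
  have h := coll_nat (hm.tilesHigh J) S (m J) hS (by
    simp only [Nat.sub_self]
    rw [card_ap _ _ one_pos, hm.one, Nat.div_one]) (fun k a => a / (m J / m (J - k))) (by
    intro k hk S' _
    have := card_high S' (m J / m (J - k)) (hy k)
    rw [card_ap _ _ one_pos]
    exact this)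
  simp only [card_ap _ _ one_pos, ← coll_eq] at h
  rw [reindex' hm J (fun j => (coll S fun a => a / (m J / m j) : ℝ) ^ 2)] at h
  have h2 := mul_le_mul_of_nonneg_left h hMr.le
  calc ∑ j ∈ Finset.Icc 1 J, (m j : ℝ) * (coll S fun a => a / (m J / m j)) ^ 2
      = (m J : ℝ) * ((m J : ℝ)⁻¹ *
          ∑ j ∈ Finset.Icc 1 J, (m j : ℝ) * (coll S fun a => a / (m J / m j)) ^ 2) := by
        field_simp
    _ ≤ _ := h2
    _ = _ := by ring

end Pool.Agent.Helper72.NS
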