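import Pool.Agent.Helper72.NS.Alg

/-! Finitely supported functions on the integers with convolution. -/

namespace Pool.Agent.Helper72.NS

open Finset

/-- finitely supported real functions on the integers, with convolution -/
abbrev ZA : Type := AddMonoidAlgebra ℝ ℤ

/-- reflection -/
noncomputable def sg : ZA →ₐ[ℝ] ZA :=
  (AddMonoidAlgebra.domCongr ℝ ℝ (AddEquiv.neg ℤ)).toAlgHom

/-- value at zero -/
noncomputable def tr : ZA →ₗ[ℝ] ℝ where
  toFun := fun a => a.coeff 0
  map_add' := by intro a b; simp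
  map_smul' := by intro r a; simp

lemma sg_coeff (a : ZA) (n : ℤ) : (sg a).coeff n = a.coeff (-n) := by
  unfold sg
  simp [AddMonoidAlgebra.coeff_domCongr]

lemma sg_single (n : ℤ) (x : ℝ) : sg (AddMonoidAlgebra.single n x) = AddMonoidAlgebra.single (-n) x :=
  AddMonoidAlgebra.domCongr_single (AddEquiv.neg ℤ) n x

lemma tr_apply (a : ZA) : tr a = a.coeff 0 := rfl

lemma tr_mul_sg (a b : ZA) : tr (a * sg b) = ∑ n ∈ a.coeff.support, a.coeff n * b.coeff n := by
  rw [tr_apply, AddMonoidAlgebra.coeff_mul]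
  rw [Finsupp.sum]
  refine Finset.sum_congr rfl fun n hn => ?_
  rw [Finsupp.sum]
  have h1 : ∀ m ∈ (sg b).coeff.support, (if n + m = 0 then a.coeff n * (sg b).coeff m else 0)
      = if m = -n then a.coeff n * b.coeff n else 0 := by
    intro m _
    by_cases h : m = -n
    · subst h
      simp [sg_coeff]
    · have : n + m ≠ 0 := fun h2 => h (by linarith)
      simp [h, this]
  rw [Finset.sum_congr rfl h1, Finset.sum_ite_eq']
  by_cases hb : -n ∈ (sg b).coeff.support
  · rw [if_pos hb]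
  · rw [if_neg hb]
    have h2 : (sg b).coeff (-n) = 0 := by
      by_contra h
      exact hb (Finsupp.mem_support_iff.2 h)
    rw [sg_coeff, neg_neg] at h2
    rw [h2, mul_zero]

lemma tr_sq (a : ZA) : tr (a * sg a) = ∑ n ∈ a.coeff.support, a.coeff n ^ 2 := by
  rw [tr_mul_sg]
  refine Finset.sum_congr rfl fun n _ => ?_
  ring

lemma pos_ZA : Pos sg tr where
  inv := by
    intro a
    ext n
    rw [sg_coeff, sg_coeff, neg_neg]
  tr := by
    intro a
    rw [tr_apply, tr_apply, sg_coeff, neg_zero]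
  pos := by
    intro a
    rw [tr_sq]
    exact Finset.sum_nonneg fun n _ => sq_nonneg _

/-- the uniform probability measure on a finite set -/
noncomputable def un (T : Finset ℤ) : ZA := ∑ t ∈ T, AddMonoidAlgebra.single t ((T.card : ℝ)⁻¹)

lemma un_eq (T : Finset ℤ) : un T = ((T.card : ℝ)⁻¹) • ∑ t ∈ T, (AddMonoidAlgebra.single t (1 : ℝ) : ZA) := by
  unfold un
  rw [Finset.smul_sum]
  refine Finset.sum_congr rfl fun t _ => ?_
  rw [AddMonoidAlgebra.smul_single, smul_eq_mul, mul_one]

lemma contr_un (T : Finset ℤ) : Contr sg tr (un T) := by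
  intro w
  rcases T.eq_empty_or_nonempty with rfl | hT
  · have : un (∅ : Finset ℤ) = 0 := by simp [un]
    rw [this]
    simp only [map_zero, mul_zero, zero_mul]
    exact pos_ZA.pos w
  have hc : (0 : ℝ) < T.card := by exact_mod_cast Finset.card_pos.2 hT
  set d : ℤ → ZA := fun t => AddMonoidAlgebra.single t (1 : ℝ) with hd
  have hdd : ∀ t, d t * sg (d t) = 1 := by
    intro t
    rw [hd]
    simp only
    rw [sg_single, AddMonoidAlgebra.single_mul_single, add_neg_cancel, one_mul]
    rfl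
  have e1 : un T * sg (un T) * (w * sg w)
      = ((T.card : ℝ)⁻¹ * (T.card : ℝ)⁻¹) • ∑ t ∈ T, ∑ s ∈ T, (d t * w) * sg (d s * w) := by
    rw [un_eq, map_smul, map_sum]
    rw [smul_mul_smul_comm, Finset.sum_mul_sum, smul_mul_assoc, Finset.sum_mul]
    congr 1
    refine Finset.sum_congr rfl fun t _ => ?_
    rw [Finset.sum_mul]
    refine Finset.sum_congr rfl fun s _ => ?_
    rw [map_mul]
    ring
  have e2 : ∀ t s, 2 * tr ((d t * w) * sg (d s * w)) ≤ tr (w * sg w) + tr (w * sg w) := by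
    intro t s
    have := pos_ZA.two (d t * w) (d s * w)
    have r : ∀ t, d t * w * sg (d t * w) = w * sg w := by
      intro t
      rw [map_mul]
      calc d t * w * (sg (d t) * sg w) = (d t * sg (d t)) * (w * sg w) := by ring
        _ = w * sg w := by rw [hdd, one_mul]
    rw [r, r] at this
    exact this
  rw [e1, map_smul, smul_eq_mul, map_sum]
  have e3 : ∑ t ∈ T, tr (∑ s ∈ T, (d t * w) * sg (d s * w)) ≤ ∑ t ∈ T, ∑ s ∈ T, tr (w * sg w) := by
    refine Finset.sum_le_sum fun t _ => ?_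
    rw [map_sum]
    refine Finset.sum_le_sum fun s _ => ?_
    have := e2 t s
    linarith
  rw [Finset.sum_const, Finset.sum_const, nsmul_eq_mul, nsmul_eq_mul] at e3
  calc (T.card : ℝ)⁻¹ * (T.card : ℝ)⁻¹ * ∑ t ∈ T, tr (∑ s ∈ T, (d t * w) * sg (d s * w))
      ≤ (T.card : ℝ)⁻¹ * (T.card : ℝ)⁻¹ * ((T.card : ℝ) * ((T.card : ℝ) * tr (w * sg w))) := by
        gcongr
    _ = tr (w * sg w) := by field_simp

lemma un_coeff (T : Finset ℤ) (n : ℤ) :
    (un T).coeff n = if n ∈ T then (T.card : ℝ)⁻¹ else 0 := by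
  unfold un
  rw [AddMonoidAlgebra.coeff_sum, Finsupp.finsetSum_apply]
  have : ∀ t ∈ T, (AddMonoidAlgebra.single t ((T.card : ℝ)⁻¹) : ZA).coeff n
      = if t = n then (T.card : ℝ)⁻¹ else 0 := by
    intro t _
    rw [AddMonoidAlgebra.coeff_single, Finsupp.single_apply]
  rw [Finset.sum_congr rfl this, Finset.sum_ite_eq']

/-- total mass -/
noncomputable def mass : ZA →ₐ[ℝ] ℝ :=
  AddMonoidAlgebra.lift ℝ ℝ ℤ (1 : Multiplicative ℤ →* ℝ)

lemma mass_single (n : ℤ) (x : ℝ) : mass (AddMonoidAlgebra.single n x) = x := by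
  unfold mass
  rw [AddMonoidAlgebra.lift_single]
  simp

lemma mass_eq (a : ZA) : mass a = ∑ n ∈ a.coeff.support, a.coeff n := by
  unfold mass
  rw [AddMonoidAlgebra.lift_apply, Finsupp.sum]
  refine Finset.sum_congr rfl fun n _ => ?_
  simp

lemma mass_un {T : Finset ℤ} (hT : T.Nonempty) : mass (un T) = 1 := by
  have hc : (0 : ℝ) < T.card := by exact_mod_cast Finset.card_pos.2 hT
  unfold un
  rw [map_sum, Finset.sum_congr rfl fun t _ => mass_single t _, Finset.sum_const, nsmul_eq_mul]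
  field_simp

lemma mass_sg_un {T : Finset ℤ} (hT : T.Nonempty) : mass (sg (un T)) = 1 := by
  have hc : (0 : ℝ) < T.card := by exact_mod_cast Finset.card_pos.2 hT
  unfold un
  rw [map_sum, map_sum]
  have : ∀ t ∈ T, mass (sg (AddMonoidAlgebra.single t ((T.card : ℝ)⁻¹))) = (T.card : ℝ)⁻¹ := by
    intro t _
    rw [sg_single, mass_single]
  rw [Finset.sum_congr rfl this, Finset.sum_const, nsmul_eq_mul]
  field_simp

lemma supp_un (T : Finset ℤ) : (un T).coeff.support ⊆ T := by
  intro n hn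
  by_contra h
  rw [Finsupp.mem_support_iff, un_coeff, if_neg h] at hn
  exact hn rfl

lemma tr_un {T : Finset ℤ} (hT : T.Nonempty) : tr (un T * sg (un T)) = (T.card : ℝ)⁻¹ := by
  have hc : (0 : ℝ) < T.card := by exact_mod_cast Finset.card_pos.2 hT
  rw [tr_sq]
  have h1 : ∑ n ∈ (un T).coeff.support, (un T).coeff n ^ 2 = ∑ n ∈ T, (un T).coeff n ^ 2 := by
    refine Finset.sum_subset (supp_un T) fun n _ hn => ?_
    have : (un T).coeff n = 0 := by
      by_contra h
      exact hn (Finsupp.mem_support_iff.2 h)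
    rw [this]
    ring
  rw [h1]
  have h2 : ∀ n ∈ T, (un T).coeff n ^ 2 = ((T.card : ℝ)⁻¹) ^ 2 := by
    intro n hn
    rw [un_coeff, if_pos hn]
  rw [Finset.sum_congr rfl h2, Finset.sum_const, nsmul_eq_mul]
  field_simp

/-- Cauchy - Schwarz: an element of mass one on a small set has a large second moment -/
lemma inv_card_le (a : ZA) (ha : mass a = 1) (W : Finset ℤ) (hW : a.coeff.support ⊆ W) :
    (W.card : ℝ)⁻¹ ≤ tr (a * sg a) := by
  have h1 : ∑ n ∈ W, a.coeff n = 1 := by
    rw [← ha, mass_eq]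
    symm
    refine Finset.sum_subset hW fun n _ hn => ?_
    by_contra h
    exact hn (Finsupp.mem_support_iff.2 h)
  have h2 : tr (a * sg a) = ∑ n ∈ W, a.coeff n ^ 2 := by
    rw [tr_sq]
    refine Finset.sum_subset hW fun n _ hn => ?_
    have : a.coeff n = 0 := by
      by_contra h
      exact hn (Finsupp.mem_support_iff.2 h)
    rw [this]
    ring
  have h3 := sq_sum_le_card_mul_sum_sq (s := W) (f := fun n => a.coeff n)
  rw [h1, one_pow] at h3
  have hWc : (0 : ℝ) < W.card := by
    rcases Nat.eq_zero_or_pos W.card with h | h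
    · rw [h] at h3
      norm_num at h3
    · exact_mod_cast h
  rw [h2]
  rw [inv_le_iff_one_le_mul₀ hWc]
  linarith

end Pool.Agent.Helper72.NS
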