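import Pool.Agent.Helper72.NS.Look

/-! Choices of representations with few pairs of residues. -/

namespace Pool.Agent.Helper72.NS

open Finset Filter

variable {m : ℕ → ℕ}

/-- Cauchy-Schwarz: few labels agree often -/
lemma pairs_lower' {α : Type*} [DecidableEq α] (D : Finset ℕ) (g : ℕ → α) :
    D.card ^ 2 ≤ (D.image g).card * ((D ×ˢ D).filter fun p => g p.1 = g p.2).card := by
  rw [pairs_eq D g (D.image g) fun n hn => Finset.mem_image_of_mem g hn]
  have h2 : D.card = ∑ c ∈ D.image g, (D.filter fun n => g n = c).card :=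
    Finset.card_eq_sum_card_image g D
  have h3 := sq_sum_le_card_mul_sum_sq (s := D.image g)
    (f := fun c => (D.filter fun n => g n = c).card)
  calc D.card ^ 2 = (∑ c ∈ D.image g, (D.filter fun n => g n = c).card) ^ 2 := by rw [← h2]
    _ ≤ _ := h3

/-- A lower bound for the number of agreements. -/
lemma agree_lower' (D : Finset ℕ) (f : ℕ → ℕ) (k p : ℕ) (hp : 0 < p)
    (hc : (D.image fun n => (n % k, f n % k)).card ≤ p) :
    (D.card : ℝ) ^ 2 / p ≤ agree D f (fun a => a % k) := by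
  have h1 := pairs_lower' D (fun n => (n % k, f n % k))
  have h0 : agree D f (fun a => a % k) =
      ((D ×ˢ D).filter fun p => (p.1 % k, f p.1 % k) = (p.2 % k, f p.2 % k)).card := by
    unfold agree
    congr 1
    ext p
    simp only [Finset.mem_filter, Prod.mk.injEq]
  rw [← h0] at h1
  have h2 : D.card ^ 2 ≤ p * agree D f (fun a => a % k) := h1.trans (Nat.mul_le_mul hc le_rfl)
  have hpr : (0 : ℝ) < p := by exact_mod_cast hp
  rw [div_le_iff₀ hpr, mul_comm]
  exact_mod_cast h2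

lemma finite_pairs (hm : Chain m) (D : Set ℕ) (f : ℕ → ℕ) (j : ℕ) :
    ((fun n => (n % m j, f n % m j)) '' D).Finite := by
  refine Set.Finite.subset (Finset.finite_toSet (Finset.range (m j) ×ˢ Finset.range (m j))) ?_
  rintro _ ⟨n, _, rfl⟩
  rw [Finset.mem_coe, Finset.mem_product, Finset.mem_range, Finset.mem_range]
  exact ⟨Nat.mod_lt _ (hm.pos j), Nat.mod_lt _ (hm.pos j)⟩

/-- Few pairs of residues: a lower bound for the mean square. -/
theorem few_square (hm : Chain m) (A D : Set ℕ) (f : ℕ → ℕ → ℕ)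
    (hf : ∀ j, ∀ n ∈ D, f j n ≤ n ∧ f j n ∈ A ∧ n - f j n ∈ A) (J : ℕ) :
    (num D (m J) : ℝ) ^ 2 * ∑ j ∈ Finset.Icc 1 J,
        (m j : ℝ) / (((fun n => (n % m j, f j n % m j)) '' D).ncard : ℝ)
      ≤ 486 * m J * ∑ n ∈ Finset.range (2 * m J), (rep A n : ℝ) ^ 2 := by
  refine le_trans ?_ (square_mod hm A J (fun _ => sec D (m J)) f fun j n hn =>
    ⟨(mem_sec.1 hn).1, hf j n (mem_sec.1 hn).2⟩)
  rw [Finset.mul_sum]
  refine Finset.sum_le_sum fun j _ => ?_
  rcases Nat.eq_zero_or_pos (((fun n => (n % m j, f j n % m j)) '' D).ncard) with h0 | h0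
  · rw [h0, Nat.cast_zero, div_zero, mul_zero]
    positivity
  have h2 := agree_lower' (sec D (m J)) (f j) (m j) _ h0 (by
    rw [← Set.ncard_coe_finset]
    refine Set.ncard_le_ncard ?_ (finite_pairs hm D (f j) j)
    intro x hx
    rw [Finset.mem_coe, Finset.mem_image] at hx
    obtain ⟨n, hn, rfl⟩ := hx
    exact ⟨n, (mem_sec.1 hn).2, rfl⟩)
  rw [card_sec] at h2
  have h3 : ∀ P : ℝ, (num D (m J) : ℝ) ^ 2 * ((m j : ℝ) / P) =
      m j * ((num D (m J) : ℝ) ^ 2 / P) := fun P => by ring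
  rw [h3]
  exact mul_le_mul_of_nonneg_left h2 (Nat.cast_nonneg _)

/-- A positive proportion of the integers and few pairs of residues: the number of
representations is not bounded. -/
theorem few_unbounded (hm : Chain m) (A D : Set ℕ) (f : ℕ → ℕ → ℕ) (δ : ℝ) (hδ : 0 < δ)
    (hf : ∀ j, ∀ n ∈ D, f j n ≤ n ∧ f j n ∈ A ∧ n - f j n ∈ A)
    (hD : ∃ᶠ J : ℕ in atTop, δ * m J ≤ num D (m J))
    (hsum : ¬ Summable fun j =>
      (m j : ℝ) / (((fun n => (n % m j, f j n % m j)) '' D).ncard : ℝ)) (g : ℕ) :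
    ∃ n, g < rep A n := by
  by_contra hcon
  push Not at hcon
  refine hsum ?_
  set p : ℕ → ℕ := fun j => ((fun n => (n % m j, f j n % m j)) '' D).ncard with hp
  have hterm : ∀ j, (0 : ℝ) ≤ (m j : ℝ) / p j := fun j => by positivity
  rw [← summable_nat_add_iff 1]
  refine summable_of_sum_range_le (c := 972 * (g : ℝ) ^ 2 / δ ^ 2) (fun j => hterm _) fun K => ?_
  rw [Filter.frequently_atTop] at hD
  obtain ⟨J, hJK, hJ⟩ := hD K
  have hmJ : (0 : ℝ) < m J := by exact_mod_cast hm.pos J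
  have h1 := few_square hm A D f hf J
  have h2 : ∑ n ∈ Finset.range (2 * m J), (rep A n : ℝ) ^ 2 ≤ 2 * m J * (g : ℝ) ^ 2 := by
    calc ∑ n ∈ Finset.range (2 * m J), (rep A n : ℝ) ^ 2
        ≤ ∑ n ∈ Finset.range (2 * m J), (g : ℝ) ^ 2 := by
          refine Finset.sum_le_sum fun n _ => ?_
          have : (rep A n : ℝ) ≤ g := by exact_mod_cast hcon n
          gcongr
      _ = _ := by
          rw [Finset.sum_const, Finset.card_range, nsmul_eq_mul]
          push_cast
          ring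
  have h3 : ∑ j ∈ Finset.range K, (m (j + 1) : ℝ) / p (j + 1) ≤
      ∑ j ∈ Finset.Icc 1 J, (m j : ℝ) / p j := by
    have h4 : ∑ j ∈ Finset.Icc 1 J, (m j : ℝ) / p j =
        ∑ j ∈ Finset.range J, (m (j + 1) : ℝ) / p (j + 1) := by
      have h5 : Finset.Icc 1 J = Finset.Ico 1 (J + 1) := by
        ext x
        rw [Finset.mem_Icc, Finset.mem_Ico]
        omega
      rw [h5, Finset.sum_Ico_eq_sum_range, Nat.add_sub_cancel]
      refine Finset.sum_congr rfl fun j _ => ?_
      rw [add_comm 1 j]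
    rw [h4]
    exact Finset.sum_le_sum_of_subset_of_nonneg (Finset.range_mono hJK)
      fun j _ _ => hterm _
  set S := ∑ j ∈ Finset.Icc 1 J, (m j : ℝ) / p j
  have hS : 0 ≤ S := Finset.sum_nonneg fun j _ => hterm j
  have h5 : (δ * m J) ^ 2 * S ≤ 972 * (m J : ℝ) ^ 2 * (g : ℝ) ^ 2 := by
    calc (δ * m J) ^ 2 * S ≤ (num D (m J) : ℝ) ^ 2 * S := by gcongr
      _ ≤ 486 * m J * ∑ n ∈ Finset.range (2 * m J), (rep A n : ℝ) ^ 2 := h1
      _ ≤ 486 * m J * (2 * m J * (g : ℝ) ^ 2) := by gcongr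
      _ = _ := by ring
  refine h3.trans ?_
  rw [le_div_iff₀ (by positivity)]
  have h6 : (m J : ℝ) ^ 2 * (S * δ ^ 2) ≤ (m J : ℝ) ^ 2 * (972 * (g : ℝ) ^ 2) := by
    calc (m J : ℝ) ^ 2 * (S * δ ^ 2) = (δ * m J) ^ 2 * S := by ring
      _ ≤ _ := h5
      _ = _ := by ring
  exact le_of_mul_le_mul_left h6 (by positivity)

end Pool.Agent.Helper72.NS
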