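import Pool.Agent.Helper72.NS.Shell
import Pool.Agent.Helper72.NS.Few

/-! Differences of elements of a set, energy, and choices of representations. -/

namespace Pool.Agent.Helper72.NS

open Finset Filter

/-- number of pairs of elements of `S` with difference `d` -/
def dif (S : Finset ℕ) (d : ℤ) : ℕ := ((S ×ˢ S).filter fun p => (p.1 : ℤ) - p.2 = d).card

/-- number of pairs of elements of `S` with difference in `G` -/
def nearN (S : Finset ℕ) (G : Finset ℤ) : ℕ :=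
  ((S ×ˢ S).filter fun p => (p.1 : ℤ) - p.2 ∈ G).card

lemma nearN_eq (S : Finset ℕ) (G : Finset ℤ) : nearN S G = ∑ d ∈ G, dif S d := by
  unfold nearN dif
  rw [Finset.card_eq_sum_card_fiberwise (f := fun p : ℕ × ℕ => (p.1 : ℤ) - p.2) (t := G)]
  · refine Finset.sum_congr rfl fun d hd => ?_
    congr 1
    ext p
    simp only [Finset.mem_filter]
    constructor
    · rintro ⟨⟨h1, -⟩, h2⟩
      exact ⟨h1, h2⟩
    · rintro ⟨h1, h2⟩
      exact ⟨⟨h1, h2 ▸ hd⟩, h2⟩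
  · intro p hp
    rw [Finset.mem_coe, Finset.mem_filter] at hp
    exact hp.2

lemma sum_sq_fib {α β : Type*} [DecidableEq α] [DecidableEq β] (P : Finset β) (g : β → α)
    (T : Finset α) :
    ∑ c ∈ T, (P.filter fun p => g p = c).card ^ 2 =
      ((P ×ˢ P).filter fun p => g p.1 = g p.2 ∧ g p.1 ∈ T).card := by
  rw [Finset.card_eq_sum_card_fiberwise (f := fun p : β × β => g p.1) (t := T)]
  · refine Finset.sum_congr rfl fun c hc => ?_
    rw [sq, ← Finset.card_product]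
    congr 1
    ext ⟨a, b⟩
    simp only [Finset.mem_filter, Finset.mem_product]
    constructor
    · rintro ⟨⟨h1, h2⟩, h3, h4⟩
      exact ⟨⟨⟨h1, h3⟩, h2.trans h4.symm, h2 ▸ hc⟩, h2⟩
    · rintro ⟨⟨⟨h1, h2⟩, h3, -⟩, h4⟩
      exact ⟨⟨h1, h4⟩, h2, h3 ▸ h4⟩
  · intro p hp
    rw [Finset.mem_coe, Finset.mem_filter] at hp
    exact hp.2.2

/-- the energy in terms of differences and of sums -/
lemma dif_energy (S : Finset ℕ) (x : ℕ) (hS : ∀ a ∈ S, a < x) (T : Finset ℤ) :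
    ∑ d ∈ T, dif S d ^ 2 ≤ ∑ n ∈ Finset.range (2 * x), rpN S n ^ 2 := by
  unfold dif rpN
  rw [sum_sq_fib (S ×ˢ S) (fun p => (p.1 : ℤ) - p.2) T,
    sum_sq_fib (S ×ˢ S) (fun p => p.1 + p.2) (Finset.range (2 * x))]
  refine Finset.card_le_card_of_injOn
    (fun q => ((q.1.1, q.2.2), (q.1.2, q.2.1))) ?_ ?_
  · rintro ⟨⟨a, c⟩, ⟨e, b⟩⟩ hq
    rw [Finset.mem_coe, Finset.mem_filter, Finset.mem_product, Finset.mem_product,
      Finset.mem_product] at hq
    obtain ⟨⟨⟨h1, h2⟩, h3, h4⟩, h5, -⟩ := hq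
    simp only at h1 h2 h3 h4 h5
    have ha := hS a h1
    have hb := hS b h4
    rw [Finset.mem_coe, Finset.mem_filter, Finset.mem_product, Finset.mem_product,
      Finset.mem_product, Finset.mem_range]
    exact ⟨⟨⟨h1, h4⟩, h2, h3⟩, by simp only; omega, by simp only; omega⟩
  · rintro ⟨⟨a, c⟩, ⟨e, b⟩⟩ _ ⟨⟨a', c'⟩, ⟨e', b'⟩⟩ _ h
    simp only [Prod.mk.injEq] at h ⊢
    tauto

/-- Decreasing sets of differences: the basic inequality for a finite set. -/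
theorem near_sum (S : Finset ℕ) (x : ℕ) (hS : ∀ a ∈ S, a < x) (G : ℕ → Finset ℤ)
    (hG : ∀ j, G (j + 1) ⊆ G j ∧ 2 * (G (j + 1)).card ≤ (G j).card) (K : ℕ) :
    ∑ j ∈ Finset.range K, (nearN S (G j) : ℝ) ^ 2 / ((G j).card : ℝ) ≤
      12 * ∑ n ∈ Finset.range (2 * x), (rpN S n : ℝ) ^ 2 := by
  have h1 := shell (fun d => (dif S d : ℝ)) G hG K
  have h2 : (∑ d ∈ G 0, (dif S d : ℝ) ^ 2) ≤
      ∑ n ∈ Finset.range (2 * x), (rpN S n : ℝ) ^ 2 := by
    exact_mod_cast dif_energy S x hS (G 0)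
  calc ∑ j ∈ Finset.range K, (nearN S (G j) : ℝ) ^ 2 / ((G j).card : ℝ)
      = ∑ j ∈ Finset.range K, (∑ d ∈ G j, (dif S d : ℝ)) ^ 2 / ((G j).card : ℝ) := by
        refine Finset.sum_congr rfl fun j _ => ?_
        rw [nearN_eq]
        push_cast
        rfl
    _ ≤ 12 * ∑ d ∈ G 0, (dif S d : ℝ) ^ 2 := h1
    _ ≤ _ := by gcongr

/-- number of pairs of elements of `A` below `x` whose difference lies in `G` -/
noncomputable def near (A : Set ℕ) (x : ℕ) (G : Finset ℤ) : ℕ :=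
  {p : ℕ × ℕ | p.1 ∈ A ∧ p.2 ∈ A ∧ p.1 < x ∧ p.2 < x ∧ (p.1 : ℤ) - p.2 ∈ G}.ncard

lemma near_eq (A : Set ℕ) (x : ℕ) (G : Finset ℤ) : near A x G = nearN (sec A x) G := by
  unfold near nearN
  rw [← Set.ncard_coe_finset]
  congr 1
  ext ⟨a, b⟩
  simp only [Set.mem_ofPred_eq, Finset.coe_filter, Finset.mem_product, mem_sec]
  tauto

/-- number of pairs `n`, `n'` of elements of `D` such that `f n - f n'` and
`(n - f n) - (n' - f n')` lie in `G` -/
def close (D : Finset ℕ) (f : ℕ → ℕ) (G : Finset ℤ) : ℕ :=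
  ((D ×ˢ D).filter fun p => (f p.1 : ℤ) - f p.2 ∈ G ∧
    ((p.1 : ℤ) - f p.1) - ((p.2 : ℤ) - f p.2) ∈ G).card

/-- Decreasing sets of differences: the basic inequality. -/
theorem near_main (A : Set ℕ) (x : ℕ) (G : ℕ → Finset ℤ)
    (hG : ∀ j, G (j + 1) ⊆ G j ∧ 2 * (G (j + 1)).card ≤ (G j).card) (K : ℕ) :
    ∑ j ∈ Finset.range K, (near A x (G j) : ℝ) ^ 2 / ((G j).card : ℝ) ≤
      12 * ∑ n ∈ Finset.range (2 * x), (rep A n : ℝ) ^ 2 := by
  simp only [near_eq]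
  refine (near_sum (sec A x) x (fun a ha => (mem_sec.1 ha).1) G hG K).trans ?_
  have := sum_rep_sq A x
  gcongr

/-- The chosen summands are close at most as often as all pairs. -/
theorem close_le (A : Set ℕ) (x : ℕ) (G : Finset ℤ) (D : Finset ℕ) (f : ℕ → ℕ)
    (hf : ∀ n ∈ D, n < x ∧ f n ≤ n ∧ f n ∈ A ∧ n - f n ∈ A) :
    close D f G ≤ near A x G ^ 2 := by
  rw [near_eq]
  unfold close nearN
  rw [sq, ← Finset.card_product]
  refine Finset.card_le_card_of_injOn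
    (fun p => ((f p.1, f p.2), (p.1 - f p.1, p.2 - f p.2))) ?_ ?_
  · rintro ⟨n, n'⟩ hp
    rw [Finset.mem_coe, Finset.mem_filter, Finset.mem_product] at hp
    obtain ⟨⟨h1, h2⟩, h3, h4⟩ := hp
    simp only at h1 h2 h3 h4
    obtain ⟨a1, a2, a3, a4⟩ := hf n h1
    obtain ⟨b1, b2, b3, b4⟩ := hf n' h2
    obtain ⟨-, a5, a6⟩ := mem_sec_of a1 a2 a3 a4
    obtain ⟨-, b5, b6⟩ := mem_sec_of b1 b2 b3 b4
    have h5 : ((n - f n : ℕ) : ℤ) - ((n' - f n' : ℕ) : ℤ) =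
        ((n : ℤ) - f n) - ((n' : ℤ) - f n') := by
      rw [Nat.cast_sub a2, Nat.cast_sub b2]
    simp only [Finset.coe_product, Set.mem_prod, Finset.mem_coe, Finset.mem_filter,
      Finset.mem_product]
    exact ⟨⟨⟨a5, b5⟩, h3⟩, ⟨a6, b6⟩, h5 ▸ h4⟩
  · rintro ⟨n, n'⟩ hp ⟨k, k'⟩ hq h
    rw [Finset.mem_coe, Finset.mem_filter, Finset.mem_product] at hp hq
    have h1 := (hf n hp.1.1).2.1
    have h2 := (hf n' hp.1.2).2.1
    have h3 := (hf k hq.1.1).2.1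
    have h4 := (hf k' hq.1.2).2.1
    simp only [Prod.mk.injEq] at h ⊢
    omega

end Pool.Agent.Helper72.NS
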