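import Pool.Agent.Helper72.NS.Union
import Pool.Agent.Helper41.NS.Auto
import Pool.Agent.Helper41.NS.Sharp

/-! The theorem on nested sets. -/

namespace Pool.Agent.Helper72.NS

open Finset Filter
open scoped Pointwise

variable {A : Set ℕ} {m : ℕ → ℕ} {C Q : ℕ}

lemma fin_cut (A : Set ℕ) (x : ℕ) : (A ∩ Set.Iio x).Finite := (Set.finite_Iio _).inter_of_right _

/-- a basis of order two is thick -/
lemma thick_of_basis {A : Set ℕ} (h : ∃ N : ℕ, ∀ n : ℕ, N ≤ n → ∃ a ∈ A, ∃ b ∈ A, a + b = n) :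
    ∀ᶠ x : ℕ in atTop, (1 / 2 : ℝ) * √x / Real.log x ^ 0 ≤ num A x := by
  obtain ⟨N, hN⟩ := h
  filter_upwards [Filter.eventually_ge_atTop (2 * N + 2)] with x hx
  have h1 : Finset.Ico N x ⊆ ((sec A x) ×ˢ (sec A x)).image (fun p => p.1 + p.2) := by
    intro n hn
    rw [Finset.mem_Ico] at hn
    obtain ⟨a, ha, b, hb, hab⟩ := hN n hn.1
    refine Finset.mem_image.2 ⟨(a, b), ?_, hab⟩
    rw [Finset.mem_product]
    exact ⟨mem_sec.2 ⟨by omega, ha⟩, mem_sec.2 ⟨by omega, hb⟩⟩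
  have h2 := (Finset.card_le_card h1).trans Finset.card_image_le
  rw [Nat.card_Ico, Finset.card_product, card_sec] at h2
  have h3 : (x : ℝ) ≤ (2 * num A x) ^ 2 := by
    have h4 : x ≤ 4 * (num A x * num A x) := by omega
    have h5 : (x : ℝ) ≤ 4 * (num A x * num A x) := by exact_mod_cast h4
    calc (x : ℝ) ≤ 4 * (num A x * num A x) := h5
      _ = _ := by ring
  have h4 : √(x : ℝ) ≤ 2 * num A x := by
    rw [Real.sqrt_le_left (by positivity)]
    exact h3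
  rw [pow_zero, div_one]
  linarith

/-- classes represented by small elements -/
theorem nested_low (hC : 1 ≤ C)
    (h : ∀ j, ∀ a ∈ A, ∃ b ∈ A, b < C * m j ∧ b % m j = a % m j) : Nested A m C := by
  intro J
  left
  intro j _
  have h1 : boxMod A m J j ≤ num A (C * m j) := by
    unfold boxMod num
    refine le_trans (Set.ncard_le_ncard (t := (fun a => a % m j) '' (A ∩ Set.Iio (C * m j))) ?_
      ((fin_cut A _).image _)) (Set.ncard_image_le (fin_cut A _))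
    rintro _ ⟨a, ⟨ha, _⟩, rfl⟩
    obtain ⟨b, hb, hb2, hb3⟩ := h j a ha
    exact ⟨b, ⟨hb, hb2⟩, hb3⟩
  exact h1.trans (Nat.le_mul_of_pos_left _ (by omega))

/-- intervals represented by small elements -/
theorem nested_high (hm : Chain m) (hC : 1 ≤ C)
    (h : ∀ J, ∀ j ≤ J, ∀ a ∈ A, a < m J → ∃ b ∈ A, b / C = a / (m J / m j)) : Nested A m C := by
  intro J
  right
  intro j hj
  have h1 : boxInt A m J j ≤ num A (C * m j) := by
    unfold boxInt num
    refine le_trans (Set.ncard_le_ncard (t := (fun b => b / C) '' (A ∩ Set.Iio (C * m j))) ?_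
      ((fin_cut A _).image _)) (Set.ncard_image_le (fin_cut A _))
    rintro _ ⟨a, ⟨ha, ha2⟩, rfl⟩
    obtain ⟨b, hb, hb2⟩ := h J j hj a ha ha2
    refine ⟨b, ⟨hb, ?_⟩, hb2⟩
    have h1 : a / (m J / m j) < m j := by
      refine Nat.div_lt_of_lt_mul ?_
      rw [Nat.div_mul_cancel (hm.dvd' hj)]
      exact ha2
    rw [← hb2, Nat.div_lt_iff_lt_mul (by omega)] at h1
    rw [Set.mem_Iio, mul_comm]
    exact h1
  exact h1.trans (Nat.le_mul_of_pos_left _ (by omega))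

/-- automatic sets are nested -/
theorem nested_auto (q : ℕ) (hq : 2 ≤ q)
    (hA : Language.IsRegular ((Nat.digits q '' A : Set (List ℕ)) : Language ℕ)) :
    ∃ C, 1 ≤ C ∧ Nested A (fun j => q ^ j) C := by
  obtain ⟨s, hs⟩ := Helper41.NS.auto_nested q hq A hA
  refine ⟨q ^ s, Nat.one_le_pow _ _ (by omega), nested_low (Nat.one_le_pow _ _ (by omega)) ?_⟩
  intro j a ha
  obtain ⟨b, hb, hb2, hb3⟩ := hs j a ha
  refine ⟨b, hb, ?_, hb3⟩
  rw [← pow_add, add_comm]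
  exact hb2

lemma chain_pow (q : ℕ) (hq : 2 ≤ q) : Chain (fun j => q ^ j) where
  one := pow_zero q
  dvd := fun j => pow_dvd_pow q (Nat.le_succ j)
  two := fun j => by
    show 2 * q ^ j ≤ q ^ (j + 1)
    rw [pow_succ, mul_comm]
    exact Nat.mul_le_mul_left _ hq

/-- one constant for all statements -/
noncomputable def ec (Q C : ℕ) : ℝ := 4 * (Q : ℝ) ^ 2 * (C : ℝ) ^ 2 * kc Q C * (1 + Real.log Q)

theorem main_nested (hQ : 2 ≤ Q) (hC : 1 ≤ C) : ∃ E : ℝ, 0 < E ∧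
    ∀ (A : Set ℕ) (m : ℕ → ℕ), Chain m → (∀ j, m (j + 1) ≤ Q * m j) → Nested A m C →
      (∀ M : ℕ → ℝ, (∀ i, 1 ≤ M i) → (∀ i, ∀ n < m (i + C + 1), (rep A n : ℝ) ≤ M i) →
        ∀ J, 1 ≤ J → 0 < num A (m J) →
          ∑ i ∈ Finset.Icc 1 J, 1 / M i
            ≤ E * (1 + Real.log (E * (M J * m J / (num A (m J) : ℝ) ^ 2)))) ∧
      (∀ (B : ℕ) (c : ℝ), 0 < c → (∀ᶠ x : ℕ in atTop, c * √x / Real.log x ^ B ≤ num A x) →
        ∃ᶠ n : ℕ in atTop, Real.log n / (E * (B + 1)) ≤ rep A n) ∧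
      (∀ g : ℕ, 1 ≤ g → (∀ n, rep A n ≤ g) → ∀ x : ℕ, 1 ≤ x →
        (num A x : ℝ) ≤ E * g * (x : ℝ) ^ (1 / 2 - 1 / (E * g))) := by
  have hQr : (2 : ℝ) ≤ Q := by exact_mod_cast hQ
  have hCr : (1 : ℝ) ≤ C := by exact_mod_cast hC
  have hlogQ : 0 < Real.log Q := Real.log_pos (by linarith)
  have hκ := kc_ge hQ hC
  have hκ0 : 0 < kc Q C := by linarith
  have hQ2 : (1 : ℝ) ≤ (Q : ℝ) ^ 2 := one_le_pow₀ (by linarith)
  have hC2 : (1 : ℝ) ≤ (C : ℝ) ^ 2 := one_le_pow₀ hCr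
  have hQC : (1 : ℝ) ≤ (Q : ℝ) ^ 2 * (C : ℝ) ^ 2 := by nlinarith
  have hE0 : 0 < ec Q C := by unfold ec; positivity
  have hE1 : kc Q C * C ^ 2 * Q ≤ ec Q C := by
    unfold ec
    have h1 : kc Q C * C ^ 2 * Q ≤ kc Q C * (C : ℝ) ^ 2 * (Q : ℝ) ^ 2 := by
      gcongr
      nlinarith
    have h2 : 0 ≤ kc Q C * (C : ℝ) ^ 2 * (Q : ℝ) ^ 2 := by positivity
    nlinarith [mul_nonneg h2 hlogQ.le]
  have hE2 : 4 * kc Q C * Real.log Q ≤ ec Q C := by
    unfold ec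
    have h2 : 0 ≤ 4 * kc Q C * Real.log Q := by positivity
    calc 4 * kc Q C * Real.log Q ≤ 4 * kc Q C * Real.log Q * ((Q : ℝ) ^ 2 * (C : ℝ) ^ 2) := by
          nlinarith
      _ ≤ 4 * kc Q C * (1 + Real.log Q) * ((Q : ℝ) ^ 2 * (C : ℝ) ^ 2) := by gcongr; linarith
      _ = _ := by ring
  have hE3 : 2 * (Q * C) ^ 2 * kc Q C ≤ ec Q C := by
    unfold ec
    have h2 : 0 ≤ (Q : ℝ) ^ 2 * (C : ℝ) ^ 2 * kc Q C := by positivity
    nlinarith [mul_nonneg h2 hlogQ.le]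
  have hE4 : kc Q C ≤ ec Q C := by
    refine le_trans ?_ hE1
    nlinarith [mul_le_mul hC2 (by linarith : (1 : ℝ) ≤ Q) (by norm_num) (by positivity)]
  refine ⟨ec Q C, hE0, ?_⟩
  intro A m hm hq hN
  refine ⟨?_, ?_, ?_⟩
  · intro M hM1 hM J hJ hpos
    have h1 := tradeoff hQ hC hm hq hN M hM1 hM J hJ hpos
    refine h1.trans ?_
    have h0 : 0 ≤ ∑ i ∈ Finset.Icc 1 J, 1 / M i :=
      Finset.sum_nonneg fun i _ => by have := hM1 i; positivity
    have h2 : 0 ≤ 1 + Real.log (kc Q C * C ^ 2 * Q * (M J * m J / (num A (m J) : ℝ) ^ 2)) := by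
      have h3 := h0.trans h1
      exact nonneg_of_mul_nonneg_right h3 hκ0
    have hX : 0 < M J * m J / (num A (m J) : ℝ) ^ 2 := by
      have hNJ : (0 : ℝ) < num A (m J) := by exact_mod_cast hpos
      have hmJ : (0 : ℝ) < m J := by exact_mod_cast hm.pos J
      have hMJ : 0 < M J := by linarith [hM1 J]
      positivity
    have h4 : Real.log (kc Q C * C ^ 2 * Q * (M J * m J / (num A (m J) : ℝ) ^ 2))
        ≤ Real.log (ec Q C * (M J * m J / (num A (m J) : ℝ) ^ 2)) := by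
      refine Real.log_le_log (by positivity) ?_
      gcongr
    calc kc Q C * (1 + Real.log (kc Q C * C ^ 2 * Q * (M J * m J / (num A (m J) : ℝ) ^ 2)))
        ≤ ec Q C * (1 + Real.log (kc Q C * C ^ 2 * Q * (M J * m J / (num A (m J) : ℝ) ^ 2))) := by
          gcongr
      _ ≤ _ := by gcongr
  · intro B c hc hA
    have h1 := limsup_case hQ hC B hm hq hN c hc hA
    refine (h1.and_eventually (Filter.eventually_ge_atTop 1)).mono ?_
    rintro n ⟨h2, h3⟩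
    refine le_trans ?_ h2
    have h4 : 0 ≤ Real.log n := Real.log_nonneg (by exact_mod_cast h3)
    rw [div_eq_mul_inv, mul_comm]
    refine mul_le_mul_of_nonneg_right ?_ h4
    unfold dconst
    refine inv_anti₀ (by positivity) ?_
    calc 2 * (kc Q C * (2 * B + 2)) * Real.log Q = (4 * kc Q C * Real.log Q) * (B + 1) := by ring
      _ ≤ _ := by gcongr
  · intro g hg1 hg x hx
    have hgr : (1 : ℝ) ≤ g := by exact_mod_cast hg1
    have hxr : (1 : ℝ) ≤ x := by exact_mod_cast hx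
    have h1 := bounded_case hQ hC hm hq hN g hg1 hg x hx
    have h2 : 2 * ((Q : ℝ) * C) ^ 2 * (kc Q C * g) ≤ (ec Q C * g) ^ 2 := by
      have h3 : 2 * ((Q : ℝ) * C) ^ 2 * (kc Q C * g) ≤ ec Q C * g := by
        calc 2 * ((Q : ℝ) * C) ^ 2 * (kc Q C * g) = (2 * (Q * C) ^ 2 * kc Q C) * g := by ring
          _ ≤ _ := by gcongr
      have h4 : 1 ≤ ec Q C * g := by nlinarith
      nlinarith
    have h3 : (x : ℝ) ^ (1 - (2 * (kc Q C * g) * Real.log Q)⁻¹)
        ≤ ((x : ℝ) ^ (1 / 2 - 1 / (ec Q C * g))) ^ 2 := by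
      rw [← Real.rpow_natCast, ← Real.rpow_mul (by linarith)]
      refine Real.rpow_le_rpow_of_exponent_le hxr ?_
      have h5 : 2 / (ec Q C * g) ≤ (2 * (kc Q C * g) * Real.log Q)⁻¹ := by
        rw [← one_div, div_le_div_iff₀ (by positivity) (by positivity)]
        nlinarith
      push_cast
      have h6 : (1 / 2 - 1 / (ec Q C * g)) * 2 = 1 - 2 / (ec Q C * g) := by ring
      rw [h6]
      linarith
    have h4 : (num A x : ℝ) ^ 2 ≤ (ec Q C * g * (x : ℝ) ^ (1 / 2 - 1 / (ec Q C * g))) ^ 2 := by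
      calc (num A x : ℝ) ^ 2 ≤ _ := h1
        _ ≤ (ec Q C * g) ^ 2 * ((x : ℝ) ^ (1 / 2 - 1 / (ec Q C * g))) ^ 2 := by gcongr
        _ = _ := (mul_pow (ec Q C * g) _ 2).symm
    exact le_of_sq_le_sq h4 (by positivity)

end Pool.Agent.Helper72.NS
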