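import Pool.Agent.Helper72.NS.Sets

/-! Growth of the profile of a nested set. -/

namespace Pool.Agent.Helper72.NS

open Finset

variable {A : Set ℕ} {m : ℕ → ℕ} {C Q : ℕ}

lemma exists_lt_m (hm : Chain m) (a : ℕ) : ∃ J, ∀ i, J ≤ i → a < m i := by
  have h : ∀ j, j < m j := by
    intro j
    induction j with
    | zero => exact hm.pos 0
    | succ j ih => have := hm.two j; omega
  exact ⟨a, fun i hi => lt_of_le_of_lt hi (h i)⟩

lemma num_pos_of (hm : Chain m) (hN : Nested A m C) (hA : A.Nonempty) (j : ℕ) :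
    0 < num A (C * m j) := by
  obtain ⟨a, ha⟩ := hA
  obtain ⟨J, hJ⟩ := exists_lt_m hm a
  have hmem : a ∈ A ∩ Set.Iio (m (max J j)) := ⟨ha, hJ _ (le_max_left _ _)⟩
  have hfin : (A ∩ Set.Iio (m (max J j))).Finite := (Set.finite_Iio _).inter_of_right _
  rcases hN (max J j) with h | h
  · have h1 := h j (le_max_right _ _)
    have h2 : 0 < boxMod A m (max J j) j := by
      unfold boxMod
      rw [Set.ncard_pos (hfin.image _)]
      exact ⟨_, Set.mem_image_of_mem _ hmem⟩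
    by_contra h3
    have h4 : num A (C * m j) = 0 := by omega
    rw [h4, mul_zero] at h1
    omega
  · have h1 := h j (le_max_right _ _)
    have h2 : 0 < boxInt A m (max J j) j := by
      unfold boxInt
      rw [Set.ncard_pos (hfin.image _)]
      exact ⟨_, Set.mem_image_of_mem _ hmem⟩
    by_contra h3
    have h4 : num A (C * m j) = 0 := by omega
    rw [h4, mul_zero] at h1
    omega

/-- the constant -/
noncomputable def kc (Q C : ℕ) : ℝ := 486 * (C : ℝ) ^ 2 * (Q : ℝ) ^ C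

lemma kc_ge (hQ : 2 ≤ Q) (hC : 1 ≤ C) : 486 ≤ kc Q C := by
  have hQr : (2 : ℝ) ≤ Q := by exact_mod_cast hQ
  have hCr : (1 : ℝ) ≤ C := by exact_mod_cast hC
  have h1 : (1 : ℝ) ≤ (Q : ℝ) ^ C := one_le_pow₀ (by linarith)
  have h2 : (1 : ℝ) ≤ (C : ℝ) ^ 2 := one_le_pow₀ hCr
  unfold kc
  nlinarith [mul_le_mul h2 h1 (by norm_num) (by linarith)]

/-- the profile sums -/
noncomputable def ps (A : Set ℕ) (m : ℕ → ℕ) (C i : ℕ) : ℝ :=
  ∑ j ∈ Finset.Icc 1 i, (m j : ℝ) / (num A (C * m j) : ℝ) ^ 2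

/-- the profile -/
noncomputable def pv (A : Set ℕ) (m : ℕ → ℕ) (C i : ℕ) : ℝ :=
  (m i : ℝ) / (num A (C * m i) : ℝ) ^ 2

lemma ps_succ (i : ℕ) : ps A m C (i + 1) = ps A m C i + pv A m C (i + 1) := by
  unfold ps pv
  rw [Finset.sum_Icc_succ_top (by omega)]

lemma pv_nonneg (i : ℕ) : 0 ≤ pv A m C i := by unfold pv; positivity

lemma ps_nonneg (i : ℕ) : 0 ≤ ps A m C i := by
  unfold ps
  exact Finset.sum_nonneg fun j _ => div_nonneg (Nat.cast_nonneg _) (sq_nonneg _)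

lemma ps_mono {i j : ℕ} (h : i ≤ j) : ps A m C i ≤ ps A m C j := by
  induction h with
  | refl => exact le_rfl
  | @step k _ ih =>
    have h1 := ps_succ (A := A) (m := m) (C := C) k
    have h2 := pv_nonneg (A := A) (m := m) (C := C) (k + 1)
    show ps A m C i ≤ ps A m C (k + 1)
    linarith

lemma pow_le_m (hm : Chain m) (i s : ℕ) : 2 ^ s * m i ≤ m (i + s) := by
  induction s with
  | zero => simp
  | succ s ih =>
    have := hm.two (i + s)
    calc 2 ^ (s + 1) * m i = 2 * (2 ^ s * m i) := by ring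
      _ ≤ 2 * m (i + s) := by omega
      _ ≤ m (i + (s + 1)) := this

lemma m_le_pow (hq : ∀ j, m (j + 1) ≤ Q * m j) (i s : ℕ) : m (i + s) ≤ Q ^ s * m i := by
  induction s with
  | zero => simp
  | succ s ih =>
    calc m (i + (s + 1)) ≤ Q * m (i + s) := hq (i + s)
      _ ≤ Q * (Q ^ s * m i) := Nat.mul_le_mul_left _ ih
      _ = Q ^ (s + 1) * m i := by ring

theorem ps_le (hm : Chain m) (hC : 1 ≤ C) (hq : ∀ j, m (j + 1) ≤ Q * m j) (hN : Nested A m C)
    (hA : A.Nonempty) (i : ℕ) (R : ℝ) (hR : ∀ n < 2 * m (i + C), (rep A n : ℝ) ≤ R) :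
    ps A m C i ≤ kc Q C * R * pv A m C i := by
  have h1 := profile hm hC hN (i + C) R hR
  have hR0 : 0 ≤ R := by
    have := hR 0 (by have := hm.pos (i + C); omega)
    have h2 : (0 : ℝ) ≤ rep A 0 := by positivity
    linarith
  have hc : (0 : ℝ) < num A (C * m i) := by exact_mod_cast num_pos_of hm hN hA i
  have h2 : C * m i ≤ m (i + C) := by
    refine le_trans (Nat.mul_le_mul_right _ ?_) (pow_le_m hm i C)
    exact (Nat.lt_two_pow_self).le
  have h3 : (num A (C * m i) : ℝ) ≤ num A (m (i + C)) := by exact_mod_cast num_mono h2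
  have h4 : (m (i + C) : ℝ) ≤ (Q : ℝ) ^ C * m i := by
    have h := m_le_pow hq i C
    calc (m (i + C) : ℝ) ≤ ((Q ^ C * m i : ℕ) : ℝ) := Nat.cast_le.2 h
      _ = (Q : ℝ) ^ C * m i := by rw [Nat.cast_mul, Nat.cast_pow]
  have h5 : ps A m C i ≤ ps A m C (i + C) := ps_mono (by omega)
  have h0 : 0 ≤ ps A m C i := ps_nonneg i
  have h6 : (num A (C * m i) : ℝ) ^ 2 * ps A m C i ≤ 486 * C ^ 2 * ((Q : ℝ) ^ C * m i) * R := by
    have h7 : (num A (C * m i) : ℝ) ^ 2 ≤ (num A (m (i + C)) : ℝ) ^ 2 :=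
      pow_le_pow_left₀ hc.le h3 2
    have h8 : (num A (C * m i) : ℝ) ^ 2 * ps A m C i
        ≤ (num A (m (i + C)) : ℝ) ^ 2 * ps A m C (i + C) :=
      mul_le_mul h7 h5 h0 (by positivity)
    have h9 : 486 * (C : ℝ) ^ 2 * (m (i + C) : ℝ) * R ≤ 486 * (C : ℝ) ^ 2 * ((Q : ℝ) ^ C * m i) * R :=
      mul_le_mul_of_nonneg_right (mul_le_mul_of_nonneg_left h4 (by positivity)) hR0
    exact (h8.trans h1).trans h9
  unfold pv kc
  rw [mul_div_assoc', le_div_iff₀ (by positivity)]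
  linarith

/-- logarithmic growth of the modulus -/
lemma log_m_le (hm : Chain m) (hq : ∀ j, m (j + 1) ≤ Q * m j) (i : ℕ) :
    Real.log (m i) ≤ i * Real.log Q := by
  have h1 := m_le_pow hq 0 i
  rw [hm.one, mul_one, zero_add] at h1
  have h2 : (m i : ℝ) ≤ (Q : ℝ) ^ i := by exact_mod_cast h1
  have h3 : (0 : ℝ) < m i := by exact_mod_cast hm.pos i
  calc Real.log (m i) ≤ Real.log ((Q : ℝ) ^ i) := Real.log_le_log h3 h2
    _ = i * Real.log Q := by rw [Real.log_pow]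

/-- r_A bounded by g -/
theorem bounded_case (hQ : 2 ≤ Q) (hC : 1 ≤ C) (hm : Chain m) (hq : ∀ j, m (j + 1) ≤ Q * m j)
    (hN : Nested A m C) (g : ℕ) (hg1 : 1 ≤ g) (hg : ∀ n, rep A n ≤ g) (x : ℕ) (hx : 1 ≤ x) :
    (num A x : ℝ) ^ 2 ≤ 2 * (Q * C) ^ 2 * (kc Q C * g)
      * (x : ℝ) ^ (1 - (2 * (kc Q C * g) * Real.log Q)⁻¹) := by
  have hQr : (2 : ℝ) ≤ Q := by exact_mod_cast hQ
  have hCr : (1 : ℝ) ≤ C := by exact_mod_cast hC
  have hgr : (1 : ℝ) ≤ g := by exact_mod_cast hg1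
  have hxr : (1 : ℝ) ≤ x := by exact_mod_cast hx
  rcases A.eq_empty_or_nonempty with hA | hA
  · have : num A x = 0 := by rw [hA]; unfold num; simp
    rw [this]
    simp only [Nat.cast_zero, ne_eq, OfNat.ofNat_ne_zero, not_false_eq_true, zero_pow]
    have := kc_ge hQ hC
    positivity
  set κ : ℝ := kc Q C * g with hκ
  have hκ1 : (1 : ℝ) < κ := by
    have := kc_ge hQ hC
    rw [hκ]
    nlinarith
  have hκ0 : 0 < κ := by linarith
  have step : ∀ i, ps A m C i ≤ κ * pv A m C i := by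
    intro i
    exact ps_le hm hC hq hN hA i g (fun n _ => by exact_mod_cast hg n)
  have grow : ∀ i, ps A m C i * (1 + 1 / κ) ≤ ps A m C (i + 1) := by
    intro i
    have h1 := step (i + 1)
    have h2 := ps_succ (A := A) (m := m) (C := C) i
    have h3 : ps A m C (i + 1) ≤ κ * (ps A m C (i + 1) - ps A m C i) := by
      rw [h2] at h1 ⊢
      linarith
    have h4 : 0 ≤ ps A m C i := ps_nonneg i
    have h5 : ps A m C i ≤ ps A m C (i + 1) := ps_mono (by omega)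
    have h6 : κ * ps A m C i + ps A m C (i + 1) ≤ κ * ps A m C (i + 1) := by linarith
    have h7 : ps A m C i * (1 + 1 / κ) = (κ * ps A m C i + ps A m C i) / κ := by field_simp
    rw [h7, div_le_iff₀ hκ0]
    linarith
  have m1 : (m 1 : ℝ) ≤ Q := by
    have := hq 0
    rw [hm.one, mul_one, zero_add] at this
    exact_mod_cast this
  have m1pos : (0 : ℝ) < m 1 := by exact_mod_cast hm.pos 1
  have base : 1 / ((C : ℝ) ^ 2 * Q) ≤ ps A m C 1 := by
    unfold ps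
    rw [Finset.Icc_self, Finset.sum_singleton]
    have h1 : (num A (C * m 1) : ℝ) ≤ C * m 1 := by exact_mod_cast num_le A (C * m 1)
    have h2 : (0 : ℝ) < num A (C * m 1) := by exact_mod_cast num_pos_of hm hN hA 1
    calc 1 / ((C : ℝ) ^ 2 * Q) ≤ 1 / ((C : ℝ) ^ 2 * m 1) := by gcongr
      _ = (m 1 : ℝ) / (C * m 1) ^ 2 := by field_simp
      _ ≤ _ := by gcongr
  have lower : ∀ i, (1 + 1 / κ) ^ i * (1 / ((C : ℝ) ^ 2 * Q)) ≤ ps A m C (i + 1) := by
    intro i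
    induction i with
    | zero => simpa using base
    | succ i ih =>
      calc (1 + 1 / κ) ^ (i + 1) * (1 / ((C : ℝ) ^ 2 * Q))
          = ((1 + 1 / κ) ^ i * (1 / ((C : ℝ) ^ 2 * Q))) * (1 + 1 / κ) := by ring
        _ ≤ ps A m C (i + 1) * (1 + 1 / κ) := by gcongr
        _ ≤ _ := grow (i + 1)
  -- the right modulus
  obtain ⟨i, hi1, hi2⟩ : ∃ i, m i ≤ x ∧ x < m (i + 1) := by
    obtain ⟨J, hJ⟩ := exists_lt_m hm x
    have hex : ∃ j, x < m j := ⟨J, hJ J le_rfl⟩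
    classical
    have h1 := Nat.find_spec hex
    have h2 : Nat.find hex ≠ 0 := by
      intro h
      rw [h, hm.one] at h1
      omega
    obtain ⟨i, hi⟩ := Nat.exists_eq_succ_of_ne_zero h2
    refine ⟨i, ?_, ?_⟩
    · have := Nat.find_min hex (m := i) (by omega)
      omega
    · have h3 : i + 1 = Nat.find hex := by omega
      rw [h3]; exact h1
  have hmi : (m (i + 1) : ℝ) ≤ Q * x := by
    have h1 := hq i
    have h2 : m (i + 1) ≤ Q * x := h1.trans (Nat.mul_le_mul_left _ hi1)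
    exact_mod_cast h2
  have hc : (0 : ℝ) < num A (C * m (i + 1)) := by exact_mod_cast num_pos_of hm hN hA (i + 1)
  have e1 : (num A (C * m (i + 1)) : ℝ) ^ 2 * ps A m C (i + 1) ≤ κ * m (i + 1) := by
    have h1 := step (i + 1)
    unfold pv at h1
    rw [mul_div_assoc', le_div_iff₀ (by positivity)] at h1
    linarith
  have e2 : (num A x : ℝ) ≤ num A (C * m (i + 1)) := by
    have : x ≤ C * m (i + 1) := by nlinarith
    exact_mod_cast num_mono this
  have e3 : (num A x : ℝ) ^ 2 * ((1 + 1 / κ) ^ i * (1 / ((C : ℝ) ^ 2 * Q))) ≤ κ * (Q * x) := by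
    calc (num A x : ℝ) ^ 2 * ((1 + 1 / κ) ^ i * (1 / ((C : ℝ) ^ 2 * Q)))
        ≤ (num A (C * m (i + 1)) : ℝ) ^ 2 * ps A m C (i + 1) := by
          gcongr
          exact lower i
      _ ≤ κ * m (i + 1) := e1
      _ ≤ _ := by gcongr
  -- the power of x
  have hlogQ : 0 < Real.log Q := Real.log_pos (by linarith)
  have hx0 : (0 : ℝ) < x := by linarith
  have hlog : Real.log x ≤ (i + 1 : ℕ) * Real.log Q := by
    have h1 := log_m_le hm hq (i + 1)
    have h2 : (x : ℝ) ≤ m (i + 1) := by exact_mod_cast hi2.le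
    exact (Real.log_le_log hx0 h2).trans h1
  have hρ : 1 / (2 * κ) ≤ Real.log (1 + 1 / κ) := by
    have h1 : (0 : ℝ) < 1 / κ := by positivity
    have h2 : 1 / κ ≤ 1 := by
      rw [div_le_one hκ0]; exact hκ1.le
    have h3 := Real.one_sub_inv_le_log_of_pos (x := 1 + 1 / κ) (by positivity)
    refine le_trans ?_ h3
    have h4 : 1 - (1 + 1 / κ)⁻¹ = 1 / (κ + 1) := by field_simp; ring
    rw [h4]
    refine one_div_le_one_div_of_le (by positivity) ?_
    linarith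
  have e4 : (x : ℝ) ^ ((2 * κ * Real.log Q)⁻¹) ≤ 2 * (1 + 1 / κ) ^ i := by
    have h1 : (x : ℝ) ^ ((2 * κ * Real.log Q)⁻¹) = Real.exp (Real.log x * (2 * κ * Real.log Q)⁻¹) :=
      Real.rpow_def_of_pos hx0 _
    have h2 : Real.log x * (2 * κ * Real.log Q)⁻¹ ≤ (i + 1 : ℕ) * Real.log (1 + 1 / κ) := by
      calc Real.log x * (2 * κ * Real.log Q)⁻¹
          ≤ ((i + 1 : ℕ) * Real.log Q) * (2 * κ * Real.log Q)⁻¹ := by gcongr
        _ = (i + 1 : ℕ) * (1 / (2 * κ)) := by field_simp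
        _ ≤ _ := by gcongr
    have h3 : Real.exp ((i + 1 : ℕ) * Real.log (1 + 1 / κ)) = (1 + 1 / κ) ^ (i + 1) := by
      rw [Real.exp_nat_mul, Real.exp_log (by positivity)]
    rw [h1]
    calc Real.exp (Real.log x * (2 * κ * Real.log Q)⁻¹)
        ≤ Real.exp ((i + 1 : ℕ) * Real.log (1 + 1 / κ)) := Real.exp_le_exp.2 h2
      _ = (1 + 1 / κ) ^ (i + 1) := h3
      _ = (1 + 1 / κ) * (1 + 1 / κ) ^ i := by ring
      _ ≤ 2 * (1 + 1 / κ) ^ i := by
          gcongr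
          have h2 : 1 / κ ≤ 1 := by
            rw [div_le_one hκ0]; exact hκ1.le
          linarith
  have e5 : (x : ℝ) ^ (1 - (2 * κ * Real.log Q)⁻¹) = x / (x : ℝ) ^ ((2 * κ * Real.log Q)⁻¹) := by
    rw [Real.rpow_sub hx0, Real.rpow_one]
  rw [e5]
  have hxp : 0 < (x : ℝ) ^ ((2 * κ * Real.log Q)⁻¹) := Real.rpow_pos_of_pos hx0 _
  rw [mul_div_assoc', le_div_iff₀ hxp]
  calc (num A x : ℝ) ^ 2 * (x : ℝ) ^ ((2 * κ * Real.log Q)⁻¹)
      ≤ (num A x : ℝ) ^ 2 * (2 * (1 + 1 / κ) ^ i) := by gcongr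
    _ = 2 * ((C : ℝ) ^ 2 * Q) * ((num A x : ℝ) ^ 2 * ((1 + 1 / κ) ^ i * (1 / ((C : ℝ) ^ 2 * Q)))) := by
        field_simp
    _ ≤ 2 * ((C : ℝ) ^ 2 * Q) * (κ * (Q * x)) := by gcongr
    _ = 2 * (Q * C) ^ 2 * κ * x := by ring

end Pool.Agent.Helper72.NS
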