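import Pool.Agent.Helper72.NS.Grow

/-! Nested sets with a loss of a power of the logarithm have `r_A(n) ≥ δ log n` infinitely often. -/

namespace Pool.Agent.Helper72.NS

open Finset Filter

variable {A : Set ℕ} {m : ℕ → ℕ} {C Q : ℕ}

/-- a power law is forced by a logarithmic bound -/
lemma power_growth (S : ℕ → ℝ) (p i0 : ℕ) (hp : 1 ≤ p) (hi0 : p < i0) (hS : ∀ i, 0 ≤ S i)
    (h : ∀ i, i0 ≤ i → (p : ℝ) * S (i + 1) ≤ (i + 1) * (S (i + 1) - S i)) :
    ∀ i, i0 ≤ i → S i0 / (i0 : ℝ) ^ p * (i : ℝ) ^ p ≤ S i := by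
  intro i hi
  induction hi with
  | refl =>
    have h1 : (0 : ℝ) < (i0 : ℝ) ^ p := by
      have : (0 : ℝ) < i0 := by exact_mod_cast (by omega : 0 < i0)
      positivity
    rw [div_mul_cancel₀ _ h1.ne']
  | @step k hk ih =>
    have hk' : i0 ≤ k := hk
    have h1 := h k hk'
    have hk0 : (0 : ℝ) < k := by exact_mod_cast (by omega : 0 < k)
    have hpk : (p : ℝ) < k := by exact_mod_cast (by omega : p < k)
    -- (k + 1) S k ≤ (k + 1 - p) S (k+1)
    have h2 : ((k : ℝ) + 1) * S k ≤ (k + 1 - p) * S (k + 1) := by linarith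
    have h3 : 1 + (p : ℝ) * (-(1 / (k + 1))) ≤ (1 + -(1 / ((k : ℝ) + 1))) ^ p := by
      refine one_add_mul_le_pow ?_ p
      have : 1 / ((k : ℝ) + 1) ≤ 1 := by
        rw [div_le_one (by positivity)]; linarith
      linarith
    have h4 : (1 + -(1 / ((k : ℝ) + 1))) = k / (k + 1) := by field_simp; ring
    have h5 : 1 + (p : ℝ) * (-(1 / (k + 1))) = (k + 1 - p) / (k + 1) := by field_simp; ring
    rw [h4, h5, div_pow] at h3
    have h6 : (k + 1 - p : ℝ) * ((k : ℝ) + 1) ^ p ≤ (k : ℝ) ^ p * (k + 1) := by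
      rw [div_le_div_iff₀ (by positivity) (by positivity)] at h3
      exact h3
    set c := S i0 / (i0 : ℝ) ^ p with hc
    have hc0 : 0 ≤ c := div_nonneg (hS i0) (by positivity)
    have h7 : (0 : ℝ) < k + 1 - p := by linarith
    have h8 : (k + 1 - p : ℝ) * (c * ((k : ℝ) + 1) ^ p) ≤ (k + 1 - p) * S (k + 1) := by
      calc (k + 1 - p : ℝ) * (c * ((k : ℝ) + 1) ^ p)
          = c * ((k + 1 - p : ℝ) * ((k : ℝ) + 1) ^ p) := by ring
        _ ≤ c * ((k : ℝ) ^ p * (k + 1)) := by gcongr
        _ = (k + 1) * (c * (k : ℝ) ^ p) := by ring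
        _ ≤ (k + 1) * S k := by gcongr
        _ ≤ _ := h2
    have h9 := le_of_mul_le_mul_left h8 h7
    push_cast
    exact h9

/-- THE TRADE-OFF between representation numbers and density -/
theorem tradeoff (hQ : 2 ≤ Q) (hC : 1 ≤ C) (hm : Chain m) (hq : ∀ j, m (j + 1) ≤ Q * m j)
    (hN : Nested A m C) (M : ℕ → ℝ) (hM1 : ∀ i, 1 ≤ M i)
    (hM : ∀ i, ∀ n < m (i + C + 1), (rep A n : ℝ) ≤ M i) (J : ℕ) (hJ : 1 ≤ J)
    (hpos : 0 < num A (m J)) :
    ∑ i ∈ Finset.Icc 1 J, 1 / M i
      ≤ kc Q C * (1 + Real.log (kc Q C * C ^ 2 * Q * (M J * m J / (num A (m J) : ℝ) ^ 2))) := by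
  have hQr : (2 : ℝ) ≤ Q := by exact_mod_cast hQ
  have hCr : (1 : ℝ) ≤ C := by exact_mod_cast hC
  set κ : ℝ := kc Q C with hκ
  have hκ1 : 486 ≤ κ := kc_ge hQ hC
  have hκ0 : 0 < κ := by linarith
  have hne : A.Nonempty := by
    have h0' : 0 < (sec A (m J)).card := by rw [card_sec]; exact hpos
    obtain ⟨a, ha⟩ := Finset.card_pos.1 h0'
    exact ⟨a, (mem_sec.1 ha).2⟩
  have step : ∀ i, ps A m C i ≤ κ * M i * pv A m C i := by
    intro i
    refine ps_le hm hC hq hN hne i (M i) (fun n hn => hM i n ?_)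
    exact lt_of_lt_of_le hn (hm.two (i + C))
  have hv : ∀ i, 0 < pv A m C i := by
    intro i
    have h4 : (0 : ℝ) < num A (C * m i) := by exact_mod_cast num_pos_of hm hN hne i
    have h5 : (0 : ℝ) < m i := by exact_mod_cast hm.pos i
    unfold pv
    positivity
  have hS : ∀ i, 1 ≤ i → 0 < ps A m C i := by
    intro i hi
    have h1 : ps A m C 1 ≤ ps A m C i := ps_mono hi
    have h3 : ps A m C 1 = pv A m C 1 := by unfold ps pv; simp
    have := hv 1
    linarith
  have base : 1 / ((C : ℝ) ^ 2 * Q) ≤ ps A m C 1 := by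
    have m1 : (m 1 : ℝ) ≤ Q := by
      have := hq 0
      rw [hm.one, mul_one, zero_add] at this
      exact_mod_cast this
    have m1pos : (0 : ℝ) < m 1 := by exact_mod_cast hm.pos 1
    unfold ps
    rw [Finset.Icc_self, Finset.sum_singleton]
    have h1 : (num A (C * m 1) : ℝ) ≤ C * m 1 := by exact_mod_cast num_le A (C * m 1)
    have h2 : (0 : ℝ) < num A (C * m 1) := by exact_mod_cast num_pos_of hm hN hne 1
    calc 1 / ((C : ℝ) ^ 2 * Q) ≤ 1 / ((C : ℝ) ^ 2 * m 1) := by gcongr
      _ = (m 1 : ℝ) / (C * m 1) ^ 2 := by field_simp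
      _ ≤ _ := by gcongr
  have hlog : ∀ i, 1 ≤ i → (∑ j ∈ Finset.Icc 1 i, 1 / M j) / κ
      ≤ 1 + Real.log (ps A m C i) - Real.log (ps A m C 1) := by
    intro i hi
    induction hi with
    | refl =>
      have h1 : 1 / M 1 ≤ 1 := by
        rw [div_le_one (by linarith [hM1 1])]; exact hM1 1
      show (∑ j ∈ Finset.Icc 1 1, 1 / M j) / κ
        ≤ 1 + Real.log (ps A m C 1) - Real.log (ps A m C 1)
      rw [Finset.Icc_self, Finset.sum_singleton, div_le_iff₀ hκ0]
      linarith
    | @step k hk ih =>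
      have hk' : 1 ≤ k := hk
      show (∑ j ∈ Finset.Icc 1 (k + 1), 1 / M j) / κ
        ≤ 1 + Real.log (ps A m C (k + 1)) - Real.log (ps A m C 1)
      rw [Finset.sum_Icc_succ_top (by omega), add_div]
      have h1 := step (k + 1)
      have h2 := ps_succ (A := A) (m := m) (C := C) k
      have h3 := hS k hk'
      have h4 := hS (k + 1) (by omega)
      have hMp : 0 < M (k + 1) := by linarith [hM1 (k + 1)]
      have h5 : 1 / M (k + 1) / κ ≤ 1 - ps A m C k / ps A m C (k + 1) := by
        have h6 : ps A m C (k + 1) ≤ κ * M (k + 1) * (ps A m C (k + 1) - ps A m C k) := by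
          have : ps A m C (k + 1) - ps A m C k = pv A m C (k + 1) := by linarith
          rw [this]; exact h1
        have h7 : 1 - ps A m C k / ps A m C (k + 1)
            = (ps A m C (k + 1) - ps A m C k) / ps A m C (k + 1) := by field_simp
        rw [h7, div_div, div_le_div_iff₀ (by positivity) h4]
        linarith
      have h8 : 1 - ps A m C k / ps A m C (k + 1)
          ≤ Real.log (ps A m C (k + 1)) - Real.log (ps A m C k) := by
        have h9 := Real.add_one_le_exp (-(Real.log (ps A m C (k + 1)) - Real.log (ps A m C k)))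
        have h10 : Real.exp (-(Real.log (ps A m C (k + 1)) - Real.log (ps A m C k)))
            = ps A m C k / ps A m C (k + 1) := by
          rw [neg_sub, Real.exp_sub, Real.exp_log h3, Real.exp_log h4]
        rw [h10] at h9
        linarith
      linarith
  have h1 := hlog J hJ
  have hNJ : (0 : ℝ) < num A (m J) := by exact_mod_cast hpos
  have hmJ : (0 : ℝ) < m J := by exact_mod_cast hm.pos J
  have hMJ : 0 < M J := by linarith [hM1 J]
  have h2 : ps A m C J ≤ κ * (M J * m J / (num A (m J) : ℝ) ^ 2) := by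
    have h3 : pv A m C J ≤ (m J : ℝ) / (num A (m J) : ℝ) ^ 2 := by
      unfold pv
      have h4 : (num A (m J) : ℝ) ≤ num A (C * m J) := by
        exact_mod_cast num_mono (by nlinarith : m J ≤ C * m J)
      gcongr
    calc ps A m C J ≤ κ * M J * pv A m C J := step J
      _ ≤ κ * M J * ((m J : ℝ) / (num A (m J) : ℝ) ^ 2) := by gcongr
      _ = _ := by ring
  have h5 : Real.log (ps A m C J) - Real.log (ps A m C 1)
      ≤ Real.log (κ * C ^ 2 * Q * (M J * m J / (num A (m J) : ℝ) ^ 2)) := by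
    have hS1 := hS 1 le_rfl
    have hSJ := hS J hJ
    rw [← Real.log_div hSJ.ne' hS1.ne']
    refine Real.log_le_log (by positivity) ?_
    rw [div_le_iff₀ hS1]
    have h6 : 1 ≤ C ^ 2 * Q * ps A m C 1 := by
      have h7 : (0 : ℝ) < (C : ℝ) ^ 2 * Q := by positivity
      rw [div_le_iff₀ h7] at base
      linarith
    have h8 : 0 ≤ κ * (M J * m J / (num A (m J) : ℝ) ^ 2) := by positivity
    calc ps A m C J ≤ κ * (M J * m J / (num A (m J) : ℝ) ^ 2) * 1 := by linarith
      _ ≤ κ * (M J * m J / (num A (m J) : ℝ) ^ 2) * (C ^ 2 * Q * ps A m C 1) := by gcongr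
      _ = _ := by ring
  have h9 : (∑ j ∈ Finset.Icc 1 J, 1 / M j) / κ
      ≤ 1 + Real.log (κ * C ^ 2 * Q * (M J * m J / (num A (m J) : ℝ) ^ 2)) := by linarith
  rw [div_le_iff₀ hκ0] at h9
  linarith

/-- explicit constant -/
noncomputable def dconst (Q C B : ℕ) : ℝ := (2 * (kc Q C * (2 * B + 2)) * Real.log Q)⁻¹

lemma dconst_pos (hQ : 2 ≤ Q) (hC : 1 ≤ C) (B : ℕ) : 0 < dconst Q C B := by
  unfold dconst
  have h0 := kc_ge hQ hC
  have h1 : 0 < Real.log Q := Real.log_pos (by exact_mod_cast (by omega : 1 < Q))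
  have h2 : (0 : ℝ) < Q := by exact_mod_cast (by omega : 0 < Q)
  positivity

theorem limsup_case (hQ : 2 ≤ Q) (hC : 1 ≤ C) (B : ℕ) (hm : Chain m)
    (hq : ∀ j, m (j + 1) ≤ Q * m j) (hN : Nested A m C) (c : ℝ) (hc : 0 < c)
    (hA : ∀ᶠ x : ℕ in atTop, c * √x / Real.log x ^ B ≤ num A x) :
    ∃ᶠ n : ℕ in atTop, dconst Q C B * Real.log n ≤ rep A n := by
  by_contra hcon
  rw [Filter.not_frequently] at hcon
  obtain ⟨n0, hn0⟩ := Filter.eventually_atTop.1 hcon
  obtain ⟨x0, hx0⟩ := Filter.eventually_atTop.1 hA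
  have hQr : (2 : ℝ) ≤ Q := by exact_mod_cast hQ
  have hlogQ : 0 < Real.log Q := Real.log_pos (by linarith)
  set δ := dconst Q C B with hδ
  have hδ0 : 0 < δ := dconst_pos hQ hC B
  set p : ℕ := 2 * B + 2 with hp
  set κ : ℝ := kc Q C with hκ
  have hκ0 : 0 < κ := by
    have := kc_ge hQ hC
    rw [hκ]; linarith
  have hδκ : κ * (δ * Real.log Q) * p = 1 / 2 := by
    rw [hδ, hp]
    unfold dconst
    rw [← hκ]
    push_cast
    field_simp
  -- A is nonempty
  have hne : A.Nonempty := by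
    have h1 := hx0 (max x0 3) (le_max_left _ _)
    have h3 : (3 : ℝ) ≤ (max x0 3 : ℕ) := by exact_mod_cast le_max_right x0 3
    have h4 : 0 < Real.log (max x0 3 : ℕ) := Real.log_pos (by linarith)
    have h5 : 0 < c * √((max x0 3 : ℕ) : ℝ) / Real.log (max x0 3 : ℕ) ^ B := by positivity
    by_contra hA
    rw [Set.not_nonempty_iff_eq_empty] at hA
    have : num A (max x0 3) = 0 := by rw [hA]; unfold num; simp
    rw [this] at h1
    simp only [Nat.cast_zero] at h1
    linarith
  -- the bound for the representation numbers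
  have hR : ∀ J : ℕ, ∀ n < 2 * m J, (rep A n : ℝ) ≤ (n0 + 1) + δ * ((J + 1) * Real.log Q) := by
    intro J n hn
    have h2 : 0 ≤ δ * ((J + 1) * Real.log Q) := by positivity
    rcases lt_or_ge n n0 with h | h
    · have h1 : (rep A n : ℝ) ≤ n + 1 := by exact_mod_cast rep_le A n
      have h3 : (n : ℝ) ≤ n0 := by exact_mod_cast h.le
      linarith
    · have h1 := hn0 n h
      push Not at h1
      rcases Nat.eq_zero_or_pos n with h0 | h0
      · have h4 : (rep A n : ℝ) ≤ n + 1 := by exact_mod_cast rep_le A n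
        have h3 : (n : ℝ) ≤ n0 := by rw [h0]; push_cast; positivity
        linarith
      · have h5 : Real.log n ≤ (J + 1) * Real.log Q := by
          have h6 : (n : ℝ) ≤ 2 * m J := by exact_mod_cast hn.le
          have h7 : (0 : ℝ) < m J := by exact_mod_cast hm.pos J
          calc Real.log n ≤ Real.log (2 * m J) := Real.log_le_log (by exact_mod_cast h0) h6
            _ = Real.log 2 + Real.log (m J) := Real.log_mul (by norm_num) h7.ne'
            _ ≤ Real.log Q + J * Real.log Q := by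
                have h8 := log_m_le hm hq J
                have h9 : Real.log 2 ≤ Real.log Q := Real.log_le_log (by norm_num) hQr
                linarith
            _ = _ := by ring
        have h8 : δ * Real.log n ≤ δ * ((J + 1) * Real.log Q) := by gcongr
        have h9 : (0 : ℝ) ≤ n0 := by positivity
        linarith
  -- from some point on the bound is small compared with i
  obtain ⟨i0, hi0⟩ : ∃ i0 : ℕ, ∀ i : ℕ, i0 ≤ i →
      κ * ((n0 + 1) + δ * (((i + C : ℕ) + 1) * Real.log Q)) * p ≤ i := by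
    obtain ⟨i0, hi0⟩ := exists_nat_ge (2 * (κ * ((n0 + 1) + δ * ((C + 1) * Real.log Q)) * p))
    refine ⟨i0, fun i hi => ?_⟩
    have h1 : (i0 : ℝ) ≤ i := by exact_mod_cast hi
    have h2 : κ * ((n0 + 1) + δ * (((i + C : ℕ) + 1) * Real.log Q)) * p
        = κ * ((n0 + 1) + δ * ((C + 1) * Real.log Q)) * p + κ * (δ * Real.log Q) * p * i := by
      push_cast; ring
    rw [h2, hδκ]
    linarith
  have step : ∀ i : ℕ, i0 ≤ i → (p : ℝ) * ps A m C i ≤ i * pv A m C i := by
    intro i hi
    have h1 := ps_le hm hC hq hN hne i _ (hR (i + C))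
    have h2 := hi0 i hi
    have h3 : 0 ≤ pv A m C i := pv_nonneg i
    have hp0 : (0 : ℝ) ≤ p := by positivity
    calc (p : ℝ) * ps A m C i
        ≤ p * (κ * ((n0 + 1) + δ * (((i + C : ℕ) + 1) * Real.log Q)) * pv A m C i) := by
          gcongr
      _ = (κ * ((n0 + 1) + δ * (((i + C : ℕ) + 1) * Real.log Q)) * p) * pv A m C i := by
          ring
      _ ≤ _ := by gcongr
  set i1 := max (i0 + 1) (p + 1) with hi1
  have grow := power_growth (fun i => ps A m C i) p i1 (by omega) (by omega)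
    (fun i => ps_nonneg i) (by
      intro i hi
      have h1 := step (i + 1) (by omega)
      have h2 := ps_succ (A := A) (m := m) (C := C) i
      push_cast at h1
      have h3 : ps A m C (i + 1) - ps A m C i = pv A m C (i + 1) := by linarith
      rw [h3]
      exact h1)
  -- positivity of the base value
  have hS0 : 0 < ps A m C i1 := by
    have h1 : pv A m C 1 ≤ ps A m C i1 := by
      have h2 : ps A m C 1 ≤ ps A m C i1 := ps_mono (by omega)
      have h3 : ps A m C 1 = pv A m C 1 := by unfold ps pv; simp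
      linarith
    have h4 : (0 : ℝ) < num A (C * m 1) := by exact_mod_cast num_pos_of hm hN hne 1
    have h5 : (0 : ℝ) < m 1 := by exact_mod_cast hm.pos 1
    have h6 : 0 < pv A m C 1 := by unfold pv; positivity
    linarith
  set c0 := ps A m C i1 / (i1 : ℝ) ^ p with hc0
  have hi1r : (0 : ℝ) < i1 := by exact_mod_cast (by omega : 0 < i1)
  have hc00 : 0 < c0 := by rw [hc0]; positivity
  -- upper bound for the profile
  have upper : ∀ i : ℕ, i1 ≤ i → x0 ≤ m i → 2 ≤ m i →
      pv A m C i ≤ (i * Real.log Q) ^ (2 * B) / c ^ 2 := by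
    intro i _ hx hm2
    have h1 := hx0 (m i) hx
    have h2 : (2 : ℝ) ≤ m i := by exact_mod_cast hm2
    have h3 : 0 < Real.log (m i) := Real.log_pos (by linarith)
    have h4 : (num A (m i) : ℝ) ≤ num A (C * m i) := by
      exact_mod_cast num_mono (by nlinarith : m i ≤ C * m i)
    have h5 : c * √(m i) / Real.log (m i) ^ B ≤ num A (C * m i) := h1.trans h4
    have h6 : 0 < c * √(m i : ℝ) / Real.log (m i) ^ B := by
      have : 0 < √(m i : ℝ) := Real.sqrt_pos.2 (by linarith)
      positivity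
    have h7 : (c * √(m i : ℝ) / Real.log (m i) ^ B) ^ 2 ≤ (num A (C * m i) : ℝ) ^ 2 := by gcongr
    have h8 : (c * √(m i : ℝ) / Real.log (m i) ^ B) ^ 2 = c ^ 2 * m i / Real.log (m i) ^ (2 * B) := by
      rw [div_pow, mul_pow, Real.sq_sqrt (by linarith), ← pow_mul, mul_comm B 2]
    rw [h8] at h7
    have h9 : 0 < c ^ 2 * (m i : ℝ) / Real.log (m i) ^ (2 * B) := by
      have : (0 : ℝ) < m i := by linarith
      positivity
    unfold pv
    calc (m i : ℝ) / (num A (C * m i) : ℝ) ^ 2
        ≤ (m i : ℝ) / (c ^ 2 * m i / Real.log (m i) ^ (2 * B)) := by gcongr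
      _ = Real.log (m i) ^ (2 * B) / c ^ 2 := by
          have : (0 : ℝ) < m i := by linarith
          field_simp
      _ ≤ _ := by
          have := log_m_le hm hq i
          gcongr
  -- contradiction
  obtain ⟨J, hJ⟩ := exists_lt_m hm (x0 + 2)
  obtain ⟨T, hT⟩ := exists_nat_gt (Real.log Q ^ (2 * B) / c ^ 2 / (p * c0))
  set i := max (max i1 J) T with hi
  have hi_i1 : i1 ≤ i := by omega
  have hi_J : J ≤ i := by omega
  have hi_T : (T : ℝ) ≤ i := by exact_mod_cast (by omega : T ≤ i)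
  have hmi := hJ i hi_J
  have h1 := grow i hi_i1
  have h2 := step i (by omega)
  have h3 := upper i hi_i1 (by omega) (by omega)
  have hir : (0 : ℝ) < i := by exact_mod_cast (by omega : 0 < i)
  have hpr : (0 : ℝ) < p := by exact_mod_cast (by omega : 0 < p)
  have h4 : (p : ℝ) * (c0 * (i : ℝ) ^ p) ≤ i * ((i * Real.log Q) ^ (2 * B) / c ^ 2) := by
    calc (p : ℝ) * (c0 * (i : ℝ) ^ p) ≤ p * ps A m C i := by gcongr
      _ ≤ i * pv A m C i := h2
      _ ≤ _ := by gcongr
  have h5 : (p : ℝ) * c0 * (i : ℝ) * ((i : ℝ) ^ (2 * B) * i)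
      ≤ Real.log Q ^ (2 * B) / c ^ 2 * ((i : ℝ) ^ (2 * B) * i) := by
    calc (p : ℝ) * c0 * (i : ℝ) * ((i : ℝ) ^ (2 * B) * i) = p * (c0 * (i : ℝ) ^ p) := by
          rw [hp, pow_add]; ring
      _ ≤ i * ((i * Real.log Q) ^ (2 * B) / c ^ 2) := h4
      _ = _ := by rw [mul_pow]; ring
  have h6 := le_of_mul_le_mul_right h5 (by positivity)
  have h7 : (i : ℝ) ≤ Real.log Q ^ (2 * B) / c ^ 2 / (p * c0) := by
    rw [le_div_iff₀ (by positivity)]
    linarith
  linarith

end Pool.Agent.Helper72.NS
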