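import Pool.Agent.Helper72.NS.Pair
import Pool.Agent.Helper72.NS.Causal

/-! Choices of representations with look-ahead. -/

namespace Pool.Agent.Helper72.NS

open Finset Filter

variable {m : ℕ → ℕ}

/-- A lower bound for the number of agreements. -/
lemma agree_lower (D : Finset ℕ) (f : ℕ → ℕ) (k M : ℕ) (hM : 0 < M) (hk : k ∣ M)
    (hL : ∀ n ∈ D, ∀ n' ∈ D, n % M = n' % M → f n % k = f n' % k) :
    (D.card : ℝ) ^ 2 / M ≤ agree D f (fun a => a % k) := by
  have h1 := pairs_lower D (fun n => (n % k, f n % k)) (fun n => n % M) M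
    (fun n _ => Nat.mod_lt n hM) (fun n hn n' hn' h => by
      have h2 : n % k = n' % k := by
        have h3 : n ≡ n' [MOD M] := h
        exact h3.of_dvd hk
      exact Prod.ext h2 (hL n hn n' hn' h))
  have h0 : agree D f (fun a => a % k) =
      ((D ×ˢ D).filter fun p => (p.1 % k, f p.1 % k) = (p.2 % k, f p.2 % k)).card := by
    unfold agree
    congr 1
    ext p
    simp only [Finset.mem_filter, Prod.mk.injEq]
  rw [← h0] at h1
  have hMr : (0 : ℝ) < M := by exact_mod_cast hM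
  rw [div_le_iff₀ hMr, mul_comm]
  exact_mod_cast h1

/-- Choices of representations with look-ahead: the mean square. -/
theorem look_mod (hm : Chain m) (A : Set ℕ) (J : ℕ) (D : Finset ℕ) (f M : ℕ → ℕ)
    (hf : ∀ n ∈ D, n < m J ∧ f n ≤ n ∧ f n ∈ A ∧ n - f n ∈ A)
    (hM : ∀ j, 0 < M j ∧ m j ∣ M j)
    (hL : ∀ j, ∀ n ∈ D, ∀ n' ∈ D, n % M j = n' % M j → f n % m j = f n' % m j) :
    (D.card : ℝ) ^ 2 * ∑ j ∈ Finset.Icc 1 J, (m j : ℝ) / M j
      ≤ 486 * m J * ∑ n ∈ Finset.range (2 * m J), (rep A n : ℝ) ^ 2 := by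
  refine le_trans ?_ (square_mod hm A J (fun _ => D) (fun _ => f) fun _ => hf)
  rw [Finset.mul_sum]
  refine Finset.sum_le_sum fun j _ => ?_
  have h1 := agree_lower D f (m j) (M j) (hM j).1 (hM j).2 (hL j)
  calc (D.card : ℝ) ^ 2 * ((m j : ℝ) / M j) = m j * ((D.card : ℝ) ^ 2 / M j) := by ring
    _ ≤ _ := by gcongr

/-- the elements of `D` below `x` -/
lemma look_set (hm : Chain m) (A D : Set ℕ) (J : ℕ) (f M : ℕ → ℕ)
    (hf : ∀ n ∈ D, f n ≤ n ∧ f n ∈ A ∧ n - f n ∈ A)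
    (hM : ∀ j, 0 < M j ∧ m j ∣ M j)
    (hL : ∀ j, ∀ n ∈ D, ∀ n' ∈ D, n % M j = n' % M j → f n % m j = f n' % m j) :
    (num D (m J) : ℝ) ^ 2 * ∑ j ∈ Finset.Icc 1 J, (m j : ℝ) / M j
      ≤ 486 * m J * ∑ n ∈ Finset.range (2 * m J), (rep A n : ℝ) ^ 2 := by
  rw [← card_sec]
  exact look_mod hm A J (sec D (m J)) f M
    (fun n hn => ⟨(mem_sec.1 hn).1, hf n (mem_sec.1 hn).2⟩) hM
    (fun j n hn n' hn' => hL j n (mem_sec.1 hn).2 n' (mem_sec.1 hn').2)

/-- A positive proportion of the integers and a divergent series: the number of representations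
is not bounded. -/
theorem look_unbounded (hm : Chain m) (A D : Set ℕ) (f M : ℕ → ℕ) (δ : ℝ) (hδ : 0 < δ)
    (hf : ∀ n ∈ D, f n ≤ n ∧ f n ∈ A ∧ n - f n ∈ A)
    (hM : ∀ j, 0 < M j ∧ m j ∣ M j)
    (hL : ∀ j, ∀ n ∈ D, ∀ n' ∈ D, n % M j = n' % M j → f n % m j = f n' % m j)
    (hD : ∃ᶠ J : ℕ in atTop, δ * m J ≤ num D (m J))
    (hsum : ¬ Summable fun j => (m j : ℝ) / M j) (g : ℕ) : ∃ n, g < rep A n := by
  by_contra hcon
  push Not at hcon
  refine hsum ?_
  have hterm : ∀ j, (0 : ℝ) ≤ (m j : ℝ) / M j := fun j => by positivity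
  rw [← summable_nat_add_iff 1]
  refine summable_of_sum_range_le (c := 972 * (g : ℝ) ^ 2 / δ ^ 2) (fun j => hterm _) fun K => ?_
  rw [Filter.frequently_atTop] at hD
  obtain ⟨J, hJK, hJ⟩ := hD K
  have hmJ : (0 : ℝ) < m J := by exact_mod_cast hm.pos J
  have h1 := look_set hm A D J f M hf hM hL
  have h2 : ∑ n ∈ Finset.range (2 * m J), (rep A n : ℝ) ^ 2 ≤ 2 * m J * (g : ℝ) ^ 2 := by
    calc ∑ n ∈ Finset.range (2 * m J), (rep A n : ℝ) ^ 2
        ≤ ∑ n ∈ Finset.range (2 * m J), (g : ℝ) ^ 2 := by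
          refine Finset.sum_le_sum fun n _ => ?_
          have : (rep A n : ℝ) ≤ g := by exact_mod_cast hcon n
          gcongr
      _ = _ := by
          rw [Finset.sum_const, Finset.card_range, nsmul_eq_mul]
          push_cast
          ring
  have h3 : ∑ j ∈ Finset.range K, (m (j + 1) : ℝ) / M (j + 1) ≤
      ∑ j ∈ Finset.Icc 1 J, (m j : ℝ) / M j := by
    have h4 : ∑ j ∈ Finset.Icc 1 J, (m j : ℝ) / M j =
        ∑ j ∈ Finset.range J, (m (j + 1) : ℝ) / M (j + 1) := by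
      have h5 : Finset.Icc 1 J = Finset.Ico 1 (J + 1) := by
        ext x
        rw [Finset.mem_Icc, Finset.mem_Ico]
        omega
      rw [h5, Finset.sum_Ico_eq_sum_range, Nat.add_sub_cancel]
      refine Finset.sum_congr rfl fun j _ => ?_
      rw [add_comm 1 j]
    rw [h4]
    exact Finset.sum_le_sum_of_subset_of_nonneg (Finset.range_mono hJK)
      fun j _ _ => hterm _
  set S := ∑ j ∈ Finset.Icc 1 J, (m j : ℝ) / M j
  have hS : 0 ≤ S := Finset.sum_nonneg fun j _ => hterm j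
  have h5 : (δ * m J) ^ 2 * S ≤ 972 * (m J : ℝ) ^ 2 * (g : ℝ) ^ 2 := by
    calc (δ * m J) ^ 2 * S ≤ (num D (m J) : ℝ) ^ 2 * S := by gcongr
      _ ≤ 486 * m J * ∑ n ∈ Finset.range (2 * m J), (rep A n : ℝ) ^ 2 := h1
      _ ≤ 486 * m J * (2 * m J * (g : ℝ) ^ 2) := by gcongr
      _ = _ := by ring
  refine h3.trans ?_
  rw [le_div_iff₀ (by positivity)]
  have h6 : (m J : ℝ) ^ 2 * (S * δ ^ 2) ≤ (m J : ℝ) ^ 2 * (972 * (g : ℝ) ^ 2) := by
    calc (m J : ℝ) ^ 2 * (S * δ ^ 2) = (δ * m J) ^ 2 * S := by ring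
      _ ≤ _ := h5
      _ = _ := by ring
  exact le_of_mul_le_mul_left h6 (by positivity)

/-- Base `q`, bounded look-ahead, all large integers: the mean square is of order `log x`. -/
theorem look_log (q h t : ℕ) (hq : 2 ≤ q) : ∃ E : ℝ, 0 < E ∧ ∀ (A : Set ℕ) (f : ℕ → ℕ),
    (∀ n ≥ t, f n ≤ n ∧ f n ∈ A ∧ n - f n ∈ A) →
    (∀ j, ∀ n ≥ t, ∀ n' ≥ t, n % q ^ (j + h) = n' % q ^ (j + h) →
      f n % q ^ j = f n' % q ^ j) →
    (∀ᶠ x : ℕ in atTop, x * Real.log x / E ≤ ∑ n ∈ Finset.range x, (rep A n : ℝ) ^ 2) ∧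
    ∃ᶠ n : ℕ in atTop, Real.log n / E ≤ rep A n := by
  obtain ⟨E₁, hE₁, hc⟩ := causal q h t hq
  have hqr : (0 : ℝ) < q := by exact_mod_cast (by omega : 0 < q)
  have hq1 : (1 : ℝ) < q := by exact_mod_cast (by omega : 1 < q)
  have hlq : 0 < Real.log q := Real.log_pos hq1
  set E₂ : ℝ := 486 * 4 * 4 * q * (q : ℝ) ^ h * Real.log q with hE₂
  have hE₂0 : 0 < E₂ := by positivity
  refine ⟨max E₁ E₂, lt_max_of_lt_left hE₁, fun A f hf hL => ⟨?_, ?_⟩⟩
  · -- the scale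
    have hmC : Chain fun j => q ^ j := ⟨pow_zero q, fun j => ⟨q, pow_succ q j⟩, fun j => by
      rw [pow_succ, mul_comm]
      exact Nat.mul_le_mul le_rfl hq⟩
    filter_upwards [Filter.eventually_ge_atTop (2 * q ^ (2 * t + 4))] with x hx
    set J := Nat.log q (x / 2) with hJ
    have hx2 : x / 2 ≠ 0 := by
      have := Nat.pow_pos (by omega : 0 < q) (n := 2 * t + 4)
      omega
    have h1 : q ^ J ≤ x / 2 := Nat.pow_log_le_self q hx2
    have h2 : x / 2 < q ^ (J + 1) := Nat.lt_pow_succ_log_self (by omega) _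
    have h3 : 2 * t + 4 ≤ J := by
      rw [hJ]
      exact Nat.le_log_of_pow_le (by omega) (by omega)
    have h4 : 2 * t ≤ q ^ J := by
      have h5 : J < q ^ J := Nat.lt_pow_self (by omega)
      omega
    have h5 := look_mod hmC A J (Finset.Ico t (q ^ J)) f (fun j => q ^ (j + h))
      (fun n hn => by
        rw [Finset.mem_Ico] at hn
        exact ⟨hn.2, hf n hn.1⟩)
      (fun j => ⟨Nat.pow_pos (by omega), pow_dvd_pow q (by omega)⟩)
      (fun j n hn n' hn' => hL j n (Finset.mem_Ico.1 hn).1 n' (Finset.mem_Ico.1 hn').1)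
    have h6 : ∑ j ∈ Finset.Icc 1 J, ((q ^ j : ℕ) : ℝ) / ((q ^ (j + h) : ℕ) : ℝ) =
        J / (q : ℝ) ^ h := by
      rw [Finset.sum_congr rfl (g := fun _ => 1 / (q : ℝ) ^ h) fun j _ => by
        push_cast
        rw [pow_add]
        field_simp]
      rw [Finset.sum_const, Nat.card_Icc, nsmul_eq_mul, Nat.add_sub_cancel]
      ring
    rw [h6, Nat.card_Ico] at h5
    have h7 : ((q ^ J : ℕ) : ℝ) / 2 ≤ ((q ^ J - t : ℕ) : ℝ) := by
      rw [div_le_iff₀ (by norm_num)]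
      have : q ^ J ≤ (q ^ J - t) * 2 := by omega
      exact_mod_cast this
    have h8 : ∑ n ∈ Finset.range (2 * q ^ J), (rep A n : ℝ) ^ 2 ≤
        ∑ n ∈ Finset.range x, (rep A n : ℝ) ^ 2 := by
      refine Finset.sum_le_sum_of_subset_of_nonneg (Finset.range_mono (by omega))
        fun _ _ _ => by positivity
    set T := ∑ n ∈ Finset.range x, (rep A n : ℝ) ^ 2 with hT
    have hqJ : (0 : ℝ) < ((q ^ J : ℕ) : ℝ) := by exact_mod_cast Nat.pow_pos (by omega : 0 < q)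
    have h9 : (((q ^ J : ℕ) : ℝ) / 2) ^ 2 * (J / (q : ℝ) ^ h) ≤ 486 * ((q ^ J : ℕ) : ℝ) * T := by
      calc (((q ^ J : ℕ) : ℝ) / 2) ^ 2 * (J / (q : ℝ) ^ h)
          ≤ ((q ^ J - t : ℕ) : ℝ) ^ 2 * (J / (q : ℝ) ^ h) := by gcongr
        _ ≤ 486 * ((q ^ J : ℕ) : ℝ) * ∑ n ∈ Finset.range (2 * q ^ J), (rep A n : ℝ) ^ 2 := h5
        _ ≤ _ := by gcongr
    have h10 : ((q ^ J : ℕ) : ℝ) * J / (1944 * (q : ℝ) ^ h) ≤ T := by
      rw [div_le_iff₀ (by positivity)]
      have h11 : ((q ^ J : ℕ) : ℝ) * (((q ^ J : ℕ) : ℝ) * J) ≤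
          ((q ^ J : ℕ) : ℝ) * (T * (1944 * (q : ℝ) ^ h)) := by
        have h12 : ((q ^ J : ℕ) : ℝ) * (((q ^ J : ℕ) : ℝ) * J) =
            (4 * (q : ℝ) ^ h) * ((((q ^ J : ℕ) : ℝ) / 2) ^ 2 * (J / (q : ℝ) ^ h)) := by
          field_simp
          ring
        rw [h12]
        calc (4 * (q : ℝ) ^ h) * ((((q ^ J : ℕ) : ℝ) / 2) ^ 2 * (J / (q : ℝ) ^ h))
            ≤ (4 * (q : ℝ) ^ h) * (486 * ((q ^ J : ℕ) : ℝ) * T) := by gcongr
          _ = _ := by ring
      exact le_of_mul_le_mul_left h11 hqJ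
    have hJ2 : (2 : ℝ) ≤ J := by exact_mod_cast (by omega : 2 ≤ J)
    have hxr : (x : ℝ) ≤ 2 * q * ((q ^ J : ℕ) : ℝ) := by
      have : x ≤ 2 * q * q ^ J := by
        rw [mul_assoc, ← pow_succ']
        omega
      exact_mod_cast this
    have hx0 : (0 : ℝ) < x := by
      have : 0 < x := by omega
      exact_mod_cast this
    have hlx : Real.log x ≤ 2 * J * Real.log q := by
      have h11 : (x : ℝ) ≤ (q : ℝ) ^ (J + 2) := by
        refine hxr.trans ?_
        push_cast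
        have h2q : (2 : ℝ) ≤ q := by exact_mod_cast hq
        calc 2 * (q : ℝ) * (q : ℝ) ^ J ≤ q * q * (q : ℝ) ^ J := by gcongr
          _ = _ := by ring
      calc Real.log x ≤ Real.log ((q : ℝ) ^ (J + 2)) := Real.log_le_log hx0 h11
        _ = (J + 2) * Real.log q := by
            rw [Real.log_pow]
            push_cast
            ring
        _ ≤ _ := by
            have : (J : ℝ) + 2 ≤ 2 * J := by linarith
            gcongr
    have hlx0 : 0 ≤ Real.log x := Real.log_natCast_nonneg x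
    calc x * Real.log x / max E₁ E₂ ≤ x * Real.log x / E₂ := by
          gcongr
          exact le_max_right _ _
      _ ≤ (2 * q * ((q ^ J : ℕ) : ℝ)) * (2 * J * Real.log q) / E₂ := by gcongr
      _ = ((q ^ J : ℕ) : ℝ) * J / (1944 * (q : ℝ) ^ h) := by
          rw [hE₂]
          field_simp
          ring
      _ ≤ T := h10
  · refine (hc A f hf hL).mono fun n hn => le_trans ?_ hn
    rcases Nat.eq_zero_or_pos n with rfl | hn0
    · simp
    · have : 0 ≤ Real.log n := Real.log_natCast_nonneg n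
      gcongr
      exact le_max_left _ _

end Pool.Agent.Helper72.NS
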