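import Pool.Agent.Helper72.NS.Diff

/-! Multiples as sets of differences; few pairs of residues. -/

namespace Pool.Agent.Helper72.NS

open Finset Filter

variable {m : ℕ → ℕ}

/-- the multiples of `m j` of absolute value less than `m J` -/
noncomputable def gm (m : ℕ → ℕ) (J j : ℕ) : Finset ℤ :=
  (Finset.Ioo (-((m J / m j : ℕ) : ℤ)) ((m J / m j : ℕ) : ℤ)).image fun t => t * (m j : ℤ)

lemma card_gm (hm : Chain m) (J j : ℕ) : (gm m J j).card = 2 * (m J / m j) - 1 := by
  unfold gm
  rw [Finset.card_image_of_injective _ fun a b hab => by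
    have : (0 : ℤ) < m j := by exact_mod_cast hm.pos j
    exact mul_right_cancel₀ (ne_of_gt this) hab]
  rw [Int.card_Ioo]
  omega

lemma gm_empty (hm : Chain m) {J j : ℕ} (h : J < j) : gm m J j = ∅ := by
  unfold gm
  have h1 : m J < m j := by
    have h2 : ∀ k, m J < m (J + k + 1) := by
      intro k
      induction k with
      | zero =>
        have := hm.two J
        have := hm.pos J
        simpa using by omega
      | succ k ih =>
        have h3 := hm.two (J + k + 1)
        have h4 := hm.pos (J + k + 1)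
        have h5 : J + (k + 1) + 1 = J + k + 1 + 1 := by ring
        rw [h5]
        omega
    obtain ⟨k, hk⟩ := Nat.exists_eq_add_of_lt h
    rw [hk]
    exact h2 k
  rw [Nat.div_eq_of_lt h1]
  simp

lemma mem_gm (hm : Chain m) {J j : ℕ} (hj : j ≤ J) {d : ℤ} (h1 : (m j : ℤ) ∣ d)
    (h2 : -(m J : ℤ) < d) (h3 : d < m J) : d ∈ gm m J j := by
  obtain ⟨t, rfl⟩ := h1
  unfold gm
  rw [Finset.mem_image]
  refine ⟨t, ?_, mul_comm _ _⟩
  have h4 : (m J / m j) * m j = m J := Nat.div_mul_cancel (hm.dvd' hj)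
  have h5 : ((m J / m j : ℕ) : ℤ) * (m j : ℤ) = (m J : ℤ) := by exact_mod_cast h4
  have h6 : (0 : ℤ) < m j := by exact_mod_cast hm.pos j
  rw [Finset.mem_Ioo]
  constructor
  · refine lt_of_mul_lt_mul_right ?_ h6.le
    rw [neg_mul, h5, mul_comm t]
    exact h2
  · refine lt_of_mul_lt_mul_right ?_ h6.le
    rw [h5, mul_comm t]
    exact h3

lemma gm_chain (hm : Chain m) (J j : ℕ) :
    gm m J (j + 1) ⊆ gm m J j ∧ 2 * (gm m J (j + 1)).card ≤ (gm m J j).card := by
  rcases Nat.lt_or_ge J (j + 1) with h | h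
  · rw [gm_empty hm h]
    exact ⟨Finset.empty_subset _, by simp⟩
  have hj : j ≤ J := by omega
  constructor
  · intro d hd
    unfold gm at hd
    rw [Finset.mem_image] at hd
    obtain ⟨t, ht, rfl⟩ := hd
    rw [Finset.mem_Ioo] at ht
    have h4 : (m J / m (j + 1)) * m (j + 1) = m J := Nat.div_mul_cancel (hm.dvd' h)
    have h5 : ((m J / m (j + 1) : ℕ) : ℤ) * (m (j + 1) : ℤ) = (m J : ℤ) := by exact_mod_cast h4
    have h6 : (0 : ℤ) < m (j + 1) := by exact_mod_cast hm.pos (j + 1)
    refine mem_gm hm hj ?_ ?_ ?_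
    · have : (m j : ℤ) ∣ (m (j + 1) : ℤ) := by exact_mod_cast hm.dvd j
      exact this.mul_left t
    · rw [← h5, ← neg_mul]
      exact mul_lt_mul_of_pos_right ht.1 h6
    · rw [← h5]
      exact mul_lt_mul_of_pos_right ht.2 h6
  · rw [card_gm hm, card_gm hm]
    have h4 : (m J / m (j + 1)) * m (j + 1) = m J := Nat.div_mul_cancel (hm.dvd' h)
    have h5 : (m J / m j) * m j = m J := Nat.div_mul_cancel (hm.dvd' hj)
    have h7 : 2 * (m J / m (j + 1)) ≤ m J / m j := by
      rw [Nat.le_div_iff_mul_le (hm.pos j)]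
      calc 2 * (m J / m (j + 1)) * m j = (m J / m (j + 1)) * (2 * m j) := by ring
        _ ≤ (m J / m (j + 1)) * m (j + 1) := Nat.mul_le_mul le_rfl (hm.two j)
        _ = m J := h4
    have h8 : 0 < m J / m (j + 1) := Nat.div_pos (Nat.le_of_dvd (hm.pos _) (hm.dvd' h)) (hm.pos _)
    omega

/-- Few pairs of residues: a lower bound for the mean square. -/
theorem few_square' (hm : Chain m) (A D : Set ℕ) (f : ℕ → ℕ → ℕ)
    (hf : ∀ j, ∀ n ∈ D, f j n ≤ n ∧ f j n ∈ A ∧ n - f j n ∈ A) (J : ℕ) :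
    (num D (m J) : ℝ) ^ 2 * ∑ j ∈ Finset.range (J + 1),
        (m j : ℝ) / (((fun n => (n % m j, f j n % m j)) '' D).ncard : ℝ)
      ≤ 24 * m J * ∑ n ∈ Finset.range (2 * m J), (rep A n : ℝ) ^ 2 := by
  have hMr : (0 : ℝ) < m J := by exact_mod_cast hm.pos J
  have h1 := near_main A (m J) (gm m J) (gm_chain hm J) (J + 1)
  have h2 : (num D (m J) : ℝ) ^ 2 * ∑ j ∈ Finset.range (J + 1),
        (m j : ℝ) / (((fun n => (n % m j, f j n % m j)) '' D).ncard : ℝ) ≤
      (2 * m J) * ∑ j ∈ Finset.range (J + 1),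
        (near A (m J) (gm m J j) : ℝ) ^ 2 / ((gm m J j).card : ℝ) := by
    rw [Finset.mul_sum, Finset.mul_sum]
    refine Finset.sum_le_sum fun j hj => ?_
    have hjJ : j ≤ J := by
      have := Finset.mem_range.1 hj
      omega
    have hmj : (0 : ℝ) < m j := by exact_mod_cast hm.pos j
    have hk : 0 < m J / m j := Nat.div_pos (Nat.le_of_dvd (hm.pos _) (hm.dvd' hjJ)) (hm.pos _)
    have hc0 : (0 : ℝ) < ((gm m J j).card : ℝ) := by
      rw [card_gm hm]
      exact_mod_cast (by omega : 0 < 2 * (m J / m j) - 1)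
    have hc : ((gm m J j).card : ℝ) * m j ≤ 2 * m J := by
      have h4 : (m J / m j) * m j = m J := Nat.div_mul_cancel (hm.dvd' hjJ)
      have h5 : (gm m J j).card * m j ≤ 2 * m J := by
        rw [card_gm hm]
        calc (2 * (m J / m j) - 1) * m j ≤ (2 * (m J / m j)) * m j :=
              Nat.mul_le_mul (Nat.sub_le _ _) le_rfl
          _ = 2 * ((m J / m j) * m j) := by ring
          _ = 2 * m J := by rw [h4]
      exact_mod_cast h5
    rcases Nat.eq_zero_or_pos (((fun n => (n % m j, f j n % m j)) '' D).ncard) with h0 | h0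
    · rw [h0, Nat.cast_zero, div_zero, mul_zero]
      positivity
    -- the close pairs
    have h3 := agree_lower' (sec D (m J)) (f j) (m j) _ h0 (by
      rw [← Set.ncard_coe_finset]
      refine Set.ncard_le_ncard ?_ (finite_pairs hm D (f j) j)
      intro x hx
      rw [Finset.mem_coe, Finset.mem_image] at hx
      obtain ⟨n, hn, rfl⟩ := hx
      exact ⟨n, (mem_sec.1 hn).2, rfl⟩)
    rw [card_sec] at h3
    have h4 : agree (sec D (m J)) (f j) (fun a => a % m j) ≤
        close (sec D (m J)) (f j) (gm m J j) := by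
      refine Finset.card_le_card fun p hp => ?_
      rw [Finset.mem_filter, Finset.mem_product] at hp ⊢
      obtain ⟨⟨a1, a2⟩, a3, a4⟩ := hp
      refine ⟨⟨a1, a2⟩, ?_, ?_⟩
      · have b1 := (mem_sec.1 a1).1
        have b2 := (mem_sec.1 a2).1
        have b3 := (hf j _ (mem_sec.1 a1).2).1
        have b4 := (hf j _ (mem_sec.1 a2).2).1
        refine mem_gm hm hjJ ?_ (by omega) (by omega)
        have : f j p.2 ≡ f j p.1 [MOD m j] := a4.symm
        exact this.dvd
      · have b1 := (mem_sec.1 a1).1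
        have b2 := (mem_sec.1 a2).1
        have b3 := (hf j _ (mem_sec.1 a1).2).1
        have b4 := (hf j _ (mem_sec.1 a2).2).1
        refine mem_gm hm hjJ ?_ (by omega) (by omega)
        have c1 : f j p.2 ≡ f j p.1 [MOD m j] := a4.symm
        have c2 : p.2 ≡ p.1 [MOD m j] := a3.symm
        have c3 := dvd_sub c2.dvd c1.dvd
        have c4 : ((p.1 : ℤ) - p.2) - ((f j p.1 : ℤ) - f j p.2) =
            ((p.1 : ℤ) - f j p.1) - ((p.2 : ℤ) - f j p.2) := by ring
        rw [← c4]
        exact c3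
    have h5 := close_le A (m J) (gm m J j) (sec D (m J)) (f j) fun n hn =>
      ⟨(mem_sec.1 hn).1, hf j n (mem_sec.1 hn).2⟩
    have h6 : (agree (sec D (m J)) (f j) (fun a => a % m j) : ℝ) ≤
        (near A (m J) (gm m J j) : ℝ) ^ 2 := by exact_mod_cast h4.trans h5
    have h7 : ∀ P : ℝ, (num D (m J) : ℝ) ^ 2 * ((m j : ℝ) / P) =
        m j * ((num D (m J) : ℝ) ^ 2 / P) := fun P => by ring
    rw [h7]
    calc (m j : ℝ) * ((num D (m J) : ℝ) ^ 2 /
          (((fun n => (n % m j, f j n % m j)) '' D).ncard : ℝ))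
        ≤ m j * (near A (m J) (gm m J j) : ℝ) ^ 2 :=
          mul_le_mul_of_nonneg_left (h3.trans h6) hmj.le
      _ = (((gm m J j).card : ℝ) * m j) *
          ((near A (m J) (gm m J j) : ℝ) ^ 2 / ((gm m J j).card : ℝ)) := by
          field_simp
      _ ≤ _ := by gcongr
  calc _ ≤ _ := h2
    _ ≤ (2 * m J) * (12 * ∑ n ∈ Finset.range (2 * m J), (rep A n : ℝ) ^ 2) := by gcongr
    _ = _ := by ring

end Pool.Agent.Helper72.NS
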