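import Pool.Agent.Helper72.NS.Tile

/-! The inequality for sets of natural numbers: residue classes and intervals. -/

namespace Pool.Agent.Helper72.NS

open Finset
open scoped Pointwise

/-- representations by a finite set of natural numbers -/
def rpN (S : Finset ℕ) (n : ℕ) : ℕ := ((S ×ˢ S).filter (fun p => p.1 + p.2 = n)).card

/-- the same set of integers -/
def zs (S : Finset ℕ) : Finset ℤ := S.map Nat.castEmbedding

lemma mem_zs {S : Finset ℕ} {z : ℤ} : z ∈ zs S ↔ ∃ a ∈ S, (a : ℤ) = z := by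
  unfold zs
  simp

lemma card_zs (S : Finset ℕ) : (zs S).card = S.card := by
  unfold zs
  rw [Finset.card_map]

lemma rp_zs (S : Finset ℕ) (n : ℕ) : rp (zs S) n = rpN S n := by
  unfold rp rpN
  symm
  refine Finset.card_bij (fun p _ => ((p.1 : ℤ), (p.2 : ℤ))) ?_ ?_ ?_
  · rintro ⟨a, b⟩ h
    simp only [Finset.mem_filter, Finset.mem_product] at h ⊢
    refine ⟨⟨mem_zs.2 ⟨a, h.1.1, rfl⟩, mem_zs.2 ⟨b, h.1.2, rfl⟩⟩, ?_⟩
    exact_mod_cast h.2
  · rintro ⟨a, b⟩ _ ⟨c, d⟩ _ h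
    simp only [Prod.mk.injEq, Nat.cast_inj] at h
    exact Prod.ext h.1 h.2
  · rintro ⟨x, y⟩ h
    simp only [Finset.mem_filter, Finset.mem_product] at h
    obtain ⟨a, ha, rfl⟩ := mem_zs.1 h.1.1
    obtain ⟨b, hb, rfl⟩ := mem_zs.1 h.1.2
    refine ⟨(a, b), ?_, rfl⟩
    simp only [Finset.mem_filter, Finset.mem_product]
    exact ⟨⟨ha, hb⟩, by exact_mod_cast h.2⟩

lemma sum_rpN (S : Finset ℕ) (M : ℕ) (hM : ∀ a ∈ S, a < M) :
    ∑ n ∈ Finset.range (2 * M), rpN S n = S.card ^ 2 := by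
  unfold rpN
  rw [← Finset.card_eq_sum_card_fiberwise (f := fun p : ℕ × ℕ => p.1 + p.2)]
  · rw [Finset.card_product, sq]
  · rintro ⟨a, b⟩ h
    simp only [Finset.coe_product, Set.mem_prod, Finset.mem_coe, Finset.coe_range, Set.mem_Iio] at h ⊢
    have h1 := hM a h.1
    have h2 := hM b h.2
    omega

lemma cs_rpN (S : Finset ℕ) (M : ℕ) (hM : ∀ a ∈ S, a < M) :
    (S.card : ℝ) ^ 4 ≤ 2 * M * ∑ n ∈ Finset.range (2 * M), (rpN S n : ℝ) ^ 2 := by
  have h1 := sq_sum_le_card_mul_sum_sq (s := Finset.range (2 * M)) (f := fun n => (rpN S n : ℝ))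
  have h2 : ∑ n ∈ Finset.range (2 * M), (rpN S n : ℝ) = (S.card : ℝ) ^ 2 := by
    exact_mod_cast sum_rpN S M hM
  rw [h2, Finset.card_range] at h1
  push_cast at h1
  calc (S.card : ℝ) ^ 4 = ((S.card : ℝ) ^ 2) ^ 2 := by ring
    _ ≤ _ := h1

theorem tile_nat {P U : ℕ → Finset ℤ} {K : ℕ} (h : Tiles P U K) (S : Finset ℕ) (hS : S.Nonempty)
    (M : ℕ) (hM : ∀ a ∈ S, a < M) (hPK : (P K).card = M) (D : ℕ → ℕ)
    (hD : ∀ k < K, (zs S + (P k - P k)).card ≤ 3 * (P k).card * D k) :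
    (S.card : ℝ) ^ 4 * ∑ k ∈ Finset.range K, 1 / (((P k).card : ℝ) * (D k : ℝ) ^ 2)
      ≤ 486 * ∑ n ∈ Finset.range (2 * M), (rpN S n : ℝ) ^ 2 := by
  have hM0 : 0 < M := by
    obtain ⟨a, ha⟩ := hS
    have := hM a ha
    omega
  have hzs : (zs S).Nonempty := by
    rw [← Finset.card_pos, card_zs]
    exact Finset.card_pos.2 hS
  have hW : zs S + zs S ⊆ (Finset.range (2 * M)).map Nat.castEmbedding := by
    intro z hz
    obtain ⟨x, hx, y, hy, rfl⟩ := Finset.mem_add.1 hz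
    obtain ⟨a, ha, rfl⟩ := mem_zs.1 hx
    obtain ⟨b, hb, rfl⟩ := mem_zs.1 hy
    have h1 := hM a ha
    have h2 := hM b hb
    simp only [Finset.mem_map, Finset.mem_range]
    exact ⟨a + b, by omega, by simp⟩
  have hmain := h.main hzs hW
  rw [Finset.sum_map] at hmain
  simp only [Nat.castEmbedding_apply, rp_zs, card_zs, hPK] at hmain
  have hcs := cs_rpN S M hM
  have hMr : (0 : ℝ) < M := by exact_mod_cast hM0
  have h3 : 3 * (S.card : ℝ) ^ 4 / M ≤ 6 * ∑ n ∈ Finset.range (2 * M), (rpN S n : ℝ) ^ 2 := by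
    rw [div_le_iff₀ hMr]
    linarith
  have h4 : (1 / 9 : ℝ) * ∑ k ∈ Finset.range K, 1 / (((P k).card : ℝ) * (D k : ℝ) ^ 2)
      ≤ ∑ k ∈ Finset.range K, ((P k).card : ℝ) / ((zs S + (P k - P k)).card : ℝ) ^ 2 := by
    rw [Finset.mul_sum]
    refine Finset.sum_le_sum fun k hk => ?_
    have hk' := Finset.mem_range.1 hk
    have hp : (0 : ℝ) < (P k).card := by
      exact_mod_cast Finset.card_pos.2 (h.nonempty k hk'.le)
    have hw : (0 : ℝ) < (zs S + (P k - P k)).card := by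
      have : (zs S + (P k - P k)).Nonempty :=
        hzs.add ((h.nonempty k hk'.le).sub (h.nonempty k hk'.le))
      exact_mod_cast Finset.card_pos.2 this
    have h5 : ((zs S + (P k - P k)).card : ℝ) ≤ 3 * (P k).card * D k := by exact_mod_cast hD k hk'
    have hd : (0 : ℝ) < D k := by
      by_contra hd
      have : (D k : ℝ) = 0 := le_antisymm (not_lt.1 hd) (by positivity)
      rw [this, mul_zero] at h5
      linarith
    calc 1 / 9 * (1 / (((P k).card : ℝ) * (D k : ℝ) ^ 2))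
        = ((P k).card : ℝ) / (3 * (P k).card * D k) ^ 2 := by field_simp; norm_num
      _ ≤ _ := by gcongr
  have hN : (0 : ℝ) ≤ (S.card : ℝ) ^ 4 := by positivity
  have h6 := mul_le_mul_of_nonneg_left h4 hN
  linarith

end Pool.Agent.Helper72.NS
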