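import Pool.Agent.Helper72.NS.CollChain

/-! Choices of representations and mean squares. -/

namespace Pool.Agent.Helper72.NS

open Finset

variable {m : ℕ → ℕ}

/-- number of pairs of elements of `D` which agree under `φ` and whose values under `f` agree
under `φ` -/
def agree (D : Finset ℕ) (f : ℕ → ℕ) (φ : ℕ → ℕ) : ℕ :=
  ((D ×ˢ D).filter fun p => φ p.1 = φ p.2 ∧ φ (f p.1) = φ (f p.2)).card

/-- the chosen pairs of summands collide at most as often as all pairs -/
lemma pairs_le (S D : Finset ℕ) (f : ℕ → ℕ) (φ : ℕ → ℕ)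
    (hf : ∀ n ∈ D, f n ≤ n ∧ f n ∈ S ∧ n - f n ∈ S) :
    ((D ×ˢ D).filter fun p => φ (f p.1) = φ (f p.2) ∧
      φ (p.1 - f p.1) = φ (p.2 - f p.2)).card ≤ coll S φ ^ 2 := by
  unfold coll
  rw [sq, ← Finset.card_product]
  refine Finset.card_le_card_of_injOn
    (fun p => ((f p.1, f p.2), (p.1 - f p.1, p.2 - f p.2))) ?_ ?_
  · rintro ⟨n, n'⟩ hp
    rw [Finset.mem_coe, Finset.mem_filter, Finset.mem_product] at hp
    obtain ⟨⟨h1, h2⟩, h3, h4⟩ := hp
    have h5 := hf n h1
    have h6 := hf n' h2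
    simp only [Finset.coe_product, Set.mem_prod, Finset.mem_coe, Finset.mem_filter,
      Finset.mem_product]
    exact ⟨⟨⟨h5.2.1, h6.2.1⟩, h3⟩, ⟨h5.2.2, h6.2.2⟩, h4⟩
  · rintro ⟨n, n'⟩ hp ⟨k, k'⟩ hq h
    rw [Finset.mem_coe, Finset.mem_filter, Finset.mem_product] at hp hq
    have h1 := (hf n hp.1.1).1
    have h2 := (hf n' hp.1.2).1
    have h3 := (hf k hq.1.1).1
    have h4 := (hf k' hq.1.2).1
    simp only [Prod.mk.injEq] at h ⊢
    omega

/-- the number of pairs with equal labels is the sum of the squares of the class sizes -/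
lemma pairs_eq {α : Type*} [DecidableEq α] (D : Finset ℕ) (g : ℕ → α) (T : Finset α)
    (hT : ∀ n ∈ D, g n ∈ T) :
    ((D ×ˢ D).filter fun p => g p.1 = g p.2).card = ∑ c ∈ T, (D.filter fun n => g n = c).card ^ 2 := by
  rw [Finset.card_eq_sum_card_fiberwise (f := fun p : ℕ × ℕ => g p.1) (t := T)]
  · refine Finset.sum_congr rfl fun r _ => ?_
    rw [sq, ← Finset.card_product]
    congr 1
    ext ⟨a, b⟩
    simp only [Finset.mem_filter, Finset.mem_product]
    constructor
    · rintro ⟨⟨⟨h1, h2⟩, h3⟩, h4⟩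
      exact ⟨⟨h1, h4⟩, h2, h3 ▸ h4⟩
    · rintro ⟨⟨h1, h2⟩, h3, h4⟩
      exact ⟨⟨⟨h1, h3⟩, h2.trans h4.symm⟩, h2⟩
  · rintro ⟨a, b⟩ hp
    rw [Finset.mem_coe, Finset.mem_filter, Finset.mem_product] at hp
    exact hT _ hp.1.1

/-- a two valued refinement costs a factor of two -/
lemma pairs_two {α : Type*} [DecidableEq α] (D : Finset ℕ) (g : ℕ → α) (b : ℕ → Bool) :
    ((D ×ˢ D).filter fun p => g p.1 = g p.2).card ≤
      2 * ((D ×ˢ D).filter fun p => (g p.1, b p.1) = (g p.2, b p.2)).card := by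
  rw [pairs_eq D g (D.image g) fun n hn => Finset.mem_image_of_mem g hn,
    pairs_eq D (fun n => (g n, b n)) (D.image g ×ˢ Finset.univ) fun n hn =>
      Finset.mem_product.2 ⟨Finset.mem_image_of_mem g hn, Finset.mem_univ _⟩,
    Finset.sum_product, Finset.mul_sum]
  refine Finset.sum_le_sum fun c _ => ?_
  rw [Fintype.sum_bool]
  have h1 : (D.filter fun n => g n = c).card =
      (D.filter fun n => (g n, b n) = (c, true)).card +
      (D.filter fun n => (g n, b n) = (c, false)).card := by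
    rw [← Finset.card_filter_add_card_filter_not (s := D.filter fun n => g n = c)
      (fun n => b n = true)]
    rw [Finset.filter_filter, Finset.filter_filter]
    congr 2
    · ext n
      simp only [Finset.mem_filter, Prod.mk.injEq]
    · ext n
      simp only [Finset.mem_filter, Prod.mk.injEq, Bool.not_eq_true]
  rw [h1]
  set x := (D.filter fun n => (g n, b n) = (c, true)).card
  set y := (D.filter fun n => (g n, b n) = (c, false)).card
  have h2 : ((x : ℤ) + y) ^ 2 ≤ 2 * ((x : ℤ) ^ 2 + (y : ℤ) ^ 2) := by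
    nlinarith [sq_nonneg ((x : ℤ) - y)]
  exact_mod_cast h2

/-- Cauchy-Schwarz: labels which are determined by few other labels agree often -/
lemma pairs_lower {α : Type*} [DecidableEq α] (D : Finset ℕ) (g : ℕ → α) (G : ℕ → ℕ) (B : ℕ)
    (hG : ∀ n ∈ D, G n < B) (h : ∀ n ∈ D, ∀ n' ∈ D, G n = G n' → g n = g n') :
    D.card ^ 2 ≤ B * ((D ×ˢ D).filter fun p => g p.1 = g p.2).card := by
  have h1 : ((D ×ˢ D).filter fun p => G p.1 = G p.2).card ≤
      ((D ×ˢ D).filter fun p => g p.1 = g p.2).card := by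
    refine Finset.card_le_card fun p hp => ?_
    rw [Finset.mem_filter, Finset.mem_product] at hp ⊢
    exact ⟨hp.1, h _ hp.1.1 _ hp.1.2 hp.2⟩
  refine le_trans ?_ (Nat.mul_le_mul le_rfl h1)
  rw [pairs_eq D G (Finset.range B) fun n hn => Finset.mem_range.2 (hG n hn)]
  have h2 : D.card = ∑ c ∈ Finset.range B, (D.filter fun n => G n = c).card :=
    Finset.card_eq_sum_card_fiberwise fun n hn => by
      rw [Finset.mem_coe, Finset.mem_range]
      exact hG n hn
  have h3 := sq_sum_le_card_mul_sum_sq (s := Finset.range B)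
    (f := fun c => (D.filter fun n => G n = c).card)
  rw [Finset.card_range] at h3
  rw [h2]
  exact h3

/-- residues agree: the two summands agree -/
lemma agree_mod (S D : Finset ℕ) (f : ℕ → ℕ) (k : ℕ)
    (hf : ∀ n ∈ D, f n ≤ n ∧ f n ∈ S ∧ n - f n ∈ S) :
    agree D f (fun a => a % k) ≤ (coll S fun a => a % k) ^ 2 := by
  refine le_trans (Finset.card_le_card fun p hp => ?_) (pairs_le S D f (fun a => a % k) hf)
  rw [Finset.mem_filter, Finset.mem_product] at hp ⊢
  obtain ⟨⟨h1, h2⟩, h3, h4⟩ := hp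
  refine ⟨⟨h1, h2⟩, h4, ?_⟩
  have h5 := (hf _ h1).1
  have h6 := (hf _ h2).1
  have h7 : (p.1 - f p.1) + f p.1 ≡ (p.2 - f p.2) + f p.2 [MOD k] := by
    rw [Nat.sub_add_cancel h5, Nat.sub_add_cancel h6]
    exact h3
  exact Nat.ModEq.add_right_cancel h4 h7

/-- the quotient of a difference -/
lemma sub_div_eq (k x Y : ℕ) (hY : 0 < Y) (hk : x ≤ k) :
    (k - x) / Y = k / Y - x / Y - (if k % Y < x % Y then 1 else 0) := by
  have g1 := Nat.div_add_mod k Y
  have g2 := Nat.div_add_mod x Y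
  have g3 := Nat.mod_lt k hY
  have g4 := Nat.mod_lt x hY
  have g5 : x / Y ≤ k / Y := Nat.div_le_div_right hk
  generalize k / Y = a at *
  generalize x / Y = b at *
  generalize k % Y = r at *
  generalize x % Y = s at *
  obtain ⟨c, hc⟩ := Nat.exists_eq_add_of_le g5
  have e9 : Y * a = Y * b + Y * c := by rw [hc, mul_add]
  have g6 : k - x = Y * c + r - s := by omega
  split_ifs with hlt
  · have g7 : 1 ≤ c := by
      by_contra h0
      have h0' : c = 0 := by omega
      have e10 : Y * c = 0 := by rw [h0', mul_zero]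
      omega
    obtain ⟨c', hc'⟩ := Nat.exists_eq_add_of_le g7
    have e11 : Y * c = Y + Y * c' := by rw [hc', mul_add, mul_one]
    have g8 : k - x = Y * c' + (Y + r - s) := by omega
    rw [g8, Nat.mul_add_div hY, Nat.div_eq_of_lt (by omega)]
    omega
  · have g8 : k - x = Y * c + (r - s) := by omega
    rw [g8, Nat.mul_add_div hY, Nat.div_eq_of_lt (by omega)]
    omega

/-- leading parts agree: up to a carry the two summands agree -/
lemma agree_div (S D : Finset ℕ) (f : ℕ → ℕ) (Y : ℕ) (hY : 0 < Y)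
    (hf : ∀ n ∈ D, f n ≤ n ∧ f n ∈ S ∧ n - f n ∈ S) :
    agree D f (fun a => a / Y) ≤ 2 * (coll S fun a => a / Y) ^ 2 := by
  have h0 : agree D f (fun a => a / Y) =
      ((D ×ˢ D).filter fun p => (p.1 / Y, f p.1 / Y) = (p.2 / Y, f p.2 / Y)).card := by
    unfold agree
    congr 1
    ext p
    simp only [Finset.mem_filter, Prod.mk.injEq]
  rw [h0]
  refine le_trans (pairs_two D (fun n => (n / Y, f n / Y)) fun n => decide (n % Y < f n % Y)) ?_
  refine Nat.mul_le_mul le_rfl ?_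
  refine le_trans (Finset.card_le_card fun p hp => ?_) (pairs_le S D f (fun a => a / Y) hf)
  rw [Finset.mem_filter, Finset.mem_product] at hp ⊢
  obtain ⟨⟨h1, h2⟩, h3⟩ := hp
  simp only [Prod.mk.injEq, decide_eq_decide] at h3
  obtain ⟨⟨h4, h5⟩, h6⟩ := h3
  refine ⟨⟨h1, h2⟩, h5, ?_⟩
  rw [sub_div_eq _ _ _ hY (hf _ h1).1, sub_div_eq _ _ _ hY (hf _ h2).1, h4, h5]
  by_cases c1 : p.1 % Y < f p.1 % Y
  · rw [if_pos c1, if_pos (h6.1 c1)]
  · rw [if_neg c1, if_neg fun c2 => c1 (h6.2 c2)]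

lemma sum_rep_sq (A : Set ℕ) (x : ℕ) :
    ∑ n ∈ Finset.range (2 * x), (rpN (sec A x) n : ℝ) ^ 2 ≤
      ∑ n ∈ Finset.range (2 * x), (rep A n : ℝ) ^ 2 := by
  refine Finset.sum_le_sum fun n _ => ?_
  have h3 : (rpN (sec A x) n : ℝ) ≤ rep A n := by exact_mod_cast rpN_le_rep A x n
  gcongr

lemma mem_sec_of {A : Set ℕ} {x n a : ℕ} (hn : n < x) (ha : a ≤ n) (h1 : a ∈ A)
    (h2 : n - a ∈ A) : a ≤ n ∧ a ∈ sec A x ∧ n - a ∈ sec A x :=
  ⟨ha, mem_sec.2 ⟨by omega, h1⟩, mem_sec.2 ⟨by omega, h2⟩⟩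

/-- Residues: the mean square of the number of representations is at least the sum of the
agreement probabilities of the chosen summands. -/
theorem square_mod (hm : Chain m) (A : Set ℕ) (J : ℕ) (D : ℕ → Finset ℕ) (f : ℕ → ℕ → ℕ)
    (hf : ∀ j, ∀ n ∈ D j, n < m J ∧ f j n ≤ n ∧ f j n ∈ A ∧ n - f j n ∈ A) :
    ∑ j ∈ Finset.Icc 1 J, (m j : ℝ) * agree (D j) (f j) (fun a => a % m j)
      ≤ 486 * m J * ∑ n ∈ Finset.range (2 * m J), (rep A n : ℝ) ^ 2 := by
  have h1 := coll_low hm J (sec A (m J)) fun a ha => (mem_sec.1 ha).1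
  have h2 := sum_rep_sq A (m J)
  calc ∑ j ∈ Finset.Icc 1 J, (m j : ℝ) * agree (D j) (f j) (fun a => a % m j)
      ≤ ∑ j ∈ Finset.Icc 1 J, (m j : ℝ) * (coll (sec A (m J)) fun a => a % m j) ^ 2 := by
        refine Finset.sum_le_sum fun j _ => ?_
        have h3 : (agree (D j) (f j) (fun a => a % m j) : ℝ) ≤
            ((coll (sec A (m J)) fun a => a % m j) ^ 2 : ℕ) := by
          exact_mod_cast agree_mod (sec A (m J)) (D j) (f j) (m j) fun n hn => by
            obtain ⟨a1, a2, a3, a4⟩ := hf j n hn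
            exact mem_sec_of a1 a2 a3 a4
        push_cast at h3
        gcongr
    _ ≤ _ := h1
    _ ≤ _ := by gcongr

/-- Leading parts: the same with a factor of two. -/
theorem square_div (hm : Chain m) (A : Set ℕ) (J : ℕ) (D : ℕ → Finset ℕ) (f : ℕ → ℕ → ℕ)
    (hf : ∀ j, ∀ n ∈ D j, n < m J ∧ f j n ≤ n ∧ f j n ∈ A ∧ n - f j n ∈ A) :
    ∑ j ∈ Finset.Icc 1 J, (m j : ℝ) * agree (D j) (f j) (fun a => a / (m J / m j))
      ≤ 972 * m J * ∑ n ∈ Finset.range (2 * m J), (rep A n : ℝ) ^ 2 := by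
  have h1 := coll_high hm J (sec A (m J)) fun a ha => (mem_sec.1 ha).1
  have h2 := sum_rep_sq A (m J)
  calc ∑ j ∈ Finset.Icc 1 J, (m j : ℝ) * agree (D j) (f j) (fun a => a / (m J / m j))
      ≤ ∑ j ∈ Finset.Icc 1 J, (m j : ℝ) *
          (2 * (coll (sec A (m J)) fun a => a / (m J / m j)) ^ 2) := by
        refine Finset.sum_le_sum fun j hj => ?_
        have hY : 0 < m J / m j :=
          Nat.div_pos (Nat.le_of_dvd (hm.pos _) (hm.dvd' (Finset.mem_Icc.1 hj).2)) (hm.pos _)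
        have h3 : (agree (D j) (f j) (fun a => a / (m J / m j)) : ℝ) ≤
            (2 * (coll (sec A (m J)) fun a => a / (m J / m j)) ^ 2 : ℕ) := by
          exact_mod_cast agree_div (sec A (m J)) (D j) (f j) (m J / m j) hY fun n hn => by
            obtain ⟨a1, a2, a3, a4⟩ := hf j n hn
            exact mem_sec_of a1 a2 a3 a4
        push_cast at h3
        gcongr
    _ = 2 * ∑ j ∈ Finset.Icc 1 J, (m j : ℝ) *
          (coll (sec A (m J)) fun a => a / (m J / m j)) ^ 2 := by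
        rw [Finset.mul_sum]
        refine Finset.sum_congr rfl fun j _ => ?_
        ring
    _ ≤ 2 * (486 * m J * ∑ n ∈ Finset.range (2 * m J), (rpN (sec A (m J)) n : ℝ) ^ 2) := by
        gcongr
    _ ≤ 2 * (486 * m J * ∑ n ∈ Finset.range (2 * m J), (rep A n : ℝ) ^ 2) := by gcongr
    _ = _ := by ring

end Pool.Agent.Helper72.NS
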