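import Pool.Agent.Helper72.NS.Look

/-! Differences in a decreasing sequence of sets, and the additive energy. -/

namespace Pool.Agent.Helper72.NS

open Finset Filter

/-- The shell inequality. -/
lemma shell (r : ℤ → ℝ) (G : ℕ → Finset ℤ)
    (hG : ∀ j, G (j + 1) ⊆ G j ∧ 2 * (G (j + 1)).card ≤ (G j).card) (K : ℕ) :
    ∑ j ∈ Finset.range K, (∑ d ∈ G j, r d) ^ 2 / ((G j).card : ℝ) ≤
      12 * ∑ d ∈ G 0, r d ^ 2 := by
  set e : ℕ → ℝ := fun j => ∑ d ∈ G j, r d with he
  set U : ℕ → ℝ := fun j => ∑ d ∈ G j, r d ^ 2 with hU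
  set X : ℕ → ℝ := fun j => e j ^ 2 / ((G j).card : ℝ) with hX
  have hX0 : ∀ j, 0 ≤ X j := fun j => by positivity
  have hU0 : ∀ j, 0 ≤ U j := fun j => Finset.sum_nonneg fun d _ => sq_nonneg _
  have hXU : ∀ j, X j ≤ U j := by
    intro j
    rcases (G j).eq_empty_or_nonempty with h0 | h0
    · rw [hX]
      simp only [h0, Finset.card_empty, Nat.cast_zero, div_zero]
      exact hU0 j
    · have h1 : (0 : ℝ) < ((G j).card : ℝ) := by exact_mod_cast Finset.card_pos.2 h0
      rw [hX]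
      simp only
      rw [div_le_iff₀ h1, mul_comm]
      exact sq_sum_le_card_mul_sum_sq
  have hstep : ∀ j, X j ≤ 7 / 2 * (U j - U (j + 1)) + 7 / 10 * X (j + 1) := by
    intro j
    have hsub := (hG j).1
    have hc : 2 * ((G (j + 1)).card : ℝ) ≤ ((G j).card : ℝ) := by exact_mod_cast (hG j).2
    have hs1 : ∑ d ∈ G j \ G (j + 1), r d + e (j + 1) = e j := Finset.sum_sdiff hsub
    have hs2 : ∑ d ∈ G j \ G (j + 1), r d ^ 2 + U (j + 1) = U j := Finset.sum_sdiff hsub
    set s := ∑ d ∈ G j \ G (j + 1), r d with hs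
    have hcs : s ^ 2 ≤ ((G j \ G (j + 1)).card : ℝ) * ∑ d ∈ G j \ G (j + 1), r d ^ 2 :=
      sq_sum_le_card_mul_sum_sq
    have hu : ∑ d ∈ G j \ G (j + 1), r d ^ 2 = U j - U (j + 1) := by linarith
    have hu0 : 0 ≤ U j - U (j + 1) := by
      rw [← hu]
      exact Finset.sum_nonneg fun d _ => sq_nonneg _
    rw [hu] at hcs
    have hcard : ((G j \ G (j + 1)).card : ℝ) ≤ ((G j).card : ℝ) := by
      exact_mod_cast Finset.card_le_card Finset.sdiff_subset
    have hs' : s ^ 2 ≤ ((G j).card : ℝ) * (U j - U (j + 1)) :=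
      hcs.trans (mul_le_mul_of_nonneg_right hcard hu0)
    have hsq : e j ^ 2 ≤ 7 / 2 * s ^ 2 + 7 / 5 * e (j + 1) ^ 2 := by
      rw [← hs1]
      nlinarith [sq_nonneg (5 * s - 2 * e (j + 1))]
    rcases Nat.eq_zero_or_pos (G j).card with h0 | h0
    · have h1 : X j = 0 := by
        rw [hX]
        simp only [h0, Nat.cast_zero, div_zero]
      rw [h1]
      have := hX0 (j + 1)
      positivity
    have h0r : (0 : ℝ) < ((G j).card : ℝ) := by exact_mod_cast h0
    have h2 : 7 / 5 * e (j + 1) ^ 2 ≤ 7 / 10 * X (j + 1) * ((G j).card : ℝ) := by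
      rcases Nat.eq_zero_or_pos (G (j + 1)).card with h3 | h3
      · have h4 : G (j + 1) = ∅ := Finset.card_eq_zero.1 h3
        have h5 : e (j + 1) = 0 := by
          rw [he]
          simp only [h4, Finset.sum_empty]
        have h6 := hX0 (j + 1)
        calc 7 / 5 * e (j + 1) ^ 2 = 0 := by rw [h5]; norm_num
          _ ≤ _ := by positivity
      · have h3r : (0 : ℝ) < ((G (j + 1)).card : ℝ) := by exact_mod_cast h3
        have h4 : X (j + 1) * ((G (j + 1)).card : ℝ) = e (j + 1) ^ 2 := by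
          rw [hX]
          simp only
          field_simp
        calc 7 / 5 * e (j + 1) ^ 2 = 7 / 10 * X (j + 1) * (2 * ((G (j + 1)).card : ℝ)) := by
              rw [← h4]; ring
          _ ≤ 7 / 10 * X (j + 1) * ((G j).card : ℝ) := by
              have := hX0 (j + 1)
              gcongr
    rw [hX]
    simp only
    rw [div_le_iff₀ h0r]
    calc e j ^ 2 ≤ 7 / 2 * s ^ 2 + 7 / 5 * e (j + 1) ^ 2 := hsq
      _ ≤ 7 / 2 * (((G j).card : ℝ) * (U j - U (j + 1))) +
          7 / 10 * X (j + 1) * ((G j).card : ℝ) := by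
          have := hs'
          linarith
      _ = _ := by ring
  have hsum : ∑ j ∈ Finset.range K, X j ≤
      7 / 2 * (U 0 - U K) + 7 / 10 * (∑ j ∈ Finset.range K, X j + X K - X 0) := by
    have h1 : ∑ j ∈ Finset.range K, (U j - U (j + 1)) = U 0 - U K :=
      Finset.sum_range_sub' U K
    have h2 : ∑ j ∈ Finset.range K, X (j + 1) = ∑ j ∈ Finset.range K, X j + X K - X 0 := by
      have h3 := Finset.sum_range_succ X K
      have h4 := Finset.sum_range_succ' X K
      linarith
    calc ∑ j ∈ Finset.range K, X j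
        ≤ ∑ j ∈ Finset.range K, (7 / 2 * (U j - U (j + 1)) + 7 / 10 * X (j + 1)) :=
          Finset.sum_le_sum fun j _ => hstep j
      _ = 7 / 2 * ∑ j ∈ Finset.range K, (U j - U (j + 1)) +
          7 / 10 * ∑ j ∈ Finset.range K, X (j + 1) := by
          rw [Finset.sum_add_distrib, ← Finset.mul_sum, ← Finset.mul_sum]
      _ = _ := by rw [h1, h2]
  have h1 := hXU K
  have h2 := hX0 0
  have h3 := hU0 K
  have h4 := hU0 0
  show ∑ j ∈ Finset.range K, X j ≤ 12 * U 0
  linarith

end Pool.Agent.Helper72.NS
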