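import Pool.Agent.Helper72.NS.Conc

/-! The energy inequality along a chain of tiles. -/

namespace Pool.Agent.Helper72.NS

open Finset
open scoped Pointwise

lemma supp_mul (a b : ZA) : (a * b).coeff.support ⊆ a.coeff.support + b.coeff.support :=
  AddMonoidAlgebra.support_coeff_mul_subset a b

lemma supp_sg (a : ZA) : (sg a).coeff.support ⊆ -a.coeff.support := by
  intro n hn
  rw [Finsupp.mem_support_iff, sg_coeff] at hn
  rw [Finset.mem_neg']
  exact Finsupp.mem_support_iff.2 hn

/-- chain of tiles -/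
structure Tiles (P U : ℕ → Finset ℤ) (K : ℕ) : Prop where
  zero : P 0 = {0}
  succ : ∀ k < K, P (k + 1) = P k + U k
  card : ∀ k < K, (P (k + 1)).card = (P k).card * (U k).card
  two : ∀ k < K, 2 ≤ (U k).card

variable {P U : ℕ → Finset ℤ} {K : ℕ}

lemma Tiles.nonempty (h : Tiles P U K) : ∀ k ≤ K, (P k).Nonempty := by
  intro k
  induction k with
  | zero => intro _; rw [h.zero]; exact Finset.singleton_nonempty 0
  | succ k ih =>
    intro hk
    rw [h.succ k (by omega)]
    refine (ih (by omega)).add ?_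
    rw [← Finset.card_pos]
    have := h.two k (by omega)
    omega

lemma Tiles.uNonempty (h : Tiles P U K) (k : ℕ) (hk : k < K) : (U k).Nonempty := by
  rw [← Finset.card_pos]
  have := h.two k hk
  omega

lemma un_zero : un {0} = 1 := by
  unfold un
  simp

/-- the uniform measure of a direct sum -/
lemma un_add (X Y : Finset ℤ) (h : (X + Y).card = X.card * Y.card) :
    un (X + Y) = un X * un Y := by
  have hinj : Set.InjOn (fun p : ℤ × ℤ => p.1 + p.2) (X ×ˢ Y : Finset (ℤ × ℤ)) := by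
    rw [← Finset.card_image_iff]
    have : Finset.image (fun p : ℤ × ℤ => p.1 + p.2) (X ×ˢ Y) = X + Y := rfl
    rw [this, h, Finset.card_product]
  have h1 : un (X + Y) = ∑ p ∈ X ×ˢ Y, AddMonoidAlgebra.single (p.1 + p.2) (((X + Y).card : ℝ)⁻¹) := by
    unfold un
    have h2 : X + Y = Finset.image (fun p : ℤ × ℤ => p.1 + p.2) (X ×ˢ Y) := rfl
    conv_lhs => rw [h2]
    rw [Finset.sum_image hinj, ← h2]
  rw [h1, Finset.sum_product]
  unfold un
  rw [Finset.sum_mul_sum]
  refine Finset.sum_congr rfl fun x _ => Finset.sum_congr rfl fun y _ => ?_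
  rw [AddMonoidAlgebra.single_mul_single, h]
  push_cast
  rw [mul_inv]

/-- the autocorrelation of the k-th tile -/
noncomputable def ker (P : ℕ → Finset ℤ) (k : ℕ) : ZA := un (P k) * sg (un (P k))

lemma sg_ker (k : ℕ) : sg (ker P k) = ker P k := by
  unfold ker
  rw [map_mul, pos_ZA.inv, mul_comm]

lemma Tiles.ker_succ (h : Tiles P U K) (k : ℕ) (hk : k < K) :
    ker P (k + 1) = un (U k) * sg (un (U k)) * ker P k := by
  unfold ker
  have hc := h.card k hk
  rw [h.succ k hk] at hc ⊢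
  rw [un_add _ _ hc, map_mul]
  ring

lemma Tiles.ker_zero (h : Tiles P U K) : ker P 0 = 1 := by
  unfold ker
  rw [h.zero, un_zero, map_one, one_mul]

lemma Tiles.tr_ker (h : Tiles P U K) (k : ℕ) (hk : k ≤ K) :
    tr (ker P k ^ 2) ≤ ((P k).card : ℝ)⁻¹ := by
  have h1 := contr_un (P k) (un (P k))
  rw [tr_un (h.nonempty k hk)] at h1
  have h2 : ker P k ^ 2 = un (P k) * sg (un (P k)) * (un (P k) * sg (un (P k))) := by
    unfold ker; ring
  rw [h2]
  exact h1

/-- second moment of F smoothed at scale k -/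
noncomputable def am (P : ℕ → Finset ℤ) (F : ZA) (k : ℕ) : ℝ := tr (ker P k ^ 2 * (F * sg F))

/-- energy of F smoothed at scale k -/
noncomputable def em (P : ℕ → Finset ℤ) (F : ZA) (k : ℕ) : ℝ := tr (ker P k ^ 2 * (F * sg F) ^ 2)

lemma em_nonneg (F : ZA) (k : ℕ) : 0 ≤ em P F k := by
  unfold em
  have h1 := pos_ZA.pos (ker P k * (F * sg F))
  have h2 : ker P k * (F * sg F) * sg (ker P k * (F * sg F)) = ker P k ^ 2 * (F * sg F) ^ 2 := by
    rw [map_mul, sg_ker, map_mul, pos_ZA.inv]; ring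
  rwa [h2] at h1

lemma am_nonneg (F : ZA) (k : ℕ) : 0 ≤ am P F k := by
  unfold am
  have h1 := pos_ZA.pos (ker P k * F)
  have h2 : ker P k * F * sg (ker P k * F) = ker P k ^ 2 * (F * sg F) := by
    rw [map_mul, sg_ker]; ring
  rwa [h2] at h1

/-- Hardy step -/
lemma Tiles.hardy (h : Tiles P U K) (F : ZA) (k : ℕ) (hk : k < K) :
    4 * (((P k).card : ℝ) * am P F k ^ 2)
      ≤ 3 * (((P (k + 1)).card : ℝ) * am P F (k + 1) ^ 2) + 48 * (em P F k - em P F (k + 1)) := by
  obtain ⟨hs, hm⟩ := pos_ZA.step F (un (U k)) (ker P k) (sg_ker k) (contr_un (U k))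
  rw [← h.ker_succ k hk] at hs hm
  change (am P F k - am P F (k + 1)) ^ 2 ≤ 4 * tr (ker P k ^ 2) * (em P F k - em P F (k + 1)) at hs
  change am P F (k + 1) ≤ am P F k at hm
  have hp : (0 : ℝ) < (P k).card := by
    exact_mod_cast Finset.card_pos.2 (h.nonempty k hk.le)
  have hp2 : 2 * ((P k).card : ℝ) ≤ ((P (k + 1)).card : ℝ) := by
    rw [h.card k hk]
    push_cast
    have : (2 : ℝ) ≤ (U k).card := by exact_mod_cast h.two k hk
    nlinarith
  have ht := h.tr_ker k hk.le
  have hK2 : 0 ≤ tr (ker P k ^ 2) := by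
    have h1 := pos_ZA.pos (ker P k)
    rw [sg_ker] at h1
    have h2 : ker P k ^ 2 = ker P k * ker P k := sq _
    rw [h2]; exact h1
  -- energies decrease
  have hd : ((P k).card : ℝ) * (am P F k - am P F (k + 1)) ^ 2 ≤ 4 * (em P F k - em P F (k + 1)) := by
    have he : 0 ≤ em P F k - em P F (k + 1) := by
      by_contra hneg
      push Not at hneg
      rcases eq_or_lt_of_le hK2 with h0 | h0
      · -- degenerate case cannot occur, since the trace of the square is positive
        have h3 := inv_card_le (ker P k) ?_ (P k + -(P k)) ?_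
        · rw [sg_ker, ← sq, ← h0] at h3
          have h4 : (P k + -(P k)).Nonempty := (h.nonempty k hk.le).add (h.nonempty k hk.le).neg
          have h5 : (0 : ℝ) < ((P k + -(P k)).card : ℝ)⁻¹ := by
            have : 0 < (P k + -(P k)).card := Finset.card_pos.2 h4
            positivity
          linarith
        · unfold ker
          rw [map_mul, mass_un (h.nonempty k hk.le), mass_sg_un (h.nonempty k hk.le), one_mul]
        · unfold ker
          refine (supp_mul _ _).trans (Finset.add_subset_add (supp_un _) ?_)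
          exact (supp_sg _).trans (Finset.neg_subset_neg (supp_un _))
      · have h6 : 4 * tr (ker P k ^ 2) * (em P F k - em P F (k + 1)) < 0 :=
          mul_neg_of_pos_of_neg (by positivity) hneg
        have := sq_nonneg (am P F k - am P F (k + 1))
        linarith
    calc ((P k).card : ℝ) * (am P F k - am P F (k + 1)) ^ 2
        ≤ (P k).card * (4 * tr (ker P k ^ 2) * (em P F k - em P F (k + 1))) := by gcongr
      _ ≤ (P k).card * (4 * ((P k).card : ℝ)⁻¹ * (em P F k - em P F (k + 1))) := by gcongr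
      _ = 4 * (em P F k - em P F (k + 1)) := by field_simp
  have hA := am_nonneg (P := P) F (k + 1)
  set x := am P F k
  set y := am P F (k + 1)
  have h7 : x ^ 2 ≤ (3 / 2) * y ^ 2 + 3 * (x - y) ^ 2 := by nlinarith [sq_nonneg (3 * y - 2 * x)]
  calc 4 * (((P k).card : ℝ) * x ^ 2)
      ≤ 4 * (((P k).card : ℝ) * ((3 / 2) * y ^ 2 + 3 * (x - y) ^ 2)) := by gcongr
    _ = 3 * (2 * ((P k).card : ℝ)) * y ^ 2 + 12 * (((P k).card : ℝ) * (x - y) ^ 2) := by ring
    _ ≤ 3 * ((P (k + 1)).card : ℝ) * y ^ 2 + 12 * (4 * (em P F k - em P F (k + 1))) := by gcongr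
    _ = _ := by ring

lemma Tiles.sum_le (h : Tiles P U K) (F : ZA) : ∀ k ≤ K,
    ∑ i ∈ Finset.range k, ((P i).card : ℝ) * am P F i ^ 2
      ≤ 3 * (((P k).card : ℝ) * am P F k ^ 2) + 48 * (em P F 0 - em P F k) := by
  intro k
  induction k with
  | zero =>
    intro _
    simp only [Finset.range_zero, Finset.sum_empty, sub_self, mul_zero, add_zero]
    positivity
  | succ k ih =>
    intro hk
    rw [Finset.sum_range_succ]
    have h1 := ih (by omega)
    have h2 := h.hardy F k (by omega)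
    linarith

/-- number of ordered representations by a finite set -/
def rp (S : Finset ℤ) (n : ℤ) : ℕ := ((S ×ˢ S).filter (fun p => p.1 + p.2 = n)).card

lemma un_sq_coeff (S : Finset ℤ) (n : ℤ) :
    (un S * un S).coeff n = (rp S n : ℝ) * ((S.card : ℝ)⁻¹) ^ 2 := by
  have h1 : un S * un S = ∑ p ∈ S ×ˢ S, AddMonoidAlgebra.single (p.1 + p.2) (((S.card : ℝ)⁻¹) ^ 2) := by
    unfold un
    rw [Finset.sum_mul_sum, Finset.sum_product]
    refine Finset.sum_congr rfl fun x _ => Finset.sum_congr rfl fun y _ => ?_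
    rw [AddMonoidAlgebra.single_mul_single, sq]
  rw [h1, AddMonoidAlgebra.coeff_sum, Finsupp.finsetSum_apply]
  have h2 : ∀ p ∈ S ×ˢ S, (AddMonoidAlgebra.single (p.1 + p.2) (((S.card : ℝ)⁻¹) ^ 2) : ZA).coeff n
      = if p.1 + p.2 = n then ((S.card : ℝ)⁻¹) ^ 2 else 0 := by
    intro p _
    rw [AddMonoidAlgebra.coeff_single, Finsupp.single_apply]
  rw [Finset.sum_congr rfl h2, ← Finset.sum_filter, Finset.sum_const, nsmul_eq_mul]
  rfl

lemma em_zero (h : Tiles P U K) (S : Finset ℤ) (W : Finset ℤ) (hW : S + S ⊆ W) :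
    em P (un S) 0 = (∑ n ∈ W, (rp S n : ℝ) ^ 2) * ((S.card : ℝ)⁻¹) ^ 4 := by
  unfold em
  rw [h.ker_zero, one_pow, one_mul]
  have h1 : (un S * sg (un S)) ^ 2 = (un S * un S) * sg (un S * un S) := by
    rw [map_mul]; ring
  rw [h1, tr_sq]
  have h2 : ∑ n ∈ (un S * un S).coeff.support, (un S * un S).coeff n ^ 2
      = ∑ n ∈ W, (un S * un S).coeff n ^ 2 := by
    refine Finset.sum_subset ?_ fun n _ hn => ?_
    · exact ((supp_mul _ _).trans (Finset.add_subset_add (supp_un _) (supp_un _))).trans hW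
    · have : (un S * un S).coeff n = 0 := by
        by_contra h
        exact hn (Finsupp.mem_support_iff.2 h)
      rw [this]
      ring
  rw [h2, Finset.sum_mul]
  refine Finset.sum_congr rfl fun n _ => ?_
  rw [un_sq_coeff]
  ring

lemma Tiles.am_lower (h : Tiles P U K) {S : Finset ℤ} (hS : S.Nonempty) (k : ℕ) (hk : k ≤ K) :
    ((S + (P k - P k)).card : ℝ)⁻¹ ≤ am P (un S) k := by
  have h1 : am P (un S) k = tr ((ker P k * un S) * sg (ker P k * un S)) := by
    have e : (ker P k * un S) * sg (ker P k * un S) = ker P k ^ 2 * (un S * sg (un S)) := by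
      rw [map_mul sg, sg_ker]; ring
    rw [e]
    rfl
  rw [h1]
  refine inv_card_le _ ?_ _ ?_
  · unfold ker
    rw [map_mul, map_mul, mass_un (h.nonempty k hk), mass_sg_un (h.nonempty k hk), mass_un hS]
    norm_num
  · unfold ker
    refine (supp_mul _ _).trans ?_
    rw [add_comm S]
    refine Finset.add_subset_add ?_ (supp_un _)
    rw [sub_eq_add_neg]
    refine (supp_mul _ _).trans (Finset.add_subset_add (supp_un _) ?_)
    exact (supp_sg _).trans (Finset.neg_subset_neg (supp_un _))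

lemma Tiles.am_upper (h : Tiles P U K) (S : Finset ℤ) (k : ℕ) (hk : k ≤ K) :
    am P (un S) k ≤ ((P k).card : ℝ)⁻¹ := by
  refine le_trans ?_ (h.tr_ker k hk)
  have h1 := contr_un S (ker P k)
  have h2 : un S * sg (un S) * (ker P k * sg (ker P k)) = ker P k ^ 2 * (un S * sg (un S)) := by
    rw [sg_ker]; ring
  have h3 : ker P k * sg (ker P k) = ker P k ^ 2 := by rw [sg_ker]; ring
  rw [h2, h3] at h1
  exact h1

/-- THE TILE INEQUALITY -/
theorem Tiles.main (h : Tiles P U K) {S W : Finset ℤ} (hS : S.Nonempty) (hW : S + S ⊆ W) :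
    (S.card : ℝ) ^ 4 * ∑ k ∈ Finset.range K, ((P k).card : ℝ) / ((S + (P k - P k)).card : ℝ) ^ 2
      ≤ 48 * ∑ n ∈ W, (rp S n : ℝ) ^ 2 + 3 * (S.card : ℝ) ^ 4 / (P K).card := by
  have hc : (0 : ℝ) < S.card := by exact_mod_cast Finset.card_pos.2 hS
  have hp : (0 : ℝ) < (P K).card := by
    exact_mod_cast Finset.card_pos.2 (h.nonempty K le_rfl)
  have h1 := h.sum_le (un S) K le_rfl
  have h2 := em_nonneg (P := P) (un S) K
  have h3 : ((P K).card : ℝ) * am P (un S) K ^ 2 ≤ ((P K).card : ℝ)⁻¹ := by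
    have h4 := h.am_upper S K le_rfl
    have h5 := am_nonneg (P := P) (un S) K
    calc ((P K).card : ℝ) * am P (un S) K ^ 2 ≤ (P K).card * (((P K).card : ℝ)⁻¹) ^ 2 := by gcongr
      _ = ((P K).card : ℝ)⁻¹ := by field_simp
  have h6 : ∑ k ∈ Finset.range K, ((P k).card : ℝ) / ((S + (P k - P k)).card : ℝ) ^ 2
      ≤ ∑ i ∈ Finset.range K, ((P i).card : ℝ) * am P (un S) i ^ 2 := by
    refine Finset.sum_le_sum fun i hi => ?_
    have hi' : i ≤ K := (Finset.mem_range.1 hi).le
    have := h.am_lower hS i hi'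
    rw [div_eq_mul_inv, ← inv_pow]
    gcongr
  have h7 : ∑ k ∈ Finset.range K, ((P k).card : ℝ) / ((S + (P k - P k)).card : ℝ) ^ 2
      ≤ 48 * em P (un S) 0 + 3 * ((P K).card : ℝ)⁻¹ := by linarith
  rw [em_zero h S W hW] at h7
  calc (S.card : ℝ) ^ 4 * ∑ k ∈ Finset.range K, ((P k).card : ℝ) / ((S + (P k - P k)).card : ℝ) ^ 2
      ≤ (S.card : ℝ) ^ 4 * (48 * ((∑ n ∈ W, (rp S n : ℝ) ^ 2) * ((S.card : ℝ)⁻¹) ^ 4)
          + 3 * ((P K).card : ℝ)⁻¹) := by gcongr
    _ = _ := by field_simp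

end Pool.Agent.Helper72.NS
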