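import Pool.Agent.Helper72.NS.Limsup

/-! One scale, arbitrary chains, finite unions. -/

namespace Pool.Agent.Helper72.NS

open Finset Filter

variable {A : Set ℕ} {m : ℕ → ℕ} {C Q : ℕ}

/-- a nested set which is thick at one scale -/
theorem single_scale (hC : 1 ≤ C) (hm : Chain m) (hN : Nested A m C) (J : ℕ) (R : ℝ)
    (hR : ∀ n < 2 * (C * m J), (rep A n : ℝ) ≤ R) :
    (num A (m J) : ℝ) ^ 2 * J ≤ 972 * C ^ 3 * m J * R ^ 2 := by
  have hR0 : 0 ≤ R := by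
    have := hR 0 (by have := hm.pos J; positivity)
    have h2 : (0 : ℝ) ≤ rep A 0 := Nat.cast_nonneg _
    linarith
  have hCr : (0 : ℝ) < C := by exact_mod_cast (by omega : 0 < C)
  have hmr : ∀ j, (0 : ℝ) < m j := fun j => by exact_mod_cast hm.pos j
  rcases Nat.eq_zero_or_pos (num A (m J)) with h0 | h0
  · rw [h0]
    have := hmr J
    simp only [Nat.cast_zero, ne_eq, OfNat.ofNat_ne_zero, not_false_eq_true, zero_pow, zero_mul]
    positivity
  have hne : A.Nonempty := by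
    have h0' : 0 < (sec A (m J)).card := by rw [card_sec]; exact h0
    obtain ⟨a, ha⟩ := Finset.card_pos.1 h0'
    exact ⟨a, (mem_sec.1 ha).2⟩
  have h1 := profile hm hC hN J R (fun n hn => hR n (by nlinarith))
  have h2 : ∀ j ∈ Finset.Icc 1 J, 1 / (2 * (C : ℝ) * R) ≤ (m j : ℝ) / (num A (C * m j) : ℝ) ^ 2 := by
    intro j hj
    have hj' := (Finset.mem_Icc.1 hj).2
    have hle : m j ≤ m J := Nat.le_of_dvd (hm.pos J) (hm.dvd' hj')
    have h3 := num_sq_le A (C * m j) R (fun n hn => hR n (by nlinarith))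
    have h4 : (0 : ℝ) < num A (C * m j) := by exact_mod_cast num_pos_of hm hN hne j
    push_cast at h3
    have hRp : 0 < R := by
      by_contra h
      have : R = 0 := le_antisymm (not_lt.1 h) hR0
      rw [this, mul_zero] at h3
      have : 0 < (num A (C * m j) : ℝ) ^ 2 := by positivity
      linarith
    have := hmr j
    calc 1 / (2 * (C : ℝ) * R) = (m j : ℝ) / (2 * (C * m j) * R) := by field_simp
      _ ≤ _ := by gcongr
  have h5 : (J : ℝ) * (1 / (2 * (C : ℝ) * R))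
      ≤ ∑ j ∈ Finset.Icc 1 J, (m j : ℝ) / (num A (C * m j) : ℝ) ^ 2 := by
    calc (J : ℝ) * (1 / (2 * (C : ℝ) * R)) = ∑ j ∈ Finset.Icc 1 J, 1 / (2 * (C : ℝ) * R) := by
          rw [Finset.sum_const, Nat.card_Icc, nsmul_eq_mul]; simp
      _ ≤ _ := Finset.sum_le_sum h2
  rcases Nat.eq_zero_or_pos J with hJ | hJ
  · have := hmr J
    rw [hJ]
    simp only [Nat.cast_zero, mul_zero]
    rw [hJ] at this
    positivity
  have hRp : 0 < R := by
    have h3 := num_sq_le A (m J) R (fun n hn => hR n (by nlinarith))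
    by_contra h
    have : R = 0 := le_antisymm (not_lt.1 h) hR0
    rw [this, mul_zero] at h3
    have : 0 < (num A (m J) : ℝ) ^ 2 := by positivity
    linarith
  have h6 : (num A (m J) : ℝ) ^ 2 * ((J : ℝ) * (1 / (2 * (C : ℝ) * R))) ≤ 486 * C ^ 2 * m J * R :=
    le_trans (mul_le_mul_of_nonneg_left h5 (by positivity)) h1
  have h7 : (num A (m J) : ℝ) ^ 2 * ((J : ℝ) * (1 / (2 * (C : ℝ) * R)))
      = ((num A (m J) : ℝ) ^ 2 * J) / (2 * C * R) := by field_simp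
  rw [h7, div_le_iff₀ (by positivity)] at h6
  linarith

/-- arbitrary chains -/
theorem chain_case (hC : 1 ≤ C) (hm : Chain m) (hN : Nested A m C) (c : ℝ) (hc : 0 < c)
    (h : ∃ᶠ J : ℕ in atTop, c * √(m J) ≤ num A (m J)) (g : ℕ) : ∃ n, g < rep A n := by
  by_contra hcon
  push Not at hcon
  obtain ⟨T, hT⟩ := exists_nat_gt (972 * C ^ 3 * (g : ℝ) ^ 2 / c ^ 2)
  obtain ⟨J, hJ, h1⟩ := (Filter.frequently_atTop.1 h) T
  have h2 := single_scale hC hm hN J g (fun n _ => by exact_mod_cast hcon n)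
  have hmr : (0 : ℝ) < m J := by exact_mod_cast hm.pos J
  have h3 : c ^ 2 * m J ≤ (num A (m J) : ℝ) ^ 2 := by
    calc c ^ 2 * m J = (c * √(m J)) ^ 2 := by rw [mul_pow, Real.sq_sqrt hmr.le]
      _ ≤ _ := by gcongr
  have h4 : (T : ℝ) ≤ J := by exact_mod_cast hJ
  have h5 : c ^ 2 * J * m J ≤ 972 * C ^ 3 * (g : ℝ) ^ 2 * m J := by
    calc c ^ 2 * J * m J = c ^ 2 * m J * J := by ring
      _ ≤ (num A (m J) : ℝ) ^ 2 * J := by gcongr
      _ ≤ 972 * C ^ 3 * m J * (g : ℝ) ^ 2 := h2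
      _ = _ := by ring
  have h6 := le_of_mul_le_mul_right h5 hmr
  rw [div_lt_iff₀ (by positivity)] at hT
  nlinarith

lemma num_union {k : ℕ} (D : Fin k → Set ℕ) (x : ℕ) :
    num (⋃ i, D i) x ≤ ∑ i, num (D i) x := by
  have h1 : ∀ i, num (D i) x = (sec (D i) x).card := fun i => (card_sec _ _).symm
  rw [← card_sec, Finset.sum_congr rfl fun i _ => h1 i]
  classical
  refine le_trans (Finset.card_le_card ?_) (Finset.card_biUnion_le (s := Finset.univ)
    (t := fun i => sec (D i) x))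
  intro a ha
  obtain ⟨h2, h3⟩ := mem_sec.1 ha
  obtain ⟨i, hi⟩ := Set.mem_iUnion.1 h3
  exact Finset.mem_biUnion.2 ⟨i, Finset.mem_univ i, mem_sec.2 ⟨h2, hi⟩⟩

lemma rep_mono {A B : Set ℕ} (h : A ⊆ B) (n : ℕ) : rep A n ≤ rep B n := by
  unfold rep
  refine Set.ncard_le_ncard ?_ (rep_fin B n)
  rintro ⟨a, b⟩ ⟨h1, h2, h3⟩
  exact ⟨h h1, h h2, h3⟩

/-- finite unions of nested sets -/
theorem union_case (k : ℕ) (hQ : 2 ≤ Q) (hC : 1 ≤ C) (c : ℝ) (hc : 0 < c) :
    ∃ δ : ℝ, 0 < δ ∧ ∀ (D : Fin k → Set ℕ) (m : Fin k → ℕ → ℕ),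
      (∀ i, Chain (m i) ∧ (∀ j, m i (j + 1) ≤ Q * m i j) ∧ Nested (D i) (m i) C) →
      ∀ x : ℕ, 1 ≤ x → c * √x ≤ num (⋃ i, D i) x →
        ∃ n < 2 * C * Q * x, δ * √(Real.log x) ≤ rep (⋃ i, D i) n := by
  have hQr : (2 : ℝ) ≤ Q := by exact_mod_cast hQ
  have hCr : (1 : ℝ) ≤ C := by exact_mod_cast hC
  have hlogQ : 0 < Real.log Q := Real.log_pos (by linarith)
  have hkr : (0 : ℝ) ≤ k := Nat.cast_nonneg k
  set E : ℝ := 972 * C ^ 3 * Q * Real.log Q * (k + 1) ^ 2 with hE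
  have hE0 : 0 < E := by rw [hE]; positivity
  refine ⟨c / (2 * √E), by positivity, ?_⟩
  intro D m hD x hx hnum
  by_contra hcon
  push Not at hcon
  have hxr : (1 : ℝ) ≤ x := by exact_mod_cast hx
  have hx0 : (0 : ℝ) < x := by linarith
  -- one of the sets is thick at x
  obtain ⟨i, hi⟩ : ∃ i, c / (k + 1) * √x ≤ num (D i) x := by
    by_contra h
    push Not at h
    have h1 : (num (⋃ i, D i) x : ℝ) ≤ ∑ i, (num (D i) x : ℝ) := by exact_mod_cast num_union D x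
    have h2 : ∑ i, (num (D i) x : ℝ) ≤ ∑ i : Fin k, c / (k + 1) * √x :=
      Finset.sum_le_sum fun i _ => (h i).le
    rw [Finset.sum_const, Finset.card_univ, Fintype.card_fin, nsmul_eq_mul] at h2
    have h3 : (k : ℝ) * (c / (k + 1) * √x) < c * √x := by
      have h4 : 0 < c * √(x : ℝ) := by
        have : 0 < √(x : ℝ) := Real.sqrt_pos.2 hx0
        positivity
      have h5 : (k : ℝ) * (c / (k + 1) * √x) = (k / (k + 1)) * (c * √x) := by field_simp
      rw [h5]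
      have h6 : (k : ℝ) / (k + 1) < 1 := by
        rw [div_lt_one (by positivity)]; linarith
      nlinarith
    linarith
  obtain ⟨hm, hq, hN⟩ := hD i
  -- the right modulus
  obtain ⟨j, hj1, hj2⟩ : ∃ j, m i j ≤ x ∧ x < m i (j + 1) := by
    obtain ⟨J, hJ⟩ := exists_lt_m hm x
    have hex : ∃ j, x < m i j := ⟨J, hJ J le_rfl⟩
    classical
    have h1 := Nat.find_spec hex
    have h2 : Nat.find hex ≠ 0 := by
      intro h
      rw [h, hm.one] at h1
      omega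
    obtain ⟨j, hj⟩ := Nat.exists_eq_succ_of_ne_zero h2
    refine ⟨j, ?_, ?_⟩
    · have := Nat.find_min hex (m := j) (by omega)
      omega
    · have h3 : j + 1 = Nat.find hex := by omega
      rw [h3]; exact h1
  have hmj : m i (j + 1) ≤ Q * x := (hq j).trans (Nat.mul_le_mul_left _ hj1)
  have hsub : D i ⊆ ⋃ i, D i := Set.subset_iUnion D i
  set δ : ℝ := c / (2 * √E) with hδ
  have hR : ∀ n < 2 * (C * m i (j + 1)), (rep (D i) n : ℝ) ≤ δ * √(Real.log x) := by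
    intro n hn
    have h1 : (rep (D i) n : ℝ) ≤ rep (⋃ i, D i) n := by exact_mod_cast rep_mono hsub n
    have h2 : n < 2 * C * Q * x := by
      calc n < 2 * (C * m i (j + 1)) := hn
        _ ≤ 2 * (C * (Q * x)) := by gcongr
        _ = 2 * C * Q * x := by ring
    exact h1.trans (hcon n h2).le
  have h1 := single_scale hC hm hN (j + 1) _ hR
  have hmr : (0 : ℝ) < m i (j + 1) := by exact_mod_cast hm.pos (j + 1)
  have hmQ : (m i (j + 1) : ℝ) ≤ Q * x := by exact_mod_cast hmj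
  have h2 : (num (D i) x : ℝ) ≤ num (D i) (m i (j + 1)) := by exact_mod_cast num_mono hj2.le
  have h3 : (c / (k + 1)) ^ 2 * x ≤ (num (D i) (m i (j + 1)) : ℝ) ^ 2 := by
    calc (c / (k + 1)) ^ 2 * x = (c / (k + 1) * √x) ^ 2 := by rw [mul_pow, Real.sq_sqrt hx0.le]
      _ ≤ (num (D i) x : ℝ) ^ 2 := by gcongr
      _ ≤ _ := by gcongr
  have hlog : Real.log x ≤ (j + 1 : ℕ) * Real.log Q := by
    have h4 := log_m_le hm hq (j + 1)
    have h5 : (x : ℝ) ≤ m i (j + 1) := by exact_mod_cast hj2.le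
    exact (Real.log_le_log hx0 h5).trans h4
  have hlog0 : 0 ≤ Real.log x := Real.log_nonneg hxr
  have hjr : (0 : ℝ) < ((j + 1 : ℕ) : ℝ) := by positivity
  have h6 : (c / (k + 1)) ^ 2 * x * (j + 1 : ℕ)
      ≤ 972 * C ^ 3 * (Q * x) * (δ ^ 2 * ((j + 1 : ℕ) * Real.log Q)) := by
    calc (c / (k + 1)) ^ 2 * x * (j + 1 : ℕ)
        ≤ (num (D i) (m i (j + 1)) : ℝ) ^ 2 * (j + 1 : ℕ) := by gcongr
      _ ≤ 972 * C ^ 3 * m i (j + 1) * (δ * √(Real.log x)) ^ 2 := h1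
      _ = 972 * C ^ 3 * m i (j + 1) * (δ ^ 2 * Real.log x) := by rw [mul_pow, Real.sq_sqrt hlog0]
      _ ≤ _ := by gcongr
  have h7 : (c / (k + 1)) ^ 2 ≤ 972 * C ^ 3 * Q * (δ ^ 2 * Real.log Q) := by
    have h8 : (c / (k + 1)) ^ 2 * (x * (j + 1 : ℕ))
        ≤ (972 * C ^ 3 * Q * (δ ^ 2 * Real.log Q)) * (x * (j + 1 : ℕ)) := by
      calc (c / (k + 1)) ^ 2 * (x * (j + 1 : ℕ)) = (c / (k + 1)) ^ 2 * x * (j + 1 : ℕ) := by ring
        _ ≤ _ := h6
        _ = _ := by ring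
    exact le_of_mul_le_mul_right h8 (by positivity)
  have h9 : δ ^ 2 = c ^ 2 / (4 * E) := by
    rw [hδ, div_pow, mul_pow, Real.sq_sqrt hE0.le]; norm_num
  rw [h9, div_pow, div_le_iff₀ (by positivity)] at h7
  have h10 : 972 * C ^ 3 * Q * (c ^ 2 / (4 * E) * Real.log Q) * ((k : ℝ) + 1) ^ 2 = c ^ 2 / 4 := by
    rw [hE]
    field_simp
  rw [h10] at h7
  have : 0 < c ^ 2 := by positivity
  linarith

end Pool.Agent.Helper72.NS
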